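import Pool.Agent.Lib.MP_e426f4_ag.DL.Defs
import Pool.Agent.Lib.MP_e426f4_ag.DK.IndB

/-!
# IndT: independence of the base elements

`indM_tri`: from `∑ a_z z₁^d = ∑ a_z z₂^d = 0` over `{w, v, o}` eliminate `w`: `a_v D_v + a_o D_o = 0` with the signed numbers
`D_v = v₁^d w₂^d - v₂^d w₁^d`, `D_o = o₁^d w₂^d - o₂^d w₁^d`, `ddn = natAbs`.  `g = gcd`: `D_v/g ∣ a_o` and `D_o/g ∣ a_v`.  Not `Bad`:
`N' g ≤ max(|D_v|, |D_o|)`.  If `N' g ≤ |D_v|` use the bounds `D w = D v = N`, `D o = N'`: `|a_o| < N' ≤ |D_v|/g` gives `a_o = 0`, then `a_v = 0`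
(`D_v ≠ 0`), then `a_w w₁^d = 0`.  Otherwise exchange `v` and `o`.  (`w ≠ v`, `w ≠ o` follow from `ddn ≠ 0`.)
`indM_prop`: `a_w x^d + a_v y^d = 0`, coprime, so `y^d ∣ a_w`, `|a_w| < N' ≤ y^d`: `a_w = 0`, `a_v = 0`; bounds `D w = N'`, `D v = N`.
`bad_scale`: `ddn d (c₁ v₁, c₂ v₂) (c₁ w₁, c₂ w₂) = (c₁ c₂)^d ddn d v w`.
-/

set_option autoImplicit false

namespace Pool.Agent.Lib.MP_e426f4_ag.DL

open Finset
open Pool.Agent.Lib.MP_e426f4_ag.DK

theorem ddn_scale (d c1 c2 : ℕ) (v w : ℕ × ℕ) :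
    ddn d (c1 * v.1, c2 * v.2) (c1 * w.1, c2 * w.2) = (c1 * c2) ^ d * ddn d v w := by
  unfold ddn
  push_cast
  have h : ((c1 : ℤ) * v.1) ^ d * (c2 * w.2) ^ d - (c2 * v.2) ^ d * (c1 * w.1) ^ d =
      (((c1 * c2) ^ d : ℕ) : ℤ) * ((v.1 : ℤ) ^ d * (w.2 : ℤ) ^ d - (v.2 : ℤ) ^ d * (w.1 : ℤ) ^ d) := by
    push_cast
    ring
  rw [h, Int.natAbs_mul, Int.natAbs_natCast]

theorem bad_scale (d N c1 c2 : ℕ) (h1 : 1 ≤ c1) (h2 : 1 ≤ c2) (w v o : ℕ × ℕ) :
    Bad d N (c1 * w.1, c2 * w.2) (c1 * v.1, c2 * v.2) (c1 * o.1, c2 * o.2) ↔ Bad d N w v o := by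
  have hk : 0 < (c1 * c2) ^ d := by positivity
  unfold Bad
  rw [ddn_scale, ddn_scale, Nat.gcd_mul_left, Nat.mul_max_mul_left]
  rw [show N * ((c1 * c2) ^ d * Nat.gcd (ddn d v w) (ddn d o w)) =
    (c1 * c2) ^ d * (N * Nat.gcd (ddn d v w) (ddn d o w)) by ring]
  exact Nat.mul_lt_mul_left hk

theorem ddn_ne_zero (d : ℕ) (hd : 1 ≤ d) (v w : ℕ × ℕ) (h : v.1 * w.2 ≠ v.2 * w.1) : ddn d v w ≠ 0 := by
  unfold ddn
  rw [Ne, Int.natAbs_eq_zero, sub_eq_zero, ← mul_pow, ← mul_pow]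
  intro h1
  apply h
  have h3 : ((v.1 * w.2 : ℕ) : ℤ) ^ d = ((v.2 * w.1 : ℕ) : ℤ) ^ d := by
    push_cast
    exact h1
  have h4 : (v.1 * w.2) ^ d = (v.2 * w.1) ^ d := by exact_mod_cast h3
  exact Nat.pow_left_injective (by omega : d ≠ 0) h4

private theorem ddn_self (d : ℕ) (w : ℕ × ℕ) : ddn d w w = 0 := by
  unfold ddn
  rw [Int.natAbs_eq_zero]
  ring

private theorem tri_aux (d H N N' : ℕ) (w v o : ℕ × ℕ) (hw : 1 ≤ w.1)
    (hv0 : ddn d v w ≠ 0) (ho0 : ddn d o w ≠ 0) (hvo : v ≠ o) (hN : 1 ≤ N) (hNH : N ≤ H) (hN' : 1 ≤ N')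
    (hN'H : N' ≤ H) (hg : N' * Nat.gcd (ddn d v w) (ddn d o w) ≤ ddn d v w) :
    IndM d H (N * N * N') {w, v, o} := by
  classical
  have hwv : w ≠ v := by
    rintro rfl
    exact hv0 (ddn_self d w)
  have hwo : w ≠ o := by
    rintro rfl
    exact ho0 (ddn_self d w)
  refine ⟨fun z => if z = o then N' else N, fun z _ => ?_, ?_, ?_⟩
  · show 1 ≤ (if z = o then N' else N) ∧ (if z = o then N' else N) ≤ H
    split_ifs
    · exact ⟨hN', hN'H⟩
    · exact ⟨hN, hNH⟩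
  · rw [prod_insert (by simp [hwv, hwo]), prod_pair hvo, if_neg hwo, if_neg hvo, if_pos rfl,
      Nat.mul_assoc]
  · intro a ha h1 h2
    rw [sum_insert (by simp [hwv, hwo]), sum_pair hvo] at h1 h2
    -- eliminate `w`
    have hrel : a v * ((v.1 : ℤ) ^ d * (w.2 : ℤ) ^ d - (v.2 : ℤ) ^ d * (w.1 : ℤ) ^ d) =
        -(a o * ((o.1 : ℤ) ^ d * (w.2 : ℤ) ^ d - (o.2 : ℤ) ^ d * (w.1 : ℤ) ^ d)) := by
      linear_combination (w.2 : ℤ) ^ d * h1 - (w.1 : ℤ) ^ d * h2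
    have hnat : (a v).natAbs * ddn d v w = (a o).natAbs * ddn d o w := by
      have := congrArg Int.natAbs hrel
      rw [Int.natAbs_neg, Int.natAbs_mul, Int.natAbs_mul] at this
      exact this
    have hgpos : 0 < Nat.gcd (ddn d v w) (ddn d o w) :=
      Nat.gcd_pos_of_pos_left _ (Nat.pos_of_ne_zero hv0)
    obtain ⟨g, hgdef⟩ : ∃ g, g = Nat.gcd (ddn d v w) (ddn d o w) := ⟨_, rfl⟩
    rw [← hgdef] at hg hgpos
    obtain ⟨p, hp⟩ : g ∣ ddn d v w := hgdef ▸ Nat.gcd_dvd_left _ _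
    obtain ⟨q, hq⟩ : g ∣ ddn d o w := hgdef ▸ Nat.gcd_dvd_right _ _
    have hcop : Nat.Coprime p q := by
      have h3 : g * Nat.gcd p q = g := by
        rw [← Nat.gcd_mul_left, ← hp, ← hq, ← hgdef]
      exact Nat.eq_of_mul_eq_mul_left hgpos (by rw [h3, Nat.mul_one])
    have h3 : (a v).natAbs * p = (a o).natAbs * q := by
      rw [hp, hq] at hnat
      apply Nat.eq_of_mul_eq_mul_left hgpos
      calc g * ((a v).natAbs * p) = (a v).natAbs * (g * p) := by ring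
        _ = (a o).natAbs * (g * q) := hnat
        _ = g * ((a o).natAbs * q) := by ring
    have h4 : p ∣ (a o).natAbs := by
      apply Nat.Coprime.dvd_of_dvd_mul_right hcop
      rw [← h3]
      exact dvd_mul_left _ _
    have hNp : N' ≤ p := by
      rw [hp, Nat.mul_comm] at hg
      exact Nat.le_of_mul_le_mul_left hg hgpos
    have hao : a o = 0 := by
      by_contra hne
      have h5 : 0 < (a o).natAbs := Int.natAbs_pos.mpr hne
      have h6 := Nat.le_of_dvd h5 h4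
      have h7 : |a o| < (((if o = o then N' else N : ℕ) : ℕ) : ℤ) := ha o (by simp)
      rw [if_pos rfl] at h7
      have h8 : ((a o).natAbs : ℤ) < N' := by
        rw [Int.natCast_natAbs]
        exact h7
      omega
    have hav : a v = 0 := by
      rw [hao, Int.natAbs_zero, Nat.zero_mul] at hnat
      rcases Nat.mul_eq_zero.mp hnat with h5 | h5
      · exact Int.natAbs_eq_zero.mp h5
      · exact absurd h5 hv0
    have haw : a w = 0 := by
      rw [hao, hav, zero_mul, zero_mul, add_zero, add_zero] at h1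
      have h5 : ((w.1 : ℤ)) ^ d ≠ 0 := pow_ne_zero _ (by exact_mod_cast (by omega : w.1 ≠ 0))
      exact (mul_eq_zero.mp h1).resolve_right h5
    intro z hz
    rw [mem_insert, mem_insert, mem_singleton] at hz
    rcases hz with rfl | rfl | rfl
    · exact haw
    · exact hav
    · exact hao

theorem indM_tri (d H N N' : ℕ) (w v o : ℕ × ℕ) (hw : 1 ≤ w.1)
    (hv0 : ddn d v w ≠ 0) (ho0 : ddn d o w ≠ 0) (hvo : v ≠ o) (hN : 1 ≤ N) (hNH : N ≤ H) (hN' : 1 ≤ N')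
    (hN'H : N' ≤ H) (hg : ¬ Bad d N' w v o) : IndM d H (N * N * N') {w, v, o} := by
  unfold Bad at hg
  rw [not_lt, le_max_iff] at hg
  rcases hg with hg | hg
  · exact tri_aux d H N N' w v o hw hv0 ho0 hvo hN hNH hN' hN'H hg
  · rw [Nat.gcd_comm] at hg
    have h := tri_aux d H N N' w o v hw ho0 hv0 (Ne.symm hvo) hN hNH hN' hN'H hg
    rw [show ({w, v, o} : Finset (ℕ × ℕ)) = {w, o, v} by
      rw [Finset.pair_comm v o]]
    exact h

theorem indM_prop (d H N N' : ℕ) (c x y z z' : ℕ) (hc : 1 ≤ c) (hx : 1 ≤ x) (hy : 1 ≤ y)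
    (hxy : Nat.Coprime x y) (hne : (c * x, z) ≠ (c * y, z')) (hN : 1 ≤ N) (hNH : N ≤ H) (hN' : 1 ≤ N')
    (hN'H : N' ≤ H) (hg : N' ≤ y ^ d) : IndM d H (N * N') {(c * x, z), (c * y, z')} := by
  classical
  refine ⟨fun p => if p = (c * x, z) then N' else N, fun p _ => ?_, ?_, ?_⟩
  · show 1 ≤ (if p = (c * x, z) then N' else N) ∧ (if p = (c * x, z) then N' else N) ≤ H
    split_ifs
    · exact ⟨hN', hN'H⟩
    · exact ⟨hN, hNH⟩
  · rw [prod_pair hne, if_pos rfl, if_neg (Ne.symm hne), Nat.mul_comm]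
  · intro a ha h1 _
    rw [sum_pair hne] at h1
    obtain ⟨α, hα⟩ : ∃ α, α = a (c * x, z) := ⟨_, rfl⟩
    obtain ⟨β, hβ⟩ : ∃ β, β = a (c * y, z') := ⟨_, rfl⟩
    rw [← hα, ← hβ] at h1
    push_cast at h1
    have hc0 : (c : ℤ) ^ d ≠ 0 := pow_ne_zero _ (by exact_mod_cast (by omega : c ≠ 0))
    have hy0 : (y : ℤ) ^ d ≠ 0 := pow_ne_zero _ (by exact_mod_cast (by omega : y ≠ 0))
    have h2 : α * (x : ℤ) ^ d + β * (y : ℤ) ^ d = 0 := by
      have h3 : (c : ℤ) ^ d * (α * (x : ℤ) ^ d + β * (y : ℤ) ^ d) = 0 := by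
        rw [← h1]
        ring
      exact (mul_eq_zero.mp h3).resolve_left hc0
    have h4 : (y ^ d) ∣ α.natAbs := by
      have h5 : ((y ^ d : ℕ) : ℤ) ∣ α * (x : ℤ) ^ d := by
        refine ⟨-β, ?_⟩
        push_cast
        linear_combination h2
      have h6 := Int.natAbs_dvd_natAbs.mpr h5
      rw [Int.natAbs_mul, Int.natAbs_pow, Int.natAbs_natCast, Int.natAbs_natCast] at h6
      exact Nat.Coprime.dvd_of_dvd_mul_right (Nat.Coprime.pow d d hxy.symm) h6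
    have hα0 : α = 0 := by
      by_contra hne0
      have h5 : 0 < α.natAbs := Int.natAbs_pos.mpr hne0
      have h6 := Nat.le_of_dvd h5 h4
      have h7 : |a (c * x, z)| < (((if (c * x, z) = (c * x, z) then N' else N : ℕ) : ℕ) : ℤ) :=
        ha (c * x, z) (by simp)
      rw [if_pos rfl, ← hα] at h7
      have h8 : (α.natAbs : ℤ) < N' := by
        rw [Int.natCast_natAbs]
        exact h7
      omega
    have hβ0 : β = 0 := by
      rw [hα0, zero_mul, zero_add] at h2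
      exact (mul_eq_zero.mp h2).resolve_right hy0
    intro p hp
    rw [mem_insert, mem_singleton] at hp
    rcases hp with rfl | rfl
    · rw [← hα]; exact hα0
    · rw [← hβ]; exact hβ0

end Pool.Agent.Lib.MP_e426f4_ag.DL
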