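import Pool.Agent.Lib.MP_e426f4_ag.DL.Defs
import Pool.Agent.Lib.MP_e426f4_ag.DG.Rho

/-!
# Tri: few `o` satisfy a relation with `w`, `v` with small coefficients

Let `g = gcd(ddn v w, ddn o w)`, `det(x, y) = x₁ y₂ - x₂ y₁` (in `ℤ`).
(a) `|X^d - Y^d| ≥ |X - Y| max(X, Y)^(d-1)` gives `L^(d-1) |det(o, w)| ≤ ddn o w < N g` for `o ∈ O`, so `2 Cc |det(o, w)| < g` (`hL`).
(b) For a divisor `r` of `ddn v w` let `O_r` be the set of the `o ∈ O` with `g = r`.  `r` is coprime to `w₁, w₂` (`hcw`) and to `o₁, o₂` (`hco`,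
`r ∣ ddn o w`).  So `x = o₁ w₂ (o₂ w₁)⁻¹` modulo `r` satisfies `x^d = 1`.  If `o, o' ∈ O_r` have the same `x` then
`o₁ w₂ o'₂ w₁ ≡ o'₁ w₂ o₂ w₁`, `r ∣ det(o, o')`.  But `w₁ det(o, o') = - o₁ det(o', w) + o'₁ det(o, w)` up to signs
(`w₁ (o₁ o'₂ - o₂ o'₁) = o₁ (o'₂ w₁ - o'₁ w₂) + o'₁ (o₁ w₂ - o₂ w₁)`), so `|det(o, o')| ≤ Cc (|det(o', w)| + |det(o, w)|) < r`, so `det(o, o') = 0`,
`o = o'` by `hnp`.  Hence `|O_r| ≤ rho d r ≤ R`.
(c) the number of the divisors is at most `R`.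
-/

set_option autoImplicit false

namespace Pool.Agent.Lib.MP_e426f4_ag.DL

open Finset
open Pool.Agent.Lib.MP_e426f4_ag.DG

private lemma tc_pow_aux (X Y : ℤ) (hY : 0 ≤ Y) (h : Y ≤ X) (d : ℕ) (hd : 1 ≤ d) :
    |X - Y| * X ^ (d - 1) ≤ |X ^ d - Y ^ d| := by
  obtain ⟨k, rfl⟩ : ∃ k, d = k + 1 := ⟨d - 1, by omega⟩
  have h1 : Y ^ k ≤ X ^ k := pow_le_pow_left₀ hY h k
  have h2 : Y ^ (k + 1) ≤ X ^ (k + 1) := pow_le_pow_left₀ hY h _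
  rw [Nat.add_sub_cancel, abs_of_nonneg (sub_nonneg.2 h), abs_of_nonneg (sub_nonneg.2 h2)]
  have h3 : X ^ (k + 1) - Y ^ (k + 1) - (X - Y) * X ^ k = Y * (X ^ k - Y ^ k) := by ring
  have h4 : 0 ≤ Y * (X ^ k - Y ^ k) := mul_nonneg hY (sub_nonneg.2 h1)
  linarith

private lemma tc_pow (X Y : ℤ) (hX : 0 ≤ X) (hY : 0 ≤ Y) (L : ℤ) (hL0 : 0 ≤ L)
    (hL : L ≤ max X Y) (d : ℕ) (hd : 1 ≤ d) :
    |X - Y| * L ^ (d - 1) ≤ |X ^ d - Y ^ d| := by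
  rcases le_total Y X with h | h
  · have h1 : L ≤ X := by rwa [max_eq_left h] at hL
    exact (mul_le_mul_of_nonneg_left (pow_le_pow_left₀ hL0 h1 _) (abs_nonneg _)).trans
      (tc_pow_aux X Y hY h d hd)
  · have h1 : L ≤ Y := by rwa [max_eq_right h] at hL
    rw [abs_sub_comm, abs_sub_comm (X ^ d)]
    exact (mul_le_mul_of_nonneg_left (pow_le_pow_left₀ hL0 h1 _) (abs_nonneg _)).trans
      (tc_pow_aux Y X hX h d hd)

/-- (a) -/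
private lemma tc_det (d Cc L N r : ℕ) (hd : 1 ≤ d) (w o : ℕ × ℕ)
    (hLo : L ≤ max (o.1 * w.2) (o.2 * w.1)) (hL : 2 * Cc * N ≤ L ^ (d - 1))
    (hB : ddn d o w < N * r) :
    2 * (Cc : ℤ) * |(o.1 : ℤ) * w.2 - o.2 * w.1| < r := by
  have h1 := tc_pow ((o.1 : ℤ) * w.2) ((o.2 : ℤ) * w.1) (by positivity) (by positivity) L
    (by positivity) (by exact_mod_cast hLo) d hd
  have h2 : ((ddn d o w : ℕ) : ℤ) = |((o.1 : ℤ) * w.2) ^ d - ((o.2 : ℤ) * w.1) ^ d| := by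
    unfold ddn
    rw [Int.natCast_natAbs, mul_pow, mul_pow]
  rw [← h2] at h1
  have h3 : ((ddn d o w : ℕ) : ℤ) < N * r := by exact_mod_cast hB
  have h4 : (2 : ℤ) * Cc * N ≤ (L : ℤ) ^ (d - 1) := by exact_mod_cast hL
  set D := |(o.1 : ℤ) * w.2 - o.2 * w.1| with hD
  have hD0 : 0 ≤ D := abs_nonneg _
  have h5 : D * (2 * Cc * N) ≤ D * (L : ℤ) ^ (d - 1) := mul_le_mul_of_nonneg_left h4 hD0
  have h6 : (N : ℤ) * (2 * Cc * D) < N * r := by nlinarith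
  exact lt_of_mul_lt_mul_left h6 (by positivity)

/-- (b) -/
private lemma tc_fibre (d Cc L N r : ℕ) (hd : 1 ≤ d) (w v : ℕ × ℕ) (O : Finset (ℕ × ℕ))
    (hw : 1 ≤ w.1 ∧ 1 ≤ w.2) (hr0 : r ≠ 0) (hrv : r ∣ ddn d v w)
    (hcw : Nat.Coprime (ddn d v w) (w.1 * w.2))
    (hco : ∀ o ∈ O, Nat.Coprime (ddn d o w) (o.1 * o.2))
    (hC : ∀ o ∈ O, o.1 ≤ Cc * w.1) (hLo : ∀ o ∈ O, L ≤ max (o.1 * w.2) (o.2 * w.1))
    (hL : 2 * Cc * N ≤ L ^ (d - 1)) (hB : ∀ o ∈ O, ddn d o w < N * r)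
    (hro : ∀ o ∈ O, r ∣ ddn d o w)
    (hnp : ∀ o ∈ O, ∀ o' ∈ O, o ≠ o' → o.1 * o'.2 ≠ o.2 * o'.1) :
    O.card ≤ rho d r := by
  classical
  haveI : NeZero r := ⟨hr0⟩
  have hrw : Nat.Coprime r (w.1 * w.2) := Nat.Coprime.coprime_dvd_left hrv hcw
  have hrw1 : Nat.Coprime w.1 r := (Nat.Coprime.coprime_mul_right_right hrw).symm
  have hrw2 : Nat.Coprime w.2 r := (Nat.Coprime.coprime_mul_left_right hrw).symm
  have hro2 : ∀ o ∈ O, Nat.Coprime o.2 r := fun o ho =>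
    (Nat.Coprime.coprime_mul_left_right (Nat.Coprime.coprime_dvd_left (hro o ho) (hco o ho))).symm
  set x : ℕ × ℕ → ZMod r := fun o =>
    ((o.1 * w.2 : ℕ) : ZMod r) * ((o.2 * w.1 : ℕ) : ZMod r)⁻¹ with hx
  have hunit : ∀ o ∈ O, ((o.2 * w.1 : ℕ) : ZMod r) * ((o.2 * w.1 : ℕ) : ZMod r)⁻¹ = 1 := fun o ho =>
    ZMod.coe_mul_inv_eq_one _ (Nat.Coprime.mul_left (hro2 o ho) hrw1)
  have hxd : ∀ o ∈ O, x o ^ d = 1 := by
    intro o ho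
    have h1 : ((o.1 * w.2 : ℕ) : ZMod r) ^ d = ((o.2 * w.1 : ℕ) : ZMod r) ^ d := by
      have h2 : ((r : ℕ) : ℤ) ∣ (o.1 : ℤ) ^ d * (w.2 : ℤ) ^ d - (o.2 : ℤ) ^ d * (w.1 : ℤ) ^ d := by
        have h3 := hro o ho
        unfold ddn at h3
        exact Int.natCast_dvd.2 h3
      have h4 := (ZMod.intCast_zmod_eq_zero_iff_dvd _ r).2 h2
      push_cast at h4 ⊢
      rw [mul_pow, mul_pow]
      exact sub_eq_zero.1 h4
    rw [hx]
    show (((o.1 * w.2 : ℕ) : ZMod r) * ((o.2 * w.1 : ℕ) : ZMod r)⁻¹) ^ d = 1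
    rw [mul_pow, h1, ← mul_pow, hunit o ho, one_pow]
  unfold rho
  refine Finset.card_le_card_of_injOn (fun o => (x o).val) ?_ ?_
  · intro o ho
    rw [Finset.mem_coe, Finset.mem_filter, Finset.mem_range]
    refine ⟨ZMod.val_lt _, ?_⟩
    rw [← ZMod.natCast_eq_natCast_iff]
    push_cast
    rw [ZMod.natCast_val, ZMod.cast_id', id_eq]
    exact hxd o ho
  · intro o ho o' ho' hoo
    have ho1 : o ∈ O := ho
    have ho2 : o' ∈ O := ho'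
    by_contra hne
    have hval : x o = x o' := ZMod.val_injective r hoo
    have h1 : ((o.1 * w.2 : ℕ) : ZMod r) * ((o'.2 * w.1 : ℕ) : ZMod r) =
        ((o'.1 * w.2 : ℕ) : ZMod r) * ((o.2 * w.1 : ℕ) : ZMod r) := by
      have e1 := hunit o ho1
      have e2 := hunit o' ho2
      have e3 : ((o.1 * w.2 : ℕ) : ZMod r) * ((o.2 * w.1 : ℕ) : ZMod r)⁻¹ =
        ((o'.1 * w.2 : ℕ) : ZMod r) * ((o'.2 * w.1 : ℕ) : ZMod r)⁻¹ := hval
      generalize ((o.1 * w.2 : ℕ) : ZMod r) = a at *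
      generalize ((o'.1 * w.2 : ℕ) : ZMod r) = a' at *
      generalize ((o.2 * w.1 : ℕ) : ZMod r) = b at *
      generalize ((o'.2 * w.1 : ℕ) : ZMod r) = b' at *
      calc a * b' = (a * b⁻¹) * (b * b') := by linear_combination (-(a * b')) * e1
        _ = (a' * b'⁻¹) * (b * b') := by rw [e3]
        _ = a' * b := by linear_combination (a' * b) * e2
    have h2 : (((o.1 * o'.2 : ℕ) : ZMod r)) = ((o.2 * o'.1 : ℕ) : ZMod r) := by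
      have e1 := ZMod.coe_mul_inv_eq_one w.1 hrw1
      have e2 := ZMod.coe_mul_inv_eq_one w.2 hrw2
      push_cast at h1 ⊢
      linear_combination ((w.1 : ZMod r)⁻¹ * (w.2 : ZMod r)⁻¹) * h1 -
        ((o.1 : ZMod r) * o'.2 - o.2 * o'.1) * ((w.2 : ZMod r) * (w.2 : ZMod r)⁻¹) * e1 -
        ((o.1 : ZMod r) * o'.2 - o.2 * o'.1) * e2
    have h3 : ((r : ℕ) : ℤ) ∣ (o.1 : ℤ) * o'.2 - o.2 * o'.1 := by
      rw [← ZMod.intCast_zmod_eq_zero_iff_dvd]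
      push_cast at h2 ⊢
      rw [h2, sub_self]
    have h4 := tc_det d Cc L N r hd w o (hLo o ho1) hL (hB o ho1)
    have h5 := tc_det d Cc L N r hd w o' (hLo o' ho2) hL (hB o' ho2)
    have h6 : (w.1 : ℤ) * ((o.1 : ℤ) * o'.2 - o.2 * o'.1) =
        o'.1 * ((o.1 : ℤ) * w.2 - o.2 * w.1) - o.1 * ((o'.1 : ℤ) * w.2 - o'.2 * w.1) := by ring
    have hw1 : (1 : ℤ) ≤ w.1 := by exact_mod_cast hw.1
    have hCo : (o.1 : ℤ) ≤ Cc * w.1 := by exact_mod_cast hC o ho1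
    have hCo' : (o'.1 : ℤ) ≤ Cc * w.1 := by exact_mod_cast hC o' ho2
    set D := |(o.1 : ℤ) * w.2 - o.2 * w.1| with hD
    set D' := |(o'.1 : ℤ) * w.2 - o'.2 * w.1| with hD'
    have hD0 : 0 ≤ D := abs_nonneg _
    have hD0' : 0 ≤ D' := abs_nonneg _
    have h7 : (w.1 : ℤ) * |(o.1 : ℤ) * o'.2 - o.2 * o'.1| ≤ o'.1 * D + o.1 * D' := by
      have e1 : |(w.1 : ℤ) * ((o.1 : ℤ) * o'.2 - o.2 * o'.1)| =
          (w.1 : ℤ) * |(o.1 : ℤ) * o'.2 - o.2 * o'.1| := by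
        rw [abs_mul, abs_of_nonneg (by linarith : (0 : ℤ) ≤ w.1)]
      rw [← e1, h6]
      refine (abs_sub _ _).trans ?_
      rw [abs_mul, abs_mul, abs_of_nonneg (by positivity : (0 : ℤ) ≤ (o'.1 : ℤ)),
        abs_of_nonneg (by positivity : (0 : ℤ) ≤ (o.1 : ℤ))]
    have h8 : (o'.1 : ℤ) * D ≤ Cc * w.1 * D := mul_le_mul_of_nonneg_right hCo' hD0
    have h9 : (o.1 : ℤ) * D' ≤ Cc * w.1 * D' := mul_le_mul_of_nonneg_right hCo hD0'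
    have h10 : (w.1 : ℤ) * (2 * Cc * D + 2 * Cc * D') < w.1 * (2 * r) :=
      mul_lt_mul_of_pos_left (by linarith) (by linarith)
    have h11 : |(o.1 : ℤ) * o'.2 - o.2 * o'.1| < r := by
      have e1 : (w.1 : ℤ) * (2 * |(o.1 : ℤ) * o'.2 - o.2 * o'.1|) < w.1 * (2 * r) := by
        linarith
      have e2 := lt_of_mul_lt_mul_left e1 (by linarith)
      linarith
    have h12 : (o.1 : ℤ) * o'.2 - o.2 * o'.1 = 0 := by
      by_contra h0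
      have e1 := Int.le_of_dvd (abs_pos.2 h0) ((dvd_abs _ _).2 h3)
      linarith
    have h13 : o.1 * o'.2 = o.2 * o'.1 := by
      have e1 : (o.1 : ℤ) * o'.2 = o.2 * o'.1 := by linarith
      exact_mod_cast e1
    exact hnp o ho1 o' ho2 hne h13

theorem tri_count (d Cc L N R : ℕ) (hd : 1 ≤ d) (hN : 1 ≤ N) (w v : ℕ × ℕ) (O : Finset (ℕ × ℕ))
    (hw : 1 ≤ w.1 ∧ 1 ≤ w.2) (hv : ddn d v w ≠ 0) (ho : ∀ o ∈ O, 1 ≤ o.1 ∧ 1 ≤ o.2)
    (hcw : Nat.Coprime (ddn d v w) (w.1 * w.2))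
    (hco : ∀ o ∈ O, Nat.Coprime (ddn d o w) (o.1 * o.2))
    (hC : ∀ o ∈ O, o.1 ≤ Cc * w.1) (hLo : ∀ o ∈ O, L ≤ max (o.1 * w.2) (o.2 * w.1))
    (hL : 2 * Cc * N ≤ L ^ (d - 1)) (hB : ∀ o ∈ O, Bad d N w v o)
    (hnp : ∀ o ∈ O, ∀ o' ∈ O, o ≠ o' → o.1 * o'.2 ≠ o.2 * o'.1)
    (htau : (ddn d v w).divisors.card ≤ R) (hrho : ∀ r, r ∣ ddn d v w → rho d r ≤ R) :
    O.card ≤ R * R := by
  classical
  have hdiv : ∀ o ∈ O, Nat.gcd (ddn d v w) (ddn d o w) ∈ (ddn d v w).divisors := fun o _ =>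
    Nat.mem_divisors.2 ⟨Nat.gcd_dvd_left _ _, hv⟩
  rw [Finset.card_eq_sum_card_fiberwise (f := fun o => Nat.gcd (ddn d v w) (ddn d o w))
    (t := (ddn d v w).divisors) (fun o ho => hdiv o ho)]
  have hf : ∀ r ∈ (ddn d v w).divisors,
      (O.filter fun o => Nat.gcd (ddn d v w) (ddn d o w) = r).card ≤ R := by
    intro r hr
    have hrv := Nat.dvd_of_mem_divisors hr
    refine le_trans ?_ (hrho r hrv)
    refine tc_fibre d Cc L N r hd w v _ hw ?_ hrv hcw ?_ ?_ ?_ hL ?_ ?_ ?_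
    · rintro rfl
      exact hv (Nat.eq_zero_of_zero_dvd hrv)
    · intro o h
      exact hco o (Finset.mem_filter.1 h).1
    · intro o h
      exact hC o (Finset.mem_filter.1 h).1
    · intro o h
      exact hLo o (Finset.mem_filter.1 h).1
    · intro o h
      obtain ⟨h1, h2⟩ := Finset.mem_filter.1 h
      have h3 := hB o h1
      unfold Bad at h3
      rw [h2] at h3
      exact lt_of_le_of_lt (le_max_right _ _) h3
    · intro o h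
      obtain ⟨h1, h2⟩ := Finset.mem_filter.1 h
      rw [← h2]
      exact Nat.gcd_dvd_right _ _
    · intro o h o' h'
      exact hnp o (Finset.mem_filter.1 h).1 o' (Finset.mem_filter.1 h').1
  refine (Finset.sum_le_sum hf).trans ?_
  rw [Finset.sum_const, smul_eq_mul]
  exact Nat.mul_le_mul_right _ htau

end Pool.Agent.Lib.MP_e426f4_ag.DL
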