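import Pool.Agent.Lib.MP_e426f4_ag.DL.ClC
import Pool.Agent.Lib.MP_e426f4_ag.DL.Tri
import Pool.Agent.Lib.MP_e426f4_ag.DL.IndT

/-!
# Base1: the base elements, `thA A ⊆ K`

`base1_few`: by `cl_factor`, `pr t t' z = (c1 z̄₁, c2 z̄₂)` for all `z ∈ cell K w0`, where `z̄₁`, `z̄₂` are the products over
`U₁ = {c : inl c ∉ K}`, `U₂ = {c ∉ A : inr c ∉ K}`, `#U₁ + #U₂ = #FA - #K`.  `Bad` does not change under the scaling (`bad_scale`).  Apply `tri_count` to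
`w̄`, `v̄` and the set of the `ō` with `Cc = 4^u`, `L = W^(#FA - #K)`, `R = S.R`.  `ō₁ ≤ (4W)^#U₁ ≤ 4^u w̄₁`;
`ō₁ w̄₂ ≥ W^(#U₁ + #U₂)`.  `Coprime (ddn v̄ w̄) (w̄₁ w̄₂)`: a prime dividing both is some `q = w.1 c`, `c ∈ U₁` (or `w.2 c`, `c ∈ U₂`), and
divides `v̄₁^d w̄₂^d`, so `q = v.1 c` (excluded: `v` differs from `w` at `inl c ∈ FA \ K`) or `q = w.2 c` with `c ∈ U₂`, `c ∉ A` (excluded:
`w.1 c ≠ w.2 c`); blocks with different index are disjoint.  The same for `Coprime (ddn ō w̄) (ō₁ ō₂)`.  `hnp` and `ddn v̄ w̄ ≠ 0` from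
`cl_star` and `ddn_ne_zero`.  `ddn ≤ B^(2d) ≤ B^(8d)`: `tau_le`, `rho_le`.  The map `z ↦ z̄` is injective on the cell.
`base1_ind`: `indM_tri` for the images with `N = W^(d l) ≤ H` (`H_ge'`); `ddn ≠ 0` by `cl_star`.
-/

set_option autoImplicit false

namespace Pool.Agent.Lib.MP_e426f4_ag.DL

open Finset
open Pool.Agent.Lib.MP_e426f4_ag.DG
open Pool.Agent.Lib.MP_e426f4_ag.DK

private theorem mem_cell' {α C : Type} (k : C → α → ℕ) (Z : Finset α) (K : Finset C) (w z : α) :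
    z ∈ cell k Z K w ↔ z ∈ Z ∧ ∀ c ∈ K, k c z = k c w := by
  unfold cell
  exact Finset.mem_filter

private theorem mem_dcell' {α C : Type} [DecidableEq C] (k : C → α → ℕ) (Z : Finset α)
    (F K : Finset C) (w z : α) :
    z ∈ dcell k Z F K w ↔ z ∈ Z ∧ (∀ c ∈ K, k c z = k c w) ∧ ∀ c ∈ F \ K, k c z ≠ k c w := by
  unfold dcell
  exact Finset.mem_filter

private def U1 {u : ℕ} (K : Finset (Fin u ⊕ Fin u)) : Finset (Fin u) :=
  univ.filter (fun c : Fin u => Sum.inl c ∉ K)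

private def U2 {u : ℕ} (A : Finset (Fin u)) (K : Finset (Fin u ⊕ Fin u)) : Finset (Fin u) :=
  univ.filter (fun c : Fin u => c ∉ A ∧ Sum.inr c ∉ K)

private def zb {u : ℕ} (A : Finset (Fin u)) (K : Finset (Fin u ⊕ Fin u))
    (z : (Fin u → ℕ) × (Fin u → ℕ)) : ℕ × ℕ :=
  (∏ c ∈ U1 K, z.1 c, ∏ c ∈ U2 A K, z.2 c)

private theorem mem_U1 {u : ℕ} {K : Finset (Fin u ⊕ Fin u)} {c : Fin u} :
    c ∈ U1 K ↔ Sum.inl c ∉ K := by
  unfold U1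
  rw [mem_filter]
  exact ⟨fun h => h.2, fun h => ⟨mem_univ _, h⟩⟩

private theorem mem_U2 {u : ℕ} {A : Finset (Fin u)} {K : Finset (Fin u ⊕ Fin u)} {c : Fin u} :
    c ∈ U2 A K ↔ c ∉ A ∧ Sum.inr c ∉ K := by
  unfold U2
  rw [mem_filter]
  exact ⟨fun h => h.2, fun h => ⟨mem_univ _, h⟩⟩

private theorem sdiff_eq {u : ℕ} (A : Finset (Fin u)) (K : Finset (Fin u ⊕ Fin u)) :
    FA A \ K = (U1 K).disjSum (U2 A K) := by
  ext c
  rcases c with c | c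
  · rw [mem_sdiff, inl_mem_disjSum, mem_U1]
    exact ⟨fun h => h.2, fun h => ⟨mem_FA_inl A c, h⟩⟩
  · rw [mem_sdiff, inr_mem_disjSum, mem_U2, mem_FA_inr]

private theorem card_U {u : ℕ} (A : Finset (Fin u)) (K : Finset (Fin u ⊕ Fin u)) (hK : K ⊆ FA A) :
    (U1 K).card + (U2 A K).card = (FA A).card - K.card := by
  rw [← card_disjSum, ← sdiff_eq, card_sdiff_of_subset hK]

private theorem card_U1 {u : ℕ} (K : Finset (Fin u ⊕ Fin u)) : (U1 K).card ≤ u := by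
  have h := card_le_univ (U1 K)
  rwa [Fintype.card_fin] at h

private theorem card_U2 {u : ℕ} (A : Finset (Fin u)) (K : Finset (Fin u ⊕ Fin u)) :
    (U2 A K).card ≤ u := by
  have h := card_le_univ (U2 A K)
  rwa [Fintype.card_fin] at h

private theorem ddn_comm (d : ℕ) (v w : ℕ × ℕ) : ddn d v w = ddn d w v := by
  unfold ddn
  rw [← Int.natAbs_neg]
  congr 1
  ring

private theorem ddn_dvd {d q : ℕ} (hd : 1 ≤ d) (hq : q.Prime) (v w : ℕ × ℕ) (h : q ∣ ddn d v w) :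
    (q ∣ w.1 → q ∣ v.1 ∨ q ∣ w.2) ∧ (q ∣ w.2 → q ∣ v.2 ∨ q ∣ w.1) := by
  have hz : (q : ℤ) ∣ (v.1 : ℤ) ^ d * (w.2 : ℤ) ^ d - (v.2 : ℤ) ^ d * (w.1 : ℤ) ^ d :=
    Int.natCast_dvd.2 h
  have hd0 : d ≠ 0 := by omega
  constructor
  · intro h1
    have h2 : (q : ℤ) ∣ (v.2 : ℤ) ^ d * (w.1 : ℤ) ^ d :=
      Dvd.dvd.mul_left (dvd_pow (Int.natCast_dvd_natCast.2 h1) hd0) _
    have h3 : (q : ℤ) ∣ (v.1 : ℤ) ^ d * (w.2 : ℤ) ^ d := (dvd_sub_left h2).1 hz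
    have h4 : q ∣ v.1 ^ d * w.2 ^ d := by
      have : ((v.1 ^ d * w.2 ^ d : ℕ) : ℤ) = (v.1 : ℤ) ^ d * (w.2 : ℤ) ^ d := by push_cast; ring
      rw [← this] at h3
      exact Int.natCast_dvd_natCast.1 h3
    rcases hq.dvd_mul.1 h4 with h5 | h5
    · exact Or.inl (hq.dvd_of_dvd_pow h5)
    · exact Or.inr (hq.dvd_of_dvd_pow h5)
  · intro h1
    have h2 : (q : ℤ) ∣ (v.1 : ℤ) ^ d * (w.2 : ℤ) ^ d :=
      Dvd.dvd.mul_left (dvd_pow (Int.natCast_dvd_natCast.2 h1) hd0) _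
    have h3 : (q : ℤ) ∣ (v.2 : ℤ) ^ d * (w.1 : ℤ) ^ d := (dvd_sub_right h2).1 hz
    have h4 : q ∣ v.2 ^ d * w.1 ^ d := by
      have : ((v.2 ^ d * w.1 ^ d : ℕ) : ℤ) = (v.2 : ℤ) ^ d * (w.1 : ℤ) ^ d := by push_cast; ring
      rw [← this] at h3
      exact Int.natCast_dvd_natCast.1 h3
    rcases hq.dvd_mul.1 h4 with h5 | h5
    · exact Or.inl (hq.dvd_of_dvd_pow h5)
    · exact Or.inr (hq.dvd_of_dvd_pow h5)

private theorem dv {d s u l e m w E : ℕ} (S : Su d s u l e m w E) (U : Finset (Fin u))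
    (f : Fin u → ℕ) (hf : ∀ c : Fin u, f c ∈ S.PS c) (q : ℕ) (hq : q.Prime)
    (h : q ∣ ∏ c ∈ U, f c) : ∃ c ∈ U, f c = q := by
  obtain ⟨c, hc, h1⟩ := (Prime.dvd_finsetProd_iff hq.prime f).1 h
  exact ⟨c, hc, ((Nat.prime_dvd_prime_iff_eq hq (S.hPS c c.2 _ (hf c)).1).1 h1).symm⟩

private theorem same {d s u l e m w E : ℕ} (S : Su d s u l e m w E) {c c' : Fin u} {q : ℕ}
    (h : q ∈ S.PS c) (h' : q ∈ S.PS c') : c = c' := by
  by_contra h4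
  have h5 : (c : ℕ) ≠ (c' : ℕ) := fun h6 => h4 (Fin.ext h6)
  exact (Finset.disjoint_left.1 (S.hPd _ _ c.2 c'.2 h5) h) h'

private theorem cop {d s u l e m w E : ℕ} (S : Su d s u l e m w E) (A : Finset (Fin u))
    (K : Finset (Fin u ⊕ Fin u)) (x y : (Fin u → ℕ) × (Fin u → ℕ)) (hx : x ∈ S.Cl A)
    (hy : y ∈ S.Cl A) (hdiff : ∀ c ∈ FA A \ K, ka c x ≠ ka c y) :
    Nat.Coprime (ddn d (zb A K x) (zb A K y)) ((zb A K y).1 * (zb A K y).2) := by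
  obtain ⟨x1, x2, x3⟩ := (cl_mem S A x).1 hx
  obtain ⟨y1, y2, y3⟩ := (cl_mem S A y).1 hy
  have hd : 1 ≤ d := le_trans (by norm_num) S.hd
  by_contra hcon
  obtain ⟨q, hq, h1, h2⟩ := Nat.Prime.not_coprime_iff_dvd.1 hcon
  obtain ⟨k1, k2⟩ := ddn_dvd hd hq _ _ h1
  rcases hq.dvd_mul.1 h2 with h3 | h3
  · obtain ⟨c, hc, hcq⟩ := dv S (U1 K) y.1 y1 q hq h3
    rcases k1 h3 with h4 | h4
    · obtain ⟨c', hc', hcq'⟩ := dv S (U1 K) x.1 x1 q hq h4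
      have hcc : c' = c := same S (q := q) (by rw [← hcq']; exact x1 c') (by rw [← hcq]; exact y1 c)
      subst hcc
      exact hdiff (Sum.inl c') (by
        rw [mem_sdiff]
        exact ⟨mem_FA_inl A c', mem_U1.1 hc⟩) (hcq'.trans hcq.symm)
    · obtain ⟨c', hc', hcq'⟩ := dv S (U2 A K) y.2 y2 q hq h4
      have hcc : c' = c := same S (q := q) (by rw [← hcq']; exact y2 c') (by rw [← hcq]; exact y1 c)
      subst hcc
      exact (mem_U2.1 hc').1 ((y3 c').1 (hcq.trans hcq'.symm))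
  · obtain ⟨c, hc, hcq⟩ := dv S (U2 A K) y.2 y2 q hq h3
    rcases k2 h3 with h4 | h4
    · obtain ⟨c', hc', hcq'⟩ := dv S (U2 A K) x.2 x2 q hq h4
      have hcc : c' = c := same S (q := q) (by rw [← hcq']; exact x2 c') (by rw [← hcq]; exact y2 c)
      subst hcc
      exact hdiff (Sum.inr c') (by
        rw [mem_sdiff]
        exact ⟨(mem_FA_inr A c').2 (mem_U2.1 hc).1, (mem_U2.1 hc).2⟩) (hcq'.trans hcq.symm)
    · obtain ⟨c', hc', hcq'⟩ := dv S (U1 K) y.1 y1 q hq h4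
      have hcc : c' = c := same S (q := q) (by rw [← hcq']; exact y1 c') (by rw [← hcq]; exact y2 c)
      subst hcc
      exact (mem_U2.1 hc).1 ((y3 c').1 (hcq'.trans hcq.symm))

private theorem prod_ge {d s u l e m w E : ℕ} (S : Su d s u l e m w E) (U : Finset (Fin u))
    (f : Fin u → ℕ) (hf : ∀ c : Fin u, f c ∈ S.PS c) : S.W ^ U.card ≤ ∏ c ∈ U, f c := by
  calc S.W ^ U.card = ∏ _c ∈ U, S.W := by rw [prod_const]
    _ ≤ ∏ c ∈ U, f c := prod_le_prod' fun c _ => (S.hPS c c.2 _ (hf c)).2.1.le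

private theorem prod_le {d s u l e m w E : ℕ} (S : Su d s u l e m w E) (U : Finset (Fin u))
    (f : Fin u → ℕ) (hf : ∀ c : Fin u, f c ∈ S.PS c) :
    ∏ c ∈ U, f c ≤ 4 ^ u * S.W ^ U.card := by
  have hU : U.card ≤ u := by
    have h := card_le_univ U
    rwa [Fintype.card_fin] at h
  calc ∏ c ∈ U, f c ≤ ∏ _c ∈ U, (4 * S.W) :=
        prod_le_prod' fun c _ => (S.hPS c c.2 _ (hf c)).2.2
    _ = 4 ^ U.card * S.W ^ U.card := by rw [prod_const, mul_pow]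
    _ ≤ 4 ^ u * S.W ^ U.card := Nat.mul_le_mul_right _ (Nat.pow_le_pow_right (by norm_num) hU)

private theorem prod_le_B {d s u l e m w E : ℕ} (S : Su d s u l e m w E) (U : Finset (Fin u))
    (f : Fin u → ℕ) (hf : ∀ c : Fin u, f c ∈ S.PS c) : ∏ c ∈ U, f c ≤ S.B := by
  have hU : U.card ≤ u := by
    have h := card_le_univ U
    rwa [Fintype.card_fin] at h
  refine le_trans (prod_le S U f hf) ?_
  rw [S.B_eq]
  calc 4 ^ u * S.W ^ U.card ≤ 4 ^ u * S.W ^ u :=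
        Nat.mul_le_mul_left _ (Nat.pow_le_pow_right S.W_pos hU)
    _ = 4 ^ u * S.W ^ u * 1 := (mul_one _).symm
    _ ≤ 4 ^ u * S.W ^ u * S.T := Nat.mul_le_mul_left _ S.T_pos

private theorem ddn_le (d B : ℕ) (hB : 1 ≤ B) (v w : ℕ × ℕ) (h1 : v.1 ≤ B) (h2 : v.2 ≤ B)
    (h3 : w.1 ≤ B) (h4 : w.2 ≤ B) : ddn d v w ≤ B ^ (8 * d) := by
  have e1 : v.1 ^ d * w.2 ^ d ≤ B ^ (8 * d) := by
    calc v.1 ^ d * w.2 ^ d ≤ B ^ d * B ^ d :=
          Nat.mul_le_mul (Nat.pow_le_pow_left h1 d) (Nat.pow_le_pow_left h4 d)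
      _ = B ^ (d + d) := (pow_add _ _ _).symm
      _ ≤ B ^ (8 * d) := Nat.pow_le_pow_right hB (by omega)
  have e2 : v.2 ^ d * w.1 ^ d ≤ B ^ (8 * d) := by
    calc v.2 ^ d * w.1 ^ d ≤ B ^ d * B ^ d :=
          Nat.mul_le_mul (Nat.pow_le_pow_left h2 d) (Nat.pow_le_pow_left h3 d)
      _ = B ^ (d + d) := (pow_add _ _ _).symm
      _ ≤ B ^ (8 * d) := Nat.pow_le_pow_right hB (by omega)
  have e1' : ((v.1 : ℤ) ^ d * (w.2 : ℤ) ^ d) ≤ ((B ^ (8 * d) : ℕ) : ℤ) := by exact_mod_cast e1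
  have e2' : ((v.2 : ℤ) ^ d * (w.1 : ℤ) ^ d) ≤ ((B ^ (8 * d) : ℕ) : ℤ) := by exact_mod_cast e2
  have p1 : (0 : ℤ) ≤ (v.1 : ℤ) ^ d * (w.2 : ℤ) ^ d := by positivity
  have p2 : (0 : ℤ) ≤ (v.2 : ℤ) ^ d * (w.1 : ℤ) ^ d := by positivity
  unfold ddn
  omega

private theorem zb_pos {d s u l e m w E : ℕ} (S : Su d s u l e m w E) (A : Finset (Fin u))
    (K : Finset (Fin u ⊕ Fin u)) (z : (Fin u → ℕ) × (Fin u → ℕ)) (hz : z ∈ S.Cl A) :
    1 ≤ (zb A K z).1 ∧ 1 ≤ (zb A K z).2 := by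
  obtain ⟨z1, z2, -⟩ := (cl_mem S A z).1 hz
  exact ⟨le_trans (Nat.one_le_pow _ _ S.W_pos) (prod_ge S (U1 K) z.1 z1),
    le_trans (Nat.one_le_pow _ _ S.W_pos) (prod_ge S (U2 A K) z.2 z2)⟩

/-- elements of a cell outside of which they differ -/
private theorem ne_of {u : ℕ} {A : Finset (Fin u)} {K : Finset (Fin u ⊕ Fin u)} (hK : K ⊆ FA A)
    (hne : K ≠ FA A) {x y : (Fin u → ℕ) × (Fin u → ℕ)}
    (hd : ∀ c ∈ FA A \ K, ka c x ≠ ka c y) : x ≠ y := by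
  rintro rfl
  obtain ⟨c, hc, hc'⟩ := exists_of_ssubset (hK.ssubset_of_ne hne)
  exact hd c (mem_sdiff.2 ⟨hc, hc'⟩) rfl

open Classical in
theorem base1_few {d s u l e m w E : ℕ} (S : Su d s u l e m w E) (t t' : ℕ) (ht : t ∈ S.I)
    (ht' : t' ∈ S.I) (A : Finset (Fin u)) (K : Finset (Fin u ⊕ Fin u)) (hK : K ⊆ FA A)
    (hth : thA A ⊆ K) (hne : K ≠ FA A) (w0 v0 : (Fin u → ℕ) × (Fin u → ℕ)) (hw : w0 ∈ S.Cl A)
    (hv : v0 ∈ dcell ka (S.Cl A) (FA A) K w0) (N : ℕ) (hN : 1 ≤ N)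
    (hN' : 2 * 4 ^ u * N ≤ S.W ^ ((d - 1) * ((FA A).card - K.card))) :
    ((dcell ka (S.Cl A) (FA A) K w0).filter fun o0 =>
      Bad d N (pr t t' w0) (pr t t' v0) (pr t t' o0)).card ≤ S.R * S.R := by
  have hd : 1 ≤ d := le_trans (by norm_num) S.hd
  obtain ⟨c1, c2, hc1, hc2, hfac⟩ := cl_factor S t t' ht ht' A K hth w0 hw
  have hmem : ∀ z ∈ dcell ka (S.Cl A) (FA A) K w0, z ∈ S.Cl A ∧ (∀ c ∈ K, ka c z = ka c w0) ∧
      ∀ c ∈ FA A \ K, ka c z ≠ ka c w0 := by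
    intro z hz
    exact (mem_dcell' ka (S.Cl A) (FA A) K w0 z).1 hz
  have hcellw : w0 ∈ cell ka (S.Cl A) K w0 := by
    exact (mem_cell' ka (S.Cl A) K w0 w0).2 ⟨hw, fun c _ => rfl⟩
  have hcell : ∀ z ∈ dcell ka (S.Cl A) (FA A) K w0, z ∈ cell ka (S.Cl A) K w0 := by
    intro z hz
    obtain ⟨h1, h2, -⟩ := hmem z hz
    exact (mem_cell' ka (S.Cl A) K w0 z).2 ⟨h1, h2⟩
  have hpr : ∀ z ∈ cell ka (S.Cl A) K w0, pr t t' z = (c1 * (zb A K z).1, c2 * (zb A K z).2) :=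
    fun z hz => hfac z hz
  have hbad : ∀ o ∈ dcell ka (S.Cl A) (FA A) K w0, Bad d N (pr t t' w0) (pr t t' v0) (pr t t' o) →
      Bad d N (zb A K w0) (zb A K v0) (zb A K o) := by
    intro o ho h
    rw [hpr w0 hcellw, hpr v0 (hcell v0 hv), hpr o (hcell o ho)] at h
    exact (bad_scale d N c1 c2 hc1 hc2 _ _ _).1 h
  have hinj : ∀ x ∈ cell ka (S.Cl A) K w0, ∀ y ∈ cell ka (S.Cl A) K w0, zb A K x = zb A K y →
      x = y := by
    intro x hx y hy h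
    have hx' : x ∈ S.Cl A := ((mem_cell' ka (S.Cl A) K w0 x).1 hx).1
    have hy' : y ∈ S.Cl A := ((mem_cell' ka (S.Cl A) K w0 y).1 hy).1
    refine cl_inj S t t' ht ht' A hx' hy' ?_
    rw [hpr x hx, hpr y hy, h]
  -- the determinants
  have hdet : ∀ x ∈ cell ka (S.Cl A) K w0, ∀ y ∈ cell ka (S.Cl A) K w0, x ≠ y →
      (zb A K x).1 * (zb A K y).2 ≠ (zb A K x).2 * (zb A K y).1 := by
    intro x hx y hy hxy h
    have hx' := (mem_cell' ka (S.Cl A) K w0 x).1 hx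
    have hy' := (mem_cell' ka (S.Cl A) K w0 y).1 hy
    refine cl_star S t t' ht ht' A x y hx'.1 hy'.1 hxy ?_ ?_
    · intro c hc
      have h1 : Sum.inl c ∈ K := hth ((mem_thA_inl A c).2 hc)
      exact (hx'.2 _ h1).trans (hy'.2 _ h1).symm
    · rw [hpr x hx, hpr y hy]
      calc c1 * (zb A K x).1 * (c2 * (zb A K y).2) = c1 * c2 * ((zb A K x).1 * (zb A K y).2) := by
            ring
        _ = c1 * c2 * ((zb A K x).2 * (zb A K y).1) := by rw [h]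
        _ = c1 * (zb A K y).1 * (c2 * (zb A K x).2) := by ring
  obtain ⟨hv1, hv2, hv3⟩ := hmem v0 hv
  obtain ⟨w1, w2, -⟩ := (cl_mem S A w0).1 hw
  obtain ⟨v1, v2, -⟩ := (cl_mem S A v0).1 hv1
  set O : Finset (ℕ × ℕ) := ((dcell ka (S.Cl A) (FA A) K w0).filter fun o0 =>
      Bad d N (pr t t' w0) (pr t t' v0) (pr t t' o0)).image (zb A K) with hO
  have hcard : ((dcell ka (S.Cl A) (FA A) K w0).filter fun o0 =>
      Bad d N (pr t t' w0) (pr t t' v0) (pr t t' o0)).card = O.card := by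
    rw [hO, card_image_of_injOn]
    intro x hx y hy h
    exact hinj x (hcell x (mem_filter.1 hx).1) y (hcell y (mem_filter.1 hy).1) h
  have hOm : ∀ o ∈ O, ∃ z ∈ dcell ka (S.Cl A) (FA A) K w0,
      Bad d N (pr t t' w0) (pr t t' v0) (pr t t' z) ∧ zb A K z = o := by
    intro o ho
    obtain ⟨z, hz, rfl⟩ := mem_image.1 ho
    exact ⟨z, (mem_filter.1 hz).1, (mem_filter.1 hz).2, rfl⟩
  have hvw0 : ddn d (zb A K v0) (zb A K w0) ≠ 0 :=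
    ddn_ne_zero d hd _ _ (hdet v0 (hcell v0 hv) w0 hcellw (ne_of hK hne hv3))
  have hle : ddn d (zb A K v0) (zb A K w0) ≤ S.B ^ (8 * d) :=
    ddn_le d S.B S.B_pos _ _ (prod_le_B S (U1 K) v0.1 v1) (prod_le_B S (U2 A K) v0.2 v2)
      (prod_le_B S (U1 K) w0.1 w1) (prod_le_B S (U2 A K) w0.2 w2)
  rw [hcard]
  refine tri_count d (4 ^ u) (S.W ^ ((FA A).card - K.card)) N S.R hd hN (zb A K w0) (zb A K v0) O
    (zb_pos S A K w0 hw) hvw0 ?_ (cop S A K v0 w0 hv1 hw hv3) ?_ ?_ ?_ ?_ ?_ ?_ ?_ ?_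
  · intro o ho
    obtain ⟨z, hz, -, rfl⟩ := hOm o ho
    exact zb_pos S A K z (hmem z hz).1
  · intro o ho
    obtain ⟨z, hz, -, rfl⟩ := hOm o ho
    rw [ddn_comm]
    exact cop S A K w0 z hw (hmem z hz).1 (fun c hc h => (hmem z hz).2.2 c hc h.symm)
  · intro o ho
    obtain ⟨z, hz, -, rfl⟩ := hOm o ho
    obtain ⟨z1, z2, -⟩ := (cl_mem S A z).1 (hmem z hz).1
    exact le_trans (prod_le S (U1 K) z.1 z1) (Nat.mul_le_mul_left _ (prod_ge S (U1 K) w0.1 w1))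
  · intro o ho
    obtain ⟨z, hz, -, rfl⟩ := hOm o ho
    obtain ⟨z1, z2, -⟩ := (cl_mem S A z).1 (hmem z hz).1
    refine le_trans ?_ (le_max_left _ _)
    rw [← card_U A K hK, pow_add]
    exact Nat.mul_le_mul (prod_ge S (U1 K) z.1 z1) (prod_ge S (U2 A K) w0.2 w2)
  · rw [← pow_mul, Nat.mul_comm ((FA A).card - K.card) (d - 1)]
    exact hN'
  · intro o ho
    obtain ⟨z, hz, hb, rfl⟩ := hOm o ho
    exact hbad z hz hb
  · intro o ho o' ho' hoo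
    obtain ⟨z, hz, -, rfl⟩ := hOm o ho
    obtain ⟨z', hz', -, rfl⟩ := hOm o' ho'
    exact hdet z (hcell z hz) z' (hcell z' hz') (fun h => hoo (by rw [h]))
  · exact S.tau_le _ (Nat.one_le_iff_ne_zero.2 hvw0) hle
  · intro r hr
    exact S.rho_le r (Nat.pos_of_dvd_of_pos hr (Nat.pos_of_ne_zero hvw0))
      (le_trans (Nat.le_of_dvd (Nat.pos_of_ne_zero hvw0) hr) hle)

open Classical in
theorem base1_ind {d s u l e m w E : ℕ} (S : Su d s u l e m w E) (t t' : ℕ) (ht : t ∈ S.I)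
    (ht' : t' ∈ S.I) (A : Finset (Fin u)) (K : Finset (Fin u ⊕ Fin u)) (hK : K ⊆ FA A)
    (hth : thA A ⊆ K) (hne : K ≠ FA A) (w0 v0 o0 : (Fin u → ℕ) × (Fin u → ℕ)) (hw : w0 ∈ S.Cl A)
    (hv : v0 ∈ dcell ka (S.Cl A) (FA A) K w0) (ho : o0 ∈ dcell ka (S.Cl A) (FA A) K w0)
    (hvo : v0 ≠ o0) (N : ℕ) (hN : 1 ≤ N) (hNW : N ≤ S.W ^ (d * l))
    (hb : ¬ Bad d N (pr t t' w0) (pr t t' v0) (pr t t' o0)) :
    IndM d S.H (S.W ^ (d * l) * S.W ^ (d * l) * N)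
      (({w0, v0, o0} : Finset ((Fin u → ℕ) × (Fin u → ℕ))).image (pr t t')) := by
  have hd : 1 ≤ d := le_trans (by norm_num) S.hd
  have hv' := (mem_dcell' ka (S.Cl A) (FA A) K w0 v0).1 hv
  have ho' := (mem_dcell' ka (S.Cl A) (FA A) K w0 o0).1 ho
  have hag : ∀ x ∈ dcell ka (S.Cl A) (FA A) K w0, ∀ c ∈ A, x.1 c = w0.1 c := by
    intro x hx c hc
    exact ((mem_dcell' ka (S.Cl A) (FA A) K w0 x).1 hx).2.1 (Sum.inl c)
      (hth ((mem_thA_inl A c).2 hc))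
  have hvw : (pr t t' v0).1 * (pr t t' w0).2 ≠ (pr t t' v0).2 * (pr t t' w0).1 := by
    have h := cl_star S t t' ht ht' A v0 w0 hv'.1 hw (ne_of hK hne hv'.2.2) (hag v0 hv)
    rw [Nat.mul_comm (pr t t' v0).2]
    exact h
  have how : (pr t t' o0).1 * (pr t t' w0).2 ≠ (pr t t' o0).2 * (pr t t' w0).1 := by
    have h := cl_star S t t' ht ht' A o0 w0 ho'.1 hw (ne_of hK hne ho'.2.2) (hag o0 ho)
    rw [Nat.mul_comm (pr t t' o0).2]
    exact h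
  have hvo' : pr t t' v0 ≠ pr t t' o0 := fun h => hvo (cl_inj S t t' ht ht' A hv'.1 ho'.1 h)
  have hw1 : 1 ≤ (pr t t' w0).1 := (cl_bound S t ht w0.1 ((cl_mem S A w0).1 hw).1).1
  have hW1 : 1 ≤ S.W ^ (d * l) := Nat.one_le_pow _ _ S.W_pos
  rw [image_insert, image_insert, image_singleton]
  exact indM_tri d S.H (S.W ^ (d * l)) N _ _ _ hw1 (ddn_ne_zero d hd _ _ hvw)
    (ddn_ne_zero d hd _ _ how) hvo' hW1 S.H_ge' hN (le_trans hNW S.H_ge') hb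

end Pool.Agent.Lib.MP_e426f4_ag.DL
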