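import Pool.Agent.Lib.MP_e426f4_ag.DL.ClC
import Pool.Agent.Lib.MP_e426f4_ag.DL.IndT

/-!
# Base2: a pair of base elements

(a) there is `c ∉ A` with `inl c ∉ K` or `inr c ∉ K`: then `w₁ v₂ ≠ w₂ v₁` (for `inl c`: the prime `q = w.1 c` divides `w₁`, but not `v₁` as
`v.1 c ≠ w.1 c`, and not `w₂` as `w.2 c ≠ w.1 c`; `cl_ndvd`; for `inr c` exchange the components), so `indM_pair'` gives
`W^(d l) W^(d l) ≥ W^(d l) W^(d min(l, δ))` (`IndM` is monotone in `M`).
(b) otherwise `FA A \ K ⊆ thA A`: with `U = {c ∈ A : inl c ∉ K}`, `#U = δ = #FA - #K`, `x = ∏_{c ∈ U} w.1 c`, `y = ∏_{c ∈ U} v.1 c`: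
`w₁ = c x`, `v₁ = c y`, `x, y` coprime, `y^d ≥ W^(d δ)`: `indM_prop` with `N = W^(d l)`, `N' = W^(d min(l, δ))`.
`N, N' ≤ H` by `H_ge'`.
-/

set_option autoImplicit false

namespace Pool.Agent.Lib.MP_e426f4_ag.DL

open Finset
open Pool.Agent.Lib.MP_e426f4_ag.DG
open Pool.Agent.Lib.MP_e426f4_ag.DK

private theorem base2_mono {d H M M' : ℕ} {Z : Finset (ℕ × ℕ)} (h : IndM d H M Z) (hM : M' ≤ M) :
    IndM d H M' Z := by
  obtain ⟨D, h1, h2, h3⟩ := h
  exact ⟨D, h1, hM.trans h2, h3⟩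

private theorem base2_mem {α C : Type} [DecidableEq C] (k : C → α → ℕ) (Z : Finset α)
    (F K : Finset C) (w z : α) (h : z ∈ dcell k Z F K w) :
    z ∈ Z ∧ (∀ c ∈ K, k c z = k c w) ∧ ∀ c ∈ F \ K, k c z ≠ k c w := by
  unfold dcell at h
  rw [mem_filter] at h
  exact h

open Classical in
theorem base2_ind {d s u l e m w E : ℕ} (S : Su d s u l e m w E) (t t' : ℕ) (ht : t ∈ S.I)
    (ht' : t' ∈ S.I) (A : Finset (Fin u)) (K : Finset (Fin u ⊕ Fin u)) (hK : K ⊆ FA A)
    (hne : K ≠ FA A) (w0 v0 : (Fin u → ℕ) × (Fin u → ℕ)) (hw : w0 ∈ S.Cl A)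
    (hv : v0 ∈ dcell ka (S.Cl A) (FA A) K w0) :
    IndM d S.H (S.W ^ (d * l) * S.W ^ (d * min l ((FA A).card - K.card)))
      (({w0, v0} : Finset ((Fin u → ℕ) × (Fin u → ℕ))).image (pr t t')) := by
  obtain ⟨w1, w2, w3⟩ := (cl_mem S A w0).1 hw
  obtain ⟨hvC, hvK, hvN⟩ := base2_mem ka (S.Cl A) (FA A) K w0 v0 hv
  obtain ⟨v1, v2, v3⟩ := (cl_mem S A v0).1 hvC
  have hW := S.W_pos
  have hd1 : 1 ≤ d := by
    have := S.hd
    omega
  have hprime : ∀ (q : ℕ) (c : Fin u), q ∈ S.PS c → q.Prime := fun q c hq =>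
    (S.hPS c c.2 q hq).1
  rw [image_insert, image_singleton]
  by_cases hcase : ∃ c : Fin u, c ∉ A ∧ (Sum.inl c ∉ K ∨ Sum.inr c ∉ K)
  · obtain ⟨c, hcA, hc⟩ := hcase
    have hne12 : w0.1 c ≠ w0.2 c := fun h => hcA ((w3 c).1 h)
    have hzy : (pr t t' w0).1 * (pr t t' v0).2 ≠ (pr t t' w0).2 * (pr t t' v0).1 := by
      intro h
      rcases hc with hc | hc
      · -- the prime `w0.1 c`
        have hd := cl_dvd t t' w0 (Sum.inl c)
        have h1 := cl_ndvd S t t' ht ht' A w0 hw (Sum.inr c) (w0.1 c) (w1 c) (Ne.symm hne12)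
        have h2 := cl_ndvd S t t' ht ht' A v0 hvC (Sum.inl c) (w0.1 c) (w1 c)
          (hvN (Sum.inl c) (mem_sdiff.2 ⟨mem_FA_inl A c, hc⟩))
        have hd' : w0.1 c ∣ (pr t t' w0).1 := hd
        have h1' : ¬ w0.1 c ∣ (pr t t' w0).2 := h1
        have h2' : ¬ w0.1 c ∣ (pr t t' v0).1 := h2
        have h3 : w0.1 c ∣ (pr t t' w0).2 * (pr t t' v0).1 := by
          rw [← h]
          exact Dvd.dvd.mul_right hd' _
        rcases (hprime _ c (w1 c)).dvd_mul.1 h3 with h4 | h4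
        · exact h1' h4
        · exact h2' h4
      · have hd := cl_dvd t t' w0 (Sum.inr c)
        have h1 := cl_ndvd S t t' ht ht' A w0 hw (Sum.inl c) (w0.2 c) (w2 c) hne12
        have h2 := cl_ndvd S t t' ht ht' A v0 hvC (Sum.inr c) (w0.2 c) (w2 c)
          (hvN (Sum.inr c) (mem_sdiff.2 ⟨(mem_FA_inr A c).2 hcA, hc⟩))
        have hd' : w0.2 c ∣ (pr t t' w0).2 := hd
        have h1' : ¬ w0.2 c ∣ (pr t t' w0).1 := h1
        have h2' : ¬ w0.2 c ∣ (pr t t' v0).2 := h2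
        have h3 : w0.2 c ∣ (pr t t' w0).1 * (pr t t' v0).2 := by
          rw [h]
          exact Dvd.dvd.mul_right hd' _
        rcases (hprime _ c (w2 c)).dvd_mul.1 h3 with h4 | h4
        · exact h1' h4
        · exact h2' h4
    refine base2_mono (indM_pair' d S.H (S.W ^ (d * l)) hd1 (pr t t' w0) (pr t t' v0) hzy
      (Nat.one_le_pow _ _ hW) S.H_ge') ?_
    exact Nat.mul_le_mul_left _ (Nat.pow_le_pow_right hW (Nat.mul_le_mul_left _ (min_le_left _ _)))
  · have hall : ∀ c : Fin u, c ∉ A → Sum.inl c ∈ K ∧ Sum.inr c ∈ K := by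
      intro c hc
      by_contra hcon
      apply hcase
      refine ⟨c, hc, ?_⟩
      by_contra h2
      push Not at h2
      exact hcon h2
    set U : Finset (Fin u) := univ.filter fun c : Fin u => Sum.inl c ∉ K with hU
    have hUim : FA A \ K = U.image Sum.inl := by
      ext c
      rw [mem_sdiff, mem_image]
      constructor
      · rintro ⟨h1, h2⟩
        rcases c with c | c
        · exact ⟨c, by rw [hU, mem_filter]; exact ⟨mem_univ _, h2⟩, rfl⟩
        · exact absurd (hall c ((mem_FA_inr A c).1 h1)).2 h2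
      · rintro ⟨c', h1, rfl⟩
        rw [hU, mem_filter] at h1
        exact ⟨mem_FA_inl A c', h1.2⟩
    have hUcard : U.card = (FA A).card - K.card := by
      rw [← card_sdiff_of_subset hK, hUim, card_image_of_injective _ Sum.inl_injective]
    -- the two differ
    have hwv : w0 ≠ v0 := by
      rintro rfl
      apply hne
      apply Subset.antisymm hK
      intro c hc
      by_contra h
      exact hvN c (mem_sdiff.2 ⟨hc, h⟩) rfl
    have hUne : ∀ c ∈ U, v0.1 c ≠ w0.1 c := by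
      intro c hc
      rw [hU, mem_filter] at hc
      exact hvN (Sum.inl c) (mem_sdiff.2 ⟨mem_FA_inl A c, hc.2⟩)
    have hUc : ∀ c ∈ Uᶜ, v0.1 c = w0.1 c := by
      intro c hc
      rw [mem_compl, hU, mem_filter, not_and, not_not] at hc
      exact hvK (Sum.inl c) (hc (mem_univ _))
    set c0 : ℕ := t * ∏ c ∈ Uᶜ, w0.1 c with hc0
    set x : ℕ := ∏ c ∈ U, w0.1 c with hx
    set y : ℕ := ∏ c ∈ U, v0.1 c with hy
    obtain ⟨k1, -, -⟩ := (S.I_mem t).1 ht
    have hpos : ∀ (v : Fin u → ℕ), (∀ c : Fin u, v c ∈ S.PS c) → ∀ V : Finset (Fin u),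
        1 ≤ ∏ c ∈ V, v c := by
      intro v hv V
      exact Finset.one_le_prod' fun c _ => (hprime _ c (hv c)).one_lt.le
    have hc01 : 1 ≤ c0 := Nat.mul_pos k1 (hpos _ w1 _)
    have hx1 : 1 ≤ x := hpos _ w1 _
    have hy1 : 1 ≤ y := hpos _ v1 _
    have hwe : (pr t t' w0).1 = c0 * x := by
      show t * ∏ c, w0.1 c = c0 * x
      rw [hc0, hx, mul_assoc, mul_comm (∏ c ∈ Uᶜ, w0.1 c), prod_mul_prod_compl]
    have hve : (pr t t' v0).1 = c0 * y := by
      show t * ∏ c, v0.1 c = c0 * y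
      rw [hc0, hy, mul_assoc, mul_comm (∏ c ∈ Uᶜ, w0.1 c), ← prod_congr rfl hUc,
        prod_mul_prod_compl]
    have hcop : Nat.Coprime x y := by
      rw [hx, hy]
      refine Nat.Coprime.prod_left fun c hc => Nat.Coprime.prod_right fun c' hc' => ?_
      rw [Nat.coprime_primes (hprime _ c (w1 c)) (hprime _ c' (v1 c'))]
      intro h
      by_cases hcc : c = c'
      · subst hcc
        exact hUne c hc h.symm
      · have h5 : (c : ℕ) ≠ (c' : ℕ) := fun h6 => hcc (Fin.ext h6)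
        have h6 := v1 c'
        rw [← h] at h6
        exact (Finset.disjoint_left.1 (S.hPd _ _ c.2 c'.2 h5) (w1 c)) h6
    have hyW : S.W ^ (d * min l ((FA A).card - K.card)) ≤ y ^ d := by
      calc S.W ^ (d * min l ((FA A).card - K.card)) ≤ S.W ^ (d * U.card) := by
            apply Nat.pow_le_pow_right hW
            rw [hUcard]
            exact Nat.mul_le_mul_left _ (min_le_right _ _)
        _ = (S.W ^ U.card) ^ d := by rw [← pow_mul, mul_comm d]
        _ ≤ y ^ d := by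
            apply Nat.pow_le_pow_left
            rw [hy, ← prod_const]
            exact prod_le_prod' fun c _ => (S.hPS c c.2 _ (v1 c)).2.1.le
    have hpne : pr t t' w0 ≠ pr t t' v0 := fun h => hwv (cl_inj S t t' ht ht' A hw hvC h)
    have e1 : pr t t' w0 = (c0 * x, (pr t t' w0).2) := Prod.ext hwe rfl
    have e2 : pr t t' v0 = (c0 * y, (pr t t' v0).2) := Prod.ext hve rfl
    have hfin := indM_prop d S.H (S.W ^ (d * l)) (S.W ^ (d * min l ((FA A).card - K.card))) c0 x y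
      (pr t t' w0).2 (pr t t' v0).2 hc01 hx1 hy1 hcop (by rw [← e1, ← e2]; exact hpne)
      (Nat.one_le_pow _ _ hW) S.H_ge' (Nat.one_le_pow _ _ hW)
      (le_trans (Nat.pow_le_pow_right hW (Nat.mul_le_mul_left _ (min_le_left _ _))) S.H_ge') hyW
    rw [← e1, ← e2] at hfin
    exact hfin

end Pool.Agent.Lib.MP_e426f4_ag.DL
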