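import Pool.Agent.Lib.MP_e426f4_ag.DL.Defs

/-!
# Chain: the chain of closed sets of a regular element

Write `n(K) = |cell K w|`, `n(∅) = |Z|`, `n(F) = 1` (`hinj`), `m ≥ 2 #F`.
Closure: every `K ⊆ F` is contained in some `K' ⊆ F` with `n(K) ≤ m^(#K' - #K) n(K')` which is closed, that is
`m n(insert c K') < n(K')` for all `c ∈ F \ K'` (strong induction on `#F - #K`: if `K` is not closed add such a `c`); for a closed `K'` the
number of elements of `cell K' w` which agree with `w` at some `c ∈ F \ K'` is at most `#F n(K') / m ≤ n(K') / 2`, so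
`n(K') ≤ 2 |dcell K' w|`.
Chain: `K 0` = closure of `∅`, `K (i+1)` = closure of `insert c (K i)` where `c ∈ F \ K i` is chosen in `th` if `th ⊄ K i`.
By induction for `i ≤ j`: `|Z| ≤ G^i p^i m^#(K i) n(K i)` and `#(th \ K i) ≤ #th - i`; `K i ≠ F` for `i ≤ j` by `hbig` and `n(F) = 1`
(so the next step is possible).
-/

set_option autoImplicit false

namespace Pool.Agent.Lib.MP_e426f4_ag.DL

open Finset

/-- closed sets -/
private def ChCl {α C : Type} [DecidableEq C] (ka : C → α → ℕ) (Z : Finset α) (F : Finset C)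
    (m : ℕ) (w : α) (K : Finset C) : Prop :=
  ∀ c ∈ F \ K, m * (cell ka Z (insert c K) w).card < (cell ka Z K w).card

private theorem ch_closure {α C : Type} [DecidableEq α] [DecidableEq C] (ka : C → α → ℕ)
    (Z : Finset α) (F : Finset C) (m : ℕ) (w : α) : ∀ (N : ℕ) (K : Finset C), K ⊆ F →
      F.card - K.card ≤ N → ∃ K' : Finset C, K ⊆ K' ∧ K' ⊆ F ∧ ChCl ka Z F m w K' ∧
        m ^ K.card * (cell ka Z K w).card ≤ m ^ K'.card * (cell ka Z K' w).card := by
  intro N
  induction N with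
  | zero =>
    intro K hK hN
    have hKF : K = F := Finset.eq_of_subset_of_card_le hK (by omega)
    refine ⟨K, Subset.refl _, hK, ?_, le_refl _⟩
    intro c hc
    rw [hKF, Finset.sdiff_self] at hc
    exact absurd hc (Finset.notMem_empty c)
  | succ N ih =>
    intro K hK hN
    by_cases hcl : ChCl ka Z F m w K
    · exact ⟨K, Subset.refl _, hK, hcl, le_refl _⟩
    · unfold ChCl at hcl
      push Not at hcl
      obtain ⟨c, hc, hle⟩ := hcl
      rw [Finset.mem_sdiff] at hc
      have hcard : (insert c K).card = K.card + 1 := Finset.card_insert_of_notMem hc.2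
      have hsub : insert c K ⊆ F := Finset.insert_subset hc.1 hK
      have hcF : (insert c K).card ≤ F.card := Finset.card_le_card hsub
      obtain ⟨K', h1, h2, h3, h4⟩ := ih (insert c K) hsub (by omega)
      refine ⟨K', (Finset.subset_insert c K).trans h1, h2, h3, le_trans ?_ h4⟩
      rw [hcard, pow_succ, mul_assoc]
      exact Nat.mul_le_mul_left _ hle

private theorem ch_half {α C : Type} [DecidableEq α] [DecidableEq C] (ka : C → α → ℕ)
    (Z : Finset α) (F : Finset C) (m : ℕ) (w : α) (hm : 2 * F.card ≤ m) (K : Finset C)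
    (hcl : ChCl ka Z F m w K) :
    (cell ka Z K w).card ≤ 2 * (dcell ka Z F K w).card := by
  have hsub : cell ka Z K w ⊆ dcell ka Z F K w ∪
      (F \ K).biUnion fun c => cell ka Z (insert c K) w := by
    intro z hz
    unfold cell at hz
    rw [Finset.mem_filter] at hz
    rw [Finset.mem_union]
    by_cases h : ∀ c ∈ F \ K, ka c z ≠ ka c w
    · left
      unfold dcell
      rw [Finset.mem_filter]
      exact ⟨hz.1, hz.2, h⟩
    · right
      push Not at h
      obtain ⟨c, hc, he⟩ := h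
      rw [Finset.mem_biUnion]
      refine ⟨c, hc, ?_⟩
      unfold cell
      rw [Finset.mem_filter]
      refine ⟨hz.1, ?_⟩
      intro c' hc'
      rcases Finset.mem_insert.1 hc' with rfl | hc'
      · exact he
      · exact hz.2 c' hc'
  have h1 : (cell ka Z K w).card ≤ (dcell ka Z F K w).card +
      ∑ c ∈ F \ K, (cell ka Z (insert c K) w).card :=
    (Finset.card_le_card hsub).trans ((Finset.card_union_le _ _).trans
      (Nat.add_le_add_left Finset.card_biUnion_le _))
  have h2 : m * ∑ c ∈ F \ K, (cell ka Z (insert c K) w).card ≤ F.card * (cell ka Z K w).card := by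
    rw [Finset.mul_sum]
    calc ∑ c ∈ F \ K, m * (cell ka Z (insert c K) w).card
        ≤ ∑ _c ∈ F \ K, (cell ka Z K w).card := Finset.sum_le_sum fun c hc => (hcl c hc).le
      _ = (F \ K).card * (cell ka Z K w).card := by rw [Finset.sum_const, smul_eq_mul]
      _ ≤ F.card * (cell ka Z K w).card :=
          Nat.mul_le_mul_right _ (Finset.card_le_card Finset.sdiff_subset)
  rcases Nat.eq_zero_or_pos F.card with h0 | h0
  · have hF : F = ∅ := Finset.card_eq_zero.1 h0
    subst hF
    rw [Finset.empty_sdiff, Finset.sum_empty] at h1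
    omega
  · have h3 : 2 * F.card * ∑ c ∈ F \ K, (cell ka Z (insert c K) w).card ≤
        F.card * (cell ka Z K w).card := (Nat.mul_le_mul_right _ hm).trans h2
    have h4 : F.card * (2 * ∑ c ∈ F \ K, (cell ka Z (insert c K) w).card) ≤
        F.card * (cell ka Z K w).card := by
      calc F.card * (2 * ∑ c ∈ F \ K, (cell ka Z (insert c K) w).card)
          = 2 * F.card * ∑ c ∈ F \ K, (cell ka Z (insert c K) w).card := by ring
        _ ≤ _ := h3
    have h5 := Nat.le_of_mul_le_mul_left h4 h0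
    omega

private theorem ch_step {α C : Type} [DecidableEq α] [DecidableEq C] (ka : C → α → ℕ)
    (Z : Finset α) (F th : Finset C) (p G m : ℕ) (w : α) (hth : th ⊆ F) (hm1 : 1 ≤ m)
    (hreg : ∀ K ⊆ F, ∀ c ∈ F, (cell ka Z K w).card ≤ G * p * (cell ka Z (insert c K) w).card)
    (K : Finset C) (hK : K ⊆ F) (hne : K ≠ F) :
    ∃ K' : Finset C, K ⊂ K' ∧ K' ⊆ F ∧ ChCl ka Z F m w K' ∧
      m ^ K.card * (cell ka Z K w).card ≤ G * p * (m ^ K'.card * (cell ka Z K' w).card) ∧
      (th \ K').card ≤ (th \ K).card - 1 := by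
  have hc : ∃ c, c ∈ F ∧ c ∉ K ∧ (th ⊆ K ∨ c ∈ th) := by
    by_cases ht : th ⊆ K
    · obtain ⟨c, hc1, hc2⟩ := Finset.exists_of_ssubset (Finset.ssubset_iff_subset_ne.2 ⟨hK, hne⟩)
      exact ⟨c, hc1, hc2, Or.inl ht⟩
    · obtain ⟨c, hc1, hc2⟩ := Finset.not_subset.1 ht
      exact ⟨c, hth hc1, hc2, Or.inr hc1⟩
  obtain ⟨c, hcF, hcK, hct⟩ := hc
  have hsub : insert c K ⊆ F := Finset.insert_subset hcF hK
  obtain ⟨K', h1, h2, h3, h4⟩ := ch_closure ka Z F m w _ (insert c K) hsub (le_refl _)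
  refine ⟨K', (Finset.ssubset_insert hcK).trans_subset h1, h2, h3, ?_, ?_⟩
  · have hcard : (insert c K).card = K.card + 1 := Finset.card_insert_of_notMem hcK
    rw [hcard] at h4
    calc m ^ K.card * (cell ka Z K w).card
        ≤ m ^ K.card * (G * p * (cell ka Z (insert c K) w).card) :=
          Nat.mul_le_mul_left _ (hreg K hK c hcF)
      _ = G * p * (m ^ K.card * (cell ka Z (insert c K) w).card) := by ring
      _ ≤ G * p * (m ^ (K.card + 1) * (cell ka Z (insert c K) w).card) :=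
          Nat.mul_le_mul_left _ (Nat.mul_le_mul_right _ (Nat.pow_le_pow_right hm1 (by omega)))
      _ ≤ G * p * (m ^ K'.card * (cell ka Z K' w).card) := Nat.mul_le_mul_left _ h4
  · rcases hct with ht | ht
    · have h5 : th \ K' = ∅ := by
        rw [Finset.sdiff_eq_empty_iff_subset]
        exact ht.trans ((Finset.subset_insert c K).trans h1)
      rw [h5]
      simp
    · have h5 : th \ K' ⊂ th \ K := by
        refine Finset.ssubset_iff_subset_ne.2 ⟨?_, ?_⟩
        · exact Finset.sdiff_subset_sdiff (Subset.refl _) ((Finset.subset_insert c K).trans h1)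
        · intro he
          have h6 : c ∈ th \ K := Finset.mem_sdiff.2 ⟨ht, hcK⟩
          rw [← he, Finset.mem_sdiff] at h6
          exact h6.2 (h1 (Finset.mem_insert_self c K))
      have := Finset.card_lt_card h5
      omega

theorem chain {α C : Type} [DecidableEq α] [DecidableEq C] (ka : C → α → ℕ) (Z : Finset α)
    (F th : Finset C) (p G m j : ℕ) (w : α) (hth : th ⊆ F) (hw : w ∈ Z)
    (hinj : ∀ z ∈ Z, (∀ c ∈ F, ka c z = ka c w) → z = w) (hp : 1 ≤ p) (hG : 1 ≤ G) (hm1 : 1 ≤ m)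
    (hm : 2 * F.card ≤ m)
    (hreg : ∀ K ⊆ F, ∀ c ∈ F, (cell ka Z K w).card ≤ G * p * (cell ka Z (insert c K) w).card)
    (hbig : G ^ j * m ^ F.card * p ^ j < Z.card) :
    ∃ K : ℕ → Finset C, IsCh F th j K ∧ ∀ i, i ≤ j →
      Z.card ≤ 2 * G ^ i * m ^ F.card * p ^ i * (dcell ka Z F (K i) w).card := by
  classical
  have hF1 : (cell ka Z F w).card = 1 := by
    rw [Finset.card_eq_one]
    refine ⟨w, ?_⟩
    ext z
    unfold cell
    rw [Finset.mem_filter, Finset.mem_singleton]
    constructor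
    · rintro ⟨h1, h2⟩
      exact hinj z h1 h2
    · rintro rfl
      exact ⟨hw, fun _ _ => rfl⟩
  have h0 : (cell ka Z ∅ w).card = Z.card := by
    congr 1
    unfold cell
    rw [Finset.filter_true_of_mem]
    intro z _ c hc
    exact absurd hc (Finset.notMem_empty c)
  obtain ⟨K0, -, hK0F, hK0c, hK0⟩ := ch_closure ka Z F m w _ ∅ (Finset.empty_subset F) (le_refl _)
  rw [Finset.card_empty, pow_zero, one_mul, h0] at hK0
  -- the step as a function
  have hst : ∃ nx : Finset C → Finset C, ∀ K : Finset C, K ⊆ F → K ≠ F →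
      K ⊂ nx K ∧ nx K ⊆ F ∧ ChCl ka Z F m w (nx K) ∧
      m ^ K.card * (cell ka Z K w).card ≤ G * p * (m ^ (nx K).card * (cell ka Z (nx K) w).card) ∧
      (th \ nx K).card ≤ (th \ K).card - 1 := by
    have : ∀ K : Finset C, ∃ K' : Finset C, K ⊆ F → K ≠ F →
        K ⊂ K' ∧ K' ⊆ F ∧ ChCl ka Z F m w K' ∧
        m ^ K.card * (cell ka Z K w).card ≤ G * p * (m ^ K'.card * (cell ka Z K' w).card) ∧
        (th \ K').card ≤ (th \ K).card - 1 := by
      intro K
      by_cases h : K ⊆ F ∧ K ≠ F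
      · obtain ⟨K', hK'⟩ := ch_step ka Z F th p G m w hth hm1 hreg K h.1 h.2
        exact ⟨K', fun _ _ => hK'⟩
      · exact ⟨K, fun h1 h2 => absurd ⟨h1, h2⟩ h⟩
    choose nx hnx using this
    exact ⟨nx, hnx⟩
  obtain ⟨nx, hnx⟩ := hst
  obtain ⟨K, hKz, hKs⟩ : ∃ K : ℕ → Finset C, K 0 = K0 ∧ ∀ i, K (i + 1) = nx (K i) :=
    ⟨fun i => Nat.rec K0 (fun _ T => nx T) i, rfl, fun _ => rfl⟩
  have hmain : ∀ i, i ≤ j → K i ⊆ F ∧ K i ≠ F ∧ ChCl ka Z F m w (K i) ∧
      Z.card ≤ G ^ i * p ^ i * (m ^ (K i).card * (cell ka Z (K i) w).card) ∧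
      (th \ K i).card ≤ th.card - i := by
    have hne : ∀ i, i ≤ j → Z.card ≤ G ^ i * p ^ i * (m ^ (K i).card * (cell ka Z (K i) w).card) →
        K i ≠ F := by
      intro i hi hle he
      rw [he, hF1, mul_one] at hle
      have h1 : G ^ i ≤ G ^ j := Nat.pow_le_pow_right hG hi
      have h2 : p ^ i ≤ p ^ j := Nat.pow_le_pow_right hp hi
      have h3 : G ^ i * p ^ i * m ^ F.card ≤ G ^ j * p ^ j * m ^ F.card :=
        Nat.mul_le_mul_right _ (Nat.mul_le_mul h1 h2)
      have h4 : G ^ j * p ^ j * m ^ F.card = G ^ j * m ^ F.card * p ^ j := by ring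
      omega
    intro i
    induction i with
    | zero =>
      intro hi
      have h1 : Z.card ≤ G ^ 0 * p ^ 0 * (m ^ (K 0).card * (cell ka Z (K 0) w).card) := by
        rw [hKz, pow_zero, pow_zero, one_mul, one_mul]
        exact hK0
      refine ⟨by rw [hKz]; exact hK0F, hne 0 hi h1, by rw [hKz]; exact hK0c, h1, ?_⟩
      exact Finset.card_le_card Finset.sdiff_subset
    | succ i ih =>
      intro hi
      obtain ⟨a1, a2, a3, a4, a5⟩ := ih (by omega)
      obtain ⟨b1, b2, b3, b4, b5⟩ := hnx (K i) a1 a2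
      rw [← hKs i] at b1 b2 b3 b4 b5
      have h1 : Z.card ≤ G ^ (i + 1) * p ^ (i + 1) *
          (m ^ (K (i + 1)).card * (cell ka Z (K (i + 1)) w).card) := by
        calc Z.card ≤ G ^ i * p ^ i * (m ^ (K i).card * (cell ka Z (K i) w).card) := a4
          _ ≤ G ^ i * p ^ i * (G * p *
              (m ^ (K (i + 1)).card * (cell ka Z (K (i + 1)) w).card)) :=
            Nat.mul_le_mul_left _ b4
          _ = _ := by ring
      refine ⟨b2, hne (i + 1) hi h1, b3, h1, ?_⟩
      omega
  refine ⟨K, ⟨fun i hi => (hmain i hi).1, ?_, ?_, (hmain j le_rfl).2.1⟩, ?_⟩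
  · intro i hi
    obtain ⟨a1, a2, _⟩ := hmain i hi.le
    rw [hKs i]
    exact (hnx (K i) a1 a2).1
  · intro ht
    have h1 := (hmain j le_rfl).2.2.2.2
    have h2 : (th \ K j).card = 0 := by omega
    rw [Finset.card_eq_zero, Finset.sdiff_eq_empty_iff_subset] at h2
    exact h2
  · intro i hi
    obtain ⟨a1, _, a3, a4, _⟩ := hmain i hi
    have h1 := ch_half ka Z F m w hm (K i) a3
    have h2 : m ^ (K i).card ≤ m ^ F.card := Nat.pow_le_pow_right hm1 (Finset.card_le_card a1)
    calc Z.card ≤ G ^ i * p ^ i * (m ^ (K i).card * (cell ka Z (K i) w).card) := a4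
      _ ≤ G ^ i * p ^ i * (m ^ F.card * (2 * (dcell ka Z F (K i) w).card)) :=
          Nat.mul_le_mul_left _ (Nat.mul_le_mul h2 h1)
      _ = _ := by ring

end Pool.Agent.Lib.MP_e426f4_ag.DL
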