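import Pool.Agent.Lib.MP_e426f4_ag.DL.Defs

/-!
# ChoiceL: the parameters

`D = n + 1 - d ≥ 4`, `s = n + 1`, `9 d < 16 (D-1)^2`, `q = 2 d + 4 D - D^2` (in `ℤ`).
(N) `q ≤ 0` or `q^2 < 4 D^2 d`; `q + 2 D ≤ 0` or `(q + 2 D)^2 < 8 (d-1) D^2`.  Proof with `x = √d ≥ 2`: `D > (3/4) x + 1`, `D ≥ 4`;
`D^2 + 2 D x - 4 D - 2 x^2` is increasing in `D`; at `D = (3/4) x + 1` it is `(x^2 + 8 x - 48)/16 ≥ 0` if `x ≥ 4`; at `D = 4` it is `2 x (4 - x) > 0`
if `x < 4`; so `q < 2 D x`.  `q + 2 D < 2 D (x + 1)`, `(x+1)^2 ≤ 2 (x^2 - 1)` if `x ≥ 3`; for `4 ≤ d ≤ 8`: `q + 2 D = 2 d + 6 D - D^2 ≤ 2 d + 8` (`D ≥ 4`),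
`(2 d + 8)^2 < 128 (d - 1) ≤ 8 (d-1) D^2`.
Case `D ≤ d`: `l = D L`, `u = d L + s`, `L` large; `e + 1 = ⌊(d l - 1)/(d + 1)⌋`.  `D u - d l = D s`, `4 u ≤ (d+1) l` as `4 d + 1 ≤ (d+1) D`...,
`u (D-1) ≤ d l`.
Case `D > d`: `l = u = L` large.
With `y = 2 u - j` (`e + 1 ≤ y ≤ 2 u`) `CL1` reads
`l ((D-1) y - s - 1) + l min(d l, (d-1) x) ≥ (2 u - y + 3 l) x` for `x ≤ y`:
 * `(d-1) x ≤ d l`: the difference is `l (D-1) y - l (s+1) + x (l (d-4) - 2 u + y)`, `≥ l (D-1) y - l (s+1) + y min(0, l (d-4) - 2 u + y)`; as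
   `2 u ≤ (d+1) l / 2` it is at least `y l / 2 + ... - l (s+1) ≥ 0` for `y ≥ e + 1` large (`D + d - 5 - (d+1)/2 ≥ 1/2`).
 * otherwise `≥ d l^2 + y^2 - (2 u + 4 l - D l) y - l (s+1)`; `2 u + 4 l - D l = q L + 2 s` in the first case; use (N) (a square of `y`
   completes; `4 d l^2 - (q L + 2 s)^2 ≥ L^2 - ... ≥ 4 l (s+1)`), resp. `q L + 2 s ≤ 0`.
`CL2` with `z = y - u`, `1 ≤ z ≤ u`, `x ≤ 2 z - 1`: `l (D u - d l - s + (D-2) z) + l (d-1) min(l, x) ≥ (u - z + 2 l) x`; `D u - d l ≥ s`;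
 * `x ≤ l`: the difference is `≥ l (D-2) z + x (l (d-3) - u + z)`, `u ≤ (d+1) l / 4`, `x ≤ 2 z`;
 * `x > l`: `≥ l (D-2) z + l^2 (d-1) - (u - z + 2 l) 2 z = l^2 (d-1) + 2 z^2 - z (2 u + 6 l - D l)`, `2 u + 6 l - D l = (q + 2 D) L + 2 s`: (N).
(Checked numerically for `4 ≤ d ≤ 59`.)
-/

set_option autoImplicit false

namespace Pool.Agent.Lib.MP_e426f4_ag.DL

private theorem cL_core1 (d D s u l y x : ℤ) (hd : 4 ≤ d) (hD : 4 ≤ D) (hs : 0 ≤ s) (hl : 0 ≤ l)
    (h4u : 4 * u ≤ (d + 1) * l) (hy : 2 * s + 2 ≤ y) (hy2 : y ≤ 2 * u) (hx0 : 0 ≤ x) (hx : x ≤ y)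
    (hQ : 2 * u + 4 * l - D * l ≤ 0 ∨ (2 * u + 4 * l - D * l) ^ 2 ≤ 4 * (d * l ^ 2 - l * (s + 1)))
    (hdl : s + 1 ≤ d * l) :
    (2 * u - y + 3 * l) * x ≤ l * ((D - 1) * y - s - 1) + l * min (d * l) ((d - 1) * x) := by
  have hy0 : 0 ≤ y := by linarith
  rcases le_total ((d - 1) * x) (d * l) with h | h
  · rw [min_eq_right h]
    have hly : 0 ≤ l * y := mul_nonneg hl hy0
    rcases le_total 0 (l * (d - 4) - 2 * u + y) with hc | hc
    · have h1 : 0 ≤ x * (l * (d - 4) - 2 * u + y) := mul_nonneg hx0 hc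
      have h2 : l * (s + 1) ≤ l * ((D - 1) * y) := by
        apply mul_le_mul_of_nonneg_left _ hl
        nlinarith
      nlinarith
    · have h1 : y * (l * (d - 4) - 2 * u + y) ≤ x * (l * (d - 4) - 2 * u + y) :=
        mul_le_mul_of_nonpos_right hx hc
      have h2 : 0 ≤ l * (y - 2 * s - 2) := mul_nonneg hl (by linarith)
      have h3 : y * (4 * u) ≤ y * ((d + 1) * l) := mul_le_mul_of_nonneg_left h4u hy0
      have h4 : 0 ≤ (l * y) * (2 * D + d - 12) := mul_nonneg hly (by linarith)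
      have h5 : 0 ≤ y * y := mul_nonneg hy0 hy0
      nlinarith
  · rw [min_eq_left h]
    have h1 : (2 * u - y + 3 * l) * x ≤ (2 * u - y + 3 * l) * y :=
      mul_le_mul_of_nonneg_left hx (by linarith)
    have h2 : 0 ≤ y ^ 2 - (2 * u + 4 * l - D * l) * y + (d * l ^ 2 - l * (s + 1)) := by
      rcases hQ with hQ | hQ
      · have h3 : (2 * u + 4 * l - D * l) * y ≤ 0 := mul_nonpos_of_nonpos_of_nonneg hQ hy0
        have h4 : l * (s + 1) ≤ l * (d * l) := mul_le_mul_of_nonneg_left hdl hl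
        nlinarith [sq_nonneg y]
      · nlinarith [sq_nonneg (2 * y - (2 * u + 4 * l - D * l))]
    nlinarith

private theorem cL_core2 (d D s u l z x : ℤ) (hd : 4 ≤ d) (hD : 4 ≤ D) (hl : 0 ≤ l)
    (h4u : 4 * u ≤ (d + 1) * l) (hz : 0 ≤ z) (hz2 : z ≤ u) (hx0 : 0 ≤ x) (hx : x ≤ 2 * z)
    (hQ : 2 * u + 6 * l - D * l ≤ 0 ∨ (2 * u + 6 * l - D * l) ^ 2 ≤ 8 * (d - 1) * l ^ 2)
    (hs : s ≤ D * u - d * l) :
    (u - z + 2 * l) * x ≤ l * (D * u - d * l - s + (D - 2) * z) + l * ((d - 1) * min l x) := by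
  have h0 : 0 ≤ l * (D * u - d * l - s) := mul_nonneg hl (by linarith)
  have hlz : 0 ≤ l * z := mul_nonneg hl hz
  rcases le_total x l with h | h
  · rw [min_eq_right h]
    rcases le_total 0 (l * (d - 3) - u + z) with hc | hc
    · have h1 : 0 ≤ x * (l * (d - 3) - u + z) := mul_nonneg hx0 hc
      have h2 : 0 ≤ (l * z) * (D - 2) := mul_nonneg hlz (by linarith)
      nlinarith
    · have h1 : (2 * z) * (l * (d - 3) - u + z) ≤ x * (l * (d - 3) - u + z) :=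
        mul_le_mul_of_nonpos_right hx hc
      have h3 : z * (4 * u) ≤ z * ((d + 1) * l) := mul_le_mul_of_nonneg_left h4u hz
      have h4 : 0 ≤ (l * z) * (2 * D + 3 * d - 17) := mul_nonneg hlz (by linarith)
      have h5 : 0 ≤ z * z := mul_nonneg hz hz
      nlinarith
  · rw [min_eq_left h]
    have h1 : (u - z + 2 * l) * x ≤ (u - z + 2 * l) * (2 * z) :=
      mul_le_mul_of_nonneg_left hx (by linarith)
    have h2 : 0 ≤ 2 * z ^ 2 - (2 * u + 6 * l - D * l) * z + (d - 1) * l ^ 2 := by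
      rcases hQ with hQ | hQ
      · have h3 : (2 * u + 6 * l - D * l) * z ≤ 0 := mul_nonpos_of_nonpos_of_nonneg hQ hz
        have h4 : 0 ≤ (d - 1) * l ^ 2 := mul_nonneg (by linarith) (sq_nonneg l)
        nlinarith [sq_nonneg z]
      · nlinarith [sq_nonneg (4 * z - (2 * u + 6 * l - D * l))]
    nlinarith

/-- the conditions from the two quadratic inequalities -/
private theorem cL_CL (d n u l e : ℕ) (hd : 4 ≤ d) (hn : d + 3 ≤ n) (hdl : d ≤ l)
    (h4u : 4 * u ≤ (d + 1) * l) (he : 2 * (n + 1) + 2 ≤ e + 1) (hs : (n : ℤ) + 1 ≤ ((n : ℤ) + 1 - d) * u - d * l)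
    (hdl2 : n + 2 ≤ d * l)
    (hQ1 : 2 * (u : ℤ) + 4 * l - ((n : ℤ) + 1 - d) * l ≤ 0 ∨
      (2 * (u : ℤ) + 4 * l - ((n : ℤ) + 1 - d) * l) ^ 2 ≤ 4 * (d * (l : ℤ) ^ 2 - l * ((n : ℤ) + 1 + 1)))
    (hQ2 : 2 * (u : ℤ) + 6 * l - ((n : ℤ) + 1 - d) * l ≤ 0 ∨
      (2 * (u : ℤ) + 6 * l - ((n : ℤ) + 1 - d) * l) ^ 2 ≤ 8 * ((d : ℤ) - 1) * (l : ℤ) ^ 2) :
    CL d (n + 1) u l e := by
  have hdz : (4 : ℤ) ≤ d := by exact_mod_cast hd
  have hDz : (4 : ℤ) ≤ (n : ℤ) + 1 - d := by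
    have : ((d : ℤ) + 3) ≤ n := by exact_mod_cast hn
    linarith
  have h4z : 4 * (u : ℤ) ≤ ((d : ℤ) + 1) * l := by exact_mod_cast h4u
  refine ⟨hdl, h4u, ?_, ?_⟩
  · intro j x hj hx
    obtain ⟨y, hy⟩ : ∃ y, 2 * u = j + y := ⟨2 * u - j, by omega⟩
    have hy1 : 2 * (n + 1) + 2 ≤ y := by omega
    have e1 : 2 * u - j = y := by omega
    have e2 : 2 * u - j - 1 = y - 1 := by omega
    rw [e2, e1]
    have hyz : (j : ℤ) = 2 * u - y := by
      have : (2 * (u : ℤ)) = j + y := by exact_mod_cast hy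
      linarith
    have k := cL_core1 d ((n : ℤ) + 1 - d) ((n : ℤ) + 1) u l y x hdz hDz (by positivity) (by positivity) h4z
      (by exact_mod_cast hy1) (by linarith [Int.natCast_nonneg j]) (by positivity)
      (by
        have : (x : ℤ) + j ≤ 2 * u := by exact_mod_cast hx
        linarith) hQ1 (by
        have : ((n : ℤ) + 2) ≤ d * l := by exact_mod_cast hdl2
        linarith)
    zify [show 1 ≤ y by omega, show 1 ≤ d by omega]
    rw [hyz]
    nlinarith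
  · intro j x hj hx
    obtain ⟨z, hz⟩ : ∃ z, u = j + z := ⟨u - j, by omega⟩
    have e1 : 2 * u - j - 1 = u + z - 1 := by omega
    have e2 : 2 * u - 2 * j - 1 = 2 * z - 1 := by omega
    rw [e1, e2]
    have hzz : (j : ℤ) = u - z := by
      have : (u : ℤ) = j + z := by exact_mod_cast hz
      linarith
    have k := cL_core2 d ((n : ℤ) + 1 - d) ((n : ℤ) + 1) u l z x hdz hDz (by positivity) h4z
      (by positivity) (by linarith [Int.natCast_nonneg j]) (by positivity)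
      (by
        have : (x : ℤ) ≤ 2 * z := by
          have : x ≤ 2 * z := by omega
          exact_mod_cast this
        linarith) hQ2 hs
    zify [show 1 ≤ u + z by omega, show 1 ≤ 2 * z by omega, show 1 ≤ d by omega]
    rw [hzz]
    nlinarith

/-- (N) -/
private theorem cL_N1 (d D : ℝ) (hd : 4 ≤ d) (hD : 4 ≤ D) (h : 9 * d < 16 * (D - 1) ^ 2) :
    2 * d + 4 * D - D ^ 2 < 2 * D * Real.sqrt d := by
  have hx : Real.sqrt d ^ 2 = d := Real.sq_sqrt (by linarith)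
  have hx0 : 0 ≤ Real.sqrt d := Real.sqrt_nonneg d
  set x := Real.sqrt d with hxd
  rw [← hx] at h ⊢
  have h1 : 3 * x < 4 * (D - 1) := by
    by_contra hc
    push Not at hc
    nlinarith
  rcases lt_or_ge x 4 with h4 | h4
  · have hx2 : 0 < x := by nlinarith
    nlinarith [mul_pos hx2 (by linarith : (0 : ℝ) < 4 - x), mul_nonneg (by linarith : (0 : ℝ) ≤ D - 4) hx0,
      mul_nonneg (by linarith : (0 : ℝ) ≤ D - 4) (by linarith : (0 : ℝ) ≤ D)]
  · nlinarith [mul_nonneg (by linarith : (0 : ℝ) ≤ x - 4) hx0, mul_pos (by linarith : (0 : ℝ) < 4 * (D - 1) - 3 * x) (by linarith : (0 : ℝ) < D),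
      mul_pos (by linarith : (0 : ℝ) < 4 * (D - 1) - 3 * x) (by linarith : (0 : ℝ) < x)]

private theorem cL_N1' (d D : ℤ) (hd : 4 ≤ d) (hD : 4 ≤ D) (h : 9 * d < 16 * (D - 1) ^ 2)
    (hq : 0 ≤ 2 * d + 4 * D - D ^ 2) : (2 * d + 4 * D - D ^ 2) ^ 2 + 1 ≤ 4 * D ^ 2 * d := by
  have hr := cL_N1 (d : ℝ) (D : ℝ) (by exact_mod_cast hd) (by exact_mod_cast hD) (by exact_mod_cast h)
  have hq' : (0 : ℝ) ≤ 2 * d + 4 * D - D ^ 2 := by exact_mod_cast hq
  have hx : Real.sqrt (d : ℝ) ^ 2 = d := Real.sq_sqrt (by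
    have : (4 : ℝ) ≤ d := by exact_mod_cast hd
    linarith)
  have h2 : (2 * (d : ℝ) + 4 * D - D ^ 2) ^ 2 < (2 * D * Real.sqrt d) ^ 2 := by
    apply pow_lt_pow_left₀ hr hq' (by norm_num)
  have h3 : (2 * (D : ℝ) * Real.sqrt d) ^ 2 = 4 * D ^ 2 * d := by
    rw [mul_pow, hx]
    ring
  rw [h3] at h2
  have h4 : (2 * d + 4 * D - D ^ 2) ^ 2 < 4 * D ^ 2 * d := by exact_mod_cast h2
  omega

private theorem cL_N2' (d D : ℤ) (hd : 4 ≤ d) (hD : 4 ≤ D) (h : 9 * d < 16 * (D - 1) ^ 2)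
    (hq : 0 ≤ 2 * d + 6 * D - D ^ 2) : (2 * d + 6 * D - D ^ 2) ^ 2 + 1 ≤ 8 * (d - 1) * D ^ 2 := by
  rcases lt_or_ge d 9 with h9 | h9
  · have h1 : 2 * d + 6 * D - D ^ 2 ≤ 2 * d + 8 := by nlinarith
    have h2 : (2 * d + 6 * D - D ^ 2) ^ 2 ≤ (2 * d + 8) ^ 2 := pow_le_pow_left₀ hq h1 2
    have h3 : 128 * (d - 1) ≤ 8 * (d - 1) * D ^ 2 := by nlinarith
    have h4 : (2 * d + 8) ^ 2 + 1 ≤ 128 * (d - 1) := by nlinarith
    linarith
  · have hr := cL_N1 (d : ℝ) (D : ℝ) (by exact_mod_cast hd) (by exact_mod_cast hD) (by exact_mod_cast h)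
    have hq' : (0 : ℝ) ≤ 2 * d + 6 * D - D ^ 2 := by exact_mod_cast hq
    have hd9 : (9 : ℝ) ≤ d := by exact_mod_cast h9
    have hD4 : (4 : ℝ) ≤ D := by exact_mod_cast hD
    have hx : Real.sqrt (d : ℝ) ^ 2 = d := Real.sq_sqrt (by linarith)
    have hx3 : 3 ≤ Real.sqrt (d : ℝ) := by
      rw [show (3 : ℝ) = Real.sqrt 9 by
        rw [show (9 : ℝ) = 3 ^ 2 by norm_num, Real.sqrt_sq (by norm_num)]]
      exact Real.sqrt_le_sqrt hd9
    have h1 : 2 * (d : ℝ) + 6 * D - D ^ 2 < 2 * D * (Real.sqrt d + 1) := by linarith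
    have h2 : (2 * (d : ℝ) + 6 * D - D ^ 2) ^ 2 < (2 * D * (Real.sqrt d + 1)) ^ 2 :=
      pow_lt_pow_left₀ h1 hq' (by norm_num)
    have h3 : (2 * (D : ℝ) * (Real.sqrt d + 1)) ^ 2 ≤ 8 * (d - 1) * D ^ 2 := by
      have h4 : (Real.sqrt (d : ℝ) + 1) ^ 2 ≤ 2 * (d - 1) := by
        have : 2 * ((d : ℝ) - 1) = 2 * (Real.sqrt (d : ℝ) - 1) * (Real.sqrt (d : ℝ) + 1) := by
          nlinarith
        rw [this]
        nlinarith
      have h5 : 0 ≤ 4 * (D : ℝ) ^ 2 := by positivity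
      nlinarith [mul_le_mul_of_nonneg_left h4 h5]
    have h6 : (2 * d + 6 * D - D ^ 2) ^ 2 < 8 * (d - 1) * D ^ 2 := by
      have := h2.trans_le h3
      exact_mod_cast this
    omega

theorem choiceL (d n : ℕ) (hd : 4 ≤ d) (hn : d + 3 ≤ n) (h : 9 * d < 16 * (n - d) ^ 2) :
    ∃ u l e : ℕ, (d + 1) * (e + 1) + 1 ≤ d * l ∧ l ≤ u ∧ u ≤ d * l ∧ u * min d (n - d) ≤ d * l ∧
      CL d (n + 1) u l e := by
  obtain ⟨D, hD⟩ : ∃ D, n + 1 = d + D := ⟨n + 1 - d, by omega⟩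
  have hD4 : 4 ≤ D := by omega
  have hnd : n - d = D - 1 := by omega
  have hDz : (n : ℤ) + 1 - d = D := by
    have : ((n : ℤ) + 1) = d + D := by exact_mod_cast hD
    linarith
  have hdz : (4 : ℤ) ≤ d := by exact_mod_cast hd
  have hD4z : (4 : ℤ) ≤ D := by exact_mod_cast hD4
  have hz : 9 * (d : ℤ) < 16 * ((D : ℤ) - 1) ^ 2 := by
    rw [hnd] at h
    have := h
    zify [show 1 ≤ D by omega] at this
    exact this
  have hnz : (n : ℤ) + 1 = d + D := by exact_mod_cast hD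
  obtain ⟨s, hs⟩ : ∃ s, s = n + 1 := ⟨_, rfl⟩
  have hsz : (s : ℤ) = d + D := by
    rw [hs]
    push_cast
    exact hnz
  obtain ⟨L, hL⟩ : ∃ L, L = 100 * s ^ 2 := ⟨_, rfl⟩
  have hLz : (L : ℤ) = 100 * (s : ℤ) ^ 2 := by exact_mod_cast hL
  have hs8 : 8 ≤ s := by omega
  have hLs : 100 * s ≤ L := by
    rw [hL]
    nlinarith
  have hLpos : 0 < L := by omega
  have hds : d ≤ s := by omega
  have hDs : D ≤ s := by omega
  have hdsz : (d : ℤ) ≤ s := by exact_mod_cast hds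
  have hDsz : (D : ℤ) ≤ s := by exact_mod_cast hDs
  have hs8z : (8 : ℤ) ≤ s := by exact_mod_cast hs8
  have hLsz : 100 * (s : ℤ) ≤ L := by exact_mod_cast hLs
  rcases le_or_gt D d with hDd | hDd
  · obtain ⟨l, hl⟩ : ∃ l, l = D * L := ⟨_, rfl⟩
    obtain ⟨u, hu⟩ : ∃ u, u = d * L + s := ⟨_, rfl⟩
    have hlz : (l : ℤ) = D * L := by exact_mod_cast hl
    have huz : (u : ℤ) = d * L + s := by exact_mod_cast hu
    have hdl4 : 4 * (d * L) ≤ d * l := by
      rw [hl]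
      nlinarith [Nat.mul_le_mul_right (d * L) hD4]
    have hdL : 4 * L ≤ d * L := Nat.mul_le_mul_right L hd
    have hdL2 : d * (100 * s) ≤ d * L := Nat.mul_le_mul_left d hLs
    have hq : 2 * (s + 1) ≤ (d * l - 1) / (d + 1) := by
      rw [Nat.le_div_iff_mul_le (by omega)]
      have : 2 * (s + 1) * (d + 1) + 1 ≤ d * l := by nlinarith
      omega
    refine ⟨u, l, (d * l - 1) / (d + 1) - 1, ?_, ?_, ?_, ?_, ?_⟩
    · have h1 : (d * l - 1) / (d + 1) - 1 + 1 = (d * l - 1) / (d + 1) := by omega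
      rw [h1]
      have h2 : (d + 1) * ((d * l - 1) / (d + 1)) ≤ d * l - 1 := Nat.mul_div_le _ _
      omega
    · rw [hl, hu]
      exact (Nat.mul_le_mul_right L hDd).trans (Nat.le_add_right _ _)
    · rw [hu]
      omega
    · rw [hnd, min_eq_right (by omega)]
      have h1 : s * (D - 1) ≤ d * L := by
        have h2 : s * (D - 1) ≤ s * d := Nat.mul_le_mul_left s (by omega)
        nlinarith
      have h2 : u * (D - 1) = d * L * (D - 1) + s * (D - 1) := by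
        rw [hu]
        ring
      have h3 : d * l = d * L * (D - 1) + d * L := by
        rw [hl]
        obtain ⟨D', rfl⟩ : ∃ D', D = D' + 1 := ⟨D - 1, by omega⟩
        rw [Nat.add_sub_cancel]
        ring
      omega
    · apply cL_CL d n u l _ hd hn
      · rw [hl]
        nlinarith
      · rw [hl, hu]
        nlinarith [Nat.mul_le_mul_right ((d + 1) * L) hD4]
      · omega
      · rw [hDz, huz, hlz, hnz, hsz]
        nlinarith
      · omega
      · rw [hDz, huz, hlz]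
        have e : 2 * ((d : ℤ) * L + s) + 4 * (D * L) - D * (D * L) = (2 * d + 4 * D - D ^ 2) * L + 2 * s := by
          ring
        rw [e]
        rcases lt_or_ge (2 * (d : ℤ) + 4 * D - D ^ 2) 0 with hq0 | hq0
        · left
          nlinarith
        · right
          have k := cL_N1' d D hdz hD4z hz hq0
          have hq1 : 2 * (d : ℤ) + 4 * D - D ^ 2 ≤ 6 * s := by nlinarith
          set q := 2 * (d : ℤ) + 4 * D - D ^ 2 with hqd
          have hL0 : (0 : ℤ) < L := by exact_mod_cast hLpos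
          have k1 : q * (s * L) ≤ 6 * s * (s * L) := mul_le_mul_of_nonneg_right hq1 (by positivity)
          have k2 : (q ^ 2 + 1) * (L : ℤ) ^ 2 ≤ (4 * D ^ 2 * d) * (L : ℤ) ^ 2 :=
            mul_le_mul_of_nonneg_right k (by positivity)
          have k3 : (D : ℤ) * L * (n + 1 + 1) ≤ 2 * (s ^ 2 * L) := by
            rw [show (n : ℤ) + 1 = s by linarith]
            nlinarith [mul_le_mul_of_nonneg_right hDsz (show (0 : ℤ) ≤ L * (s + 1) by positivity),
              mul_nonneg (show (0 : ℤ) ≤ s * L by positivity) (show (0 : ℤ) ≤ s - 1 by linarith)]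
          have k4 : (L : ℤ) * L = 100 * (s ^ 2 * L) := by
            nth_rewrite 1 [hLz]
            ring
          have k5 : (s : ℤ) ^ 2 ≤ s ^ 2 * L := by nlinarith [sq_nonneg (s : ℤ)]
          nlinarith
      · rw [hDz, huz, hlz]
        have e : 2 * ((d : ℤ) * L + s) + 6 * (D * L) - D * (D * L) = (2 * d + 6 * D - D ^ 2) * L + 2 * s := by
          ring
        rw [e]
        rcases lt_or_ge (2 * (d : ℤ) + 6 * D - D ^ 2) 0 with hq0 | hq0
        · left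
          nlinarith
        · right
          have k := cL_N2' d D hdz hD4z hz hq0
          have hq1 : 2 * (d : ℤ) + 6 * D - D ^ 2 ≤ 8 * s := by nlinarith
          set q := 2 * (d : ℤ) + 6 * D - D ^ 2 with hqd
          have hL0 : (0 : ℤ) < L := by exact_mod_cast hLpos
          have k1 : q * (s * L) ≤ 8 * s * (s * L) := mul_le_mul_of_nonneg_right hq1 (by positivity)
          have k2 : (q ^ 2 + 1) * (L : ℤ) ^ 2 ≤ (8 * (d - 1) * D ^ 2) * (L : ℤ) ^ 2 :=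
            mul_le_mul_of_nonneg_right k (by positivity)
          have k4 : (L : ℤ) * L = 100 * (s ^ 2 * L) := by
            nth_rewrite 1 [hLz]
            ring
          have k5 : (s : ℤ) ^ 2 ≤ s ^ 2 * L := by nlinarith [sq_nonneg (s : ℤ)]
          nlinarith
  · obtain ⟨l, hl⟩ : ∃ l, l = L := ⟨_, rfl⟩
    rw [← hl] at hLz hLs hLsz hLpos
    have hdl4 : 4 * l ≤ d * l := Nat.mul_le_mul_right l hd
    have hdL2 : d * (100 * s) ≤ d * l := Nat.mul_le_mul_left d hLs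
    have hDdz : (d : ℤ) + 1 ≤ D := by exact_mod_cast hDd
    have hq : 2 * (s + 1) ≤ (d * l - 1) / (d + 1) := by
      rw [Nat.le_div_iff_mul_le (by omega)]
      have : 2 * (s + 1) * (d + 1) + 1 ≤ d * l := by nlinarith
      omega
    refine ⟨l, l, (d * l - 1) / (d + 1) - 1, ?_, le_rfl, ?_, ?_, ?_⟩
    · have h1 : (d * l - 1) / (d + 1) - 1 + 1 = (d * l - 1) / (d + 1) := by omega
      rw [h1]
      have h2 : (d + 1) * ((d * l - 1) / (d + 1)) ≤ d * l - 1 := Nat.mul_div_le _ _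
      omega
    · omega
    · rw [hnd, min_eq_left (by omega), mul_comm]
    · apply cL_CL d n l l _ hd hn
      · omega
      · nlinarith
      · omega
      · rw [hDz, hnz, ← hsz]
        have h1 : (1 : ℤ) * l ≤ (D - d) * l := mul_le_mul_of_nonneg_right (by linarith) (by positivity)
        nlinarith
      · omega
      · rw [hDz]
        rcases lt_or_ge (6 : ℤ) D with hD6 | hD6
        · left
          nlinarith
        · right
          have e : 2 * (l : ℤ) + 4 * l - D * l = (6 - D) * l := by ring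
          rw [e, mul_pow]
          have h1 : (6 - (D : ℤ)) ^ 2 ≤ 1 := by nlinarith
          have h2 : (6 - (D : ℤ)) ^ 2 * (l : ℤ) ^ 2 ≤ 1 * (l : ℤ) ^ 2 :=
            mul_le_mul_of_nonneg_right h1 (by positivity)
          have h3 : (4 : ℤ) * (l : ℤ) ^ 2 ≤ d * (l : ℤ) ^ 2 := mul_le_mul_of_nonneg_right hdz (by positivity)
          have h4 : (l : ℤ) * (n + 1 + 1) ≤ l * l := by
            apply mul_le_mul_of_nonneg_left _ (by positivity)
            linarith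
          nlinarith
      · rw [hDz]
        rcases lt_or_ge (8 : ℤ) D with hD8 | hD8
        · left
          nlinarith
        · right
          have e : 2 * (l : ℤ) + 6 * l - D * l = (8 - D) * l := by ring
          rw [e, mul_pow]
          have h1 : (8 - (D : ℤ)) ^ 2 ≤ 9 := by nlinarith
          have h2 : (8 - (D : ℤ)) ^ 2 * (l : ℤ) ^ 2 ≤ 9 * (l : ℤ) ^ 2 :=
            mul_le_mul_of_nonneg_right h1 (by positivity)
          have h3 : (24 : ℤ) * (l : ℤ) ^ 2 ≤ 8 * ((d : ℤ) - 1) * (l : ℤ) ^ 2 :=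
            mul_le_mul_of_nonneg_right (by linarith) (by positivity)
          nlinarith [sq_nonneg (l : ℤ)]

end Pool.Agent.Lib.MP_e426f4_ag.DL
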