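import Pool.Agent.Lib.MP_e426f4_ag.DL.Defs
import Pool.Agent.Lib.MP_e426f4_ag.DK.FactsX
import Pool.Agent.Lib.MP_e426f4_ag.DK.IndB

/-!
# ClB: elementary facts on the classes (from `DK/Cls.lean`)
-/

set_option autoImplicit false

namespace Pool.Agent.Lib.MP_e426f4_ag.DL

open Finset
open Pool.Agent.Lib.MP_e426f4_ag.DG
open Pool.Agent.Lib.MP_e426f4_ag.DK

theorem cl_mem {d s u l e m w E : ℕ} (S : Su d s u l e m w E) (A : Finset (Fin u))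
    (z : (Fin u → ℕ) × (Fin u → ℕ)) : z ∈ S.Cl A ↔
      (∀ c : Fin u, z.1 c ∈ S.PS c) ∧ (∀ c : Fin u, z.2 c ∈ S.PS c) ∧ ∀ c : Fin u, z.1 c = z.2 c ↔ c ∈ A := by
  unfold Su.Cl
  rw [mem_filter, mem_product, S.PF_mem, S.PF_mem, and_assoc]

theorem ka_mem {d s u l e m w E : ℕ} (S : Su d s u l e m w E) (A : Finset (Fin u))
    (z : (Fin u → ℕ) × (Fin u → ℕ)) (hz : z ∈ S.Cl A) (c : Fin u ⊕ Fin u) :
    ka c z ∈ S.PS (ix c) := by
  obtain ⟨h1, h2, -⟩ := (cl_mem S A z).1 hz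
  rcases c with c | c
  · exact h1 c
  · exact h2 c

theorem cl_inj {d s u l e m w E : ℕ} (S : Su d s u l e m w E) (t t' : ℕ) (ht : t ∈ S.I)
    (ht' : t' ∈ S.I) (A : Finset (Fin u)) : Set.InjOn (pr (u := u) t t') (S.Cl A) := by
  intro z hz y hy h
  obtain ⟨h1, h2, -⟩ := (cl_mem S A z).1 hz
  obtain ⟨g1, g2, -⟩ := (cl_mem S A y).1 hy
  obtain ⟨k1, k2, -⟩ := (S.I_mem t).1 ht
  obtain ⟨k1', k2', -⟩ := (S.I_mem t').1 ht'
  unfold pr at h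
  rw [Prod.mk.injEq] at h
  have e1 := (S.uniq u le_rfl t t ⟨k1, k2⟩ ⟨k1, k2⟩ z.1 y.1 ((S.PF_mem u _).2 h1)
    ((S.PF_mem u _).2 g1) h.1).2
  have e2 := (S.uniq u le_rfl t' t' ⟨k1', k2'⟩ ⟨k1', k2'⟩ z.2 y.2 ((S.PF_mem u _).2 h2)
    ((S.PF_mem u _).2 g2) h.2).2
  exact Prod.ext e1 e2

theorem cl_bound {d s u l e m w E : ℕ} (S : Su d s u l e m w E) (t : ℕ) (ht : t ∈ S.I)
    (z : Fin u → ℕ) (hz : ∀ c : Fin u, z c ∈ S.PS c) : 1 ≤ t * ∏ c, z c ∧ t * ∏ c, z c ≤ S.B := by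
  have h := S.X_bounds (t * ∏ c, z c) ((S.X_mem _).2 ⟨t, ht, z, (S.PF_mem u _).2 hz, rfl⟩)
  exact ⟨h.1, h.2.1⟩

/-- the coordinates of the pair are not divisible by other primes -/
theorem cl_ndvd {d s u l e m w E : ℕ} (S : Su d s u l e m w E) (t t' : ℕ) (ht : t ∈ S.I)
    (ht' : t' ∈ S.I) (A : Finset (Fin u)) (y : (Fin u → ℕ) × (Fin u → ℕ)) (hy : y ∈ S.Cl A)
    (c : Fin u ⊕ Fin u) (q : ℕ) (hq : q ∈ S.PS (ix c)) (hne : ka c y ≠ q) :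
    ¬ q ∣ (if Sum.isLeft c then (pr t t' y).1 else (pr t t' y).2) := by
  obtain ⟨g1, g2, -⟩ := (cl_mem S A y).1 hy
  obtain ⟨k1, k2, -⟩ := (S.I_mem t).1 ht
  obtain ⟨k1', k2', -⟩ := (S.I_mem t').1 ht'
  rcases c with c | c
  · intro h
    obtain ⟨_, h2⟩ := S.PS_dvd u le_rfl q c t c.2 hq ⟨k1, k2⟩ y.1 ((S.PF_mem u _).2 g1) h
    exact hne h2
  · intro h
    obtain ⟨_, h2⟩ := S.PS_dvd u le_rfl q c t' c.2 hq ⟨k1', k2'⟩ y.2 ((S.PF_mem u _).2 g2) h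
    exact hne h2

theorem cl_dvd {u : ℕ} (t t' : ℕ) (z : (Fin u → ℕ) × (Fin u → ℕ)) (c : Fin u ⊕ Fin u) :
    ka c z ∣ (if Sum.isLeft c then (pr t t' z).1 else (pr t t' z).2) := by
  rcases c with c | c
  · exact Dvd.dvd.mul_left (dvd_prod_of_mem z.1 (mem_univ c)) t
  · exact Dvd.dvd.mul_left (dvd_prod_of_mem z.2 (mem_univ c)) t'

theorem cl_ext {d s u l e m w E : ℕ} (S : Su d s u l e m w E) (t t' : ℕ) (ht : t ∈ S.I)
    (ht' : t' ∈ S.I) (A : Finset (Fin u)) (Z : Finset ((Fin u → ℕ) × (Fin u → ℕ)))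
    (J' : Finset (Fin u ⊕ Fin u)) (v : Fin u ⊕ Fin u → ℕ) (N : ℕ)
    (y : (Fin u → ℕ) × (Fin u → ℕ)) (hZ : Z ⊆ S.Cl A) (hZn : Z.Nonempty)
    (hJF : ∀ c : Fin u, Sum.inr c ∈ J' → c ∉ A) (hJ1 : 1 ≤ J'.card) (hJl : J'.card ≤ l)
    (hv : ∀ z ∈ Z, ∀ c ∈ J', ka c z = v c) (hy : y ∈ S.Cl A) (hyv : ∀ c ∈ J', ka c y ≠ v c)
    (hQ : IndM d S.H (S.W ^ (d * N)) (Z.image (pr t t'))) :
    IndM d S.H (S.W ^ (d * (N + J'.card))) ((insert y Z).image (pr t t')) := by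
  obtain ⟨z0, hz0⟩ := hZn
  obtain ⟨c0, hc0⟩ := card_pos.1 hJ1
  have hvm : ∀ c ∈ J', v c ∈ S.PS (ix c) := fun c hc => by
    rw [← hv z0 hz0 c hc]
    exact ka_mem S A z0 (hZ hz0) c
  have hW := S.W_pos
  have hyZ : pr t t' y ∉ Z.image (pr t t') := by
    intro h
    obtain ⟨z, hz, hzy⟩ := mem_image.1 h
    have := cl_inj S t t' ht ht' A (hZ hz) hy hzy
    subst this
    exact hyv c0 hc0 (hv z hz c0 hc0)
  rw [image_insert, Nat.mul_add, pow_add]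
  refine indM_ext d S.H (S.W ^ (d * N)) (S.W ^ (d * J'.card)) (Z.image (pr t t')) (pr t t' y) hyZ hQ
    J' v Sum.isLeft ?_ ?_ ?_ ?_ ?_ ?_ ?_
  · intro c hc
    exact (S.hPS (ix c) (ix c).2 (v c) (hvm c hc)).1
  · intro c hc c' hc' h
    by_contra hne
    have h1 := hvm c hc
    have h2 := hvm c' hc'
    rw [← h] at h2
    have h3 : ix c = ix c' := by
      by_contra h4
      have h5 : (ix c : ℕ) ≠ (ix c' : ℕ) := fun h6 => h4 (Fin.ext h6)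
      exact (Finset.disjoint_left.1 (S.hPd _ _ (ix c).2 (ix c').2 h5) h1) h2
    obtain ⟨-, -, k3⟩ := (cl_mem S A z0).1 (hZ hz0)
    have e1 := hv z0 hz0 c hc
    have e2 := hv z0 hz0 c' hc'
    rcases c with c | c <;> rcases c' with c' | c'
    · exact hne (congrArg _ h3)
    · have h4 : c = c' := h3
      subst h4
      have h5 : z0.1 c = z0.2 c := by
        change z0.1 c = _ at e1
        change z0.2 c = _ at e2
        rw [e1, e2, h]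
      exact hJF c hc' ((k3 c).1 h5)
    · have h4 : c = c' := h3
      subst h4
      have h5 : z0.1 c = z0.2 c := by
        change z0.2 c = _ at e1
        change z0.1 c = _ at e2
        rw [e1, e2, h]
      exact hJF c hc ((k3 c).1 h5)
    · exact hne (congrArg _ h3)
  · intro c hc x hx
    obtain ⟨z, hz, rfl⟩ := mem_image.1 hx
    rw [← hv z hz c hc]
    exact cl_dvd t t' z c
  · intro c hc
    exact cl_ndvd S t t' ht ht' A y hy c (v c) (hvm c hc) (hyv c hc)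
  · exact Nat.one_le_pow _ _ hW
  · refine le_trans (Nat.pow_le_pow_right hW ?_) S.H_ge'
    exact Nat.mul_le_mul_left _ hJl
  · calc S.W ^ (d * J'.card) = ∏ _c ∈ J', S.W ^ d := by rw [prod_const, ← pow_mul]
      _ ≤ ∏ c ∈ J', v c ^ d := by
        refine prod_le_prod' fun c hc => Nat.pow_le_pow_left ?_ d
        exact (S.hPS (ix c) (ix c).2 (v c) (hvm c hc)).2.1.le

theorem cl_star {d s u l e m w E : ℕ} (S : Su d s u l e m w E) (t t' : ℕ) (ht : t ∈ S.I)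
    (ht' : t' ∈ S.I) (A : Finset (Fin u)) (z y : (Fin u → ℕ) × (Fin u → ℕ)) (hz : z ∈ S.Cl A)
    (hy : y ∈ S.Cl A) (hne : z ≠ y) (hA : ∀ c ∈ A, z.1 c = y.1 c) :
    (pr t t' z).1 * (pr t t' y).2 ≠ (pr t t' y).1 * (pr t t' z).2 := by
  intro h
  obtain ⟨z1, z2, z3⟩ := (cl_mem S A z).1 hz
  obtain ⟨y1, y2, y3⟩ := (cl_mem S A y).1 hy
  obtain ⟨k1, k2, -⟩ := (S.I_mem t).1 ht
  obtain ⟨k1', k2', -⟩ := (S.I_mem t').1 ht'
  have h' : (∏ c, z.1 c) * (∏ c, y.2 c) = (∏ c, y.1 c) * ∏ c, z.2 c := by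
    unfold pr at h
    have h2 : (t * t') * ((∏ c, z.1 c) * (∏ c, y.2 c)) = (t * t') * ((∏ c, y.1 c) * ∏ c, z.2 c) := by
      calc (t * t') * ((∏ c, z.1 c) * (∏ c, y.2 c)) = (t * ∏ c, z.1 c) * (t' * ∏ c, y.2 c) := by ring
        _ = (t * ∏ c, y.1 c) * (t' * ∏ c, z.2 c) := h
        _ = _ := by ring
    exact Nat.eq_of_mul_eq_mul_left (Nat.mul_pos k1 k1') h2
  have hprime : ∀ (q : ℕ) (c : Fin u), q ∈ S.PS c → q.Prime := fun q c hq =>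
    (S.hPS c c.2 q hq).1
  have hdvd : ∀ (q : ℕ) (c : Fin u) (v : Fin u → ℕ), q ∈ S.PS c → (∀ c : Fin u, v c ∈ S.PS c) →
      q ∣ ∏ c, v c → v c = q := by
    intro q c v hq hv h3
    obtain ⟨_, h4⟩ := S.PS_dvd u le_rfl q c 1 c.2 hq ⟨le_rfl, S.T_pos⟩ v ((S.PF_mem u _).2 hv)
      (by rw [one_mul]; exact h3)
    exact h4
  have e1 : ∀ c : Fin u, c ∉ A → z.1 c = y.1 c := by
    intro c hc
    have h3 : z.1 c ∣ (∏ c, y.1 c) * ∏ c, z.2 c := by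
      rw [← h']
      exact Dvd.dvd.mul_right (dvd_prod_of_mem z.1 (mem_univ c)) _
    rcases (hprime _ c (z1 c)).dvd_mul.1 h3 with h4 | h4
    · exact (hdvd _ c y.1 (z1 c) y1 h4).symm
    · exact absurd ((z3 c).1 (hdvd _ c z.2 (z1 c) z2 h4).symm) hc
  have e2 : ∀ c : Fin u, c ∉ A → z.2 c = y.2 c := by
    intro c hc
    have h3 : y.2 c ∣ (∏ c, y.1 c) * ∏ c, z.2 c := by
      rw [← h']
      exact Dvd.dvd.mul_left (dvd_prod_of_mem y.2 (mem_univ c)) _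
    rcases (hprime _ c (y2 c)).dvd_mul.1 h3 with h4 | h4
    · exact absurd ((y3 c).1 (hdvd _ c y.1 (y2 c) y1 h4)) hc
    · exact hdvd _ c z.2 (y2 c) z2 h4
  apply hne
  refine Prod.ext (funext fun c => ?_) (funext fun c => ?_)
  · by_cases hc : c ∈ A
    · exact hA c hc
    · exact e1 c hc
  · by_cases hc : c ∈ A
    · rw [← (z3 c).2 hc, ← (y3 c).2 hc]
      exact hA c hc
    · exact e2 c hc

end Pool.Agent.Lib.MP_e426f4_ag.DL
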