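import Pool.Agent.Lib.MP_e426f4_ag.DL.ClB

/-!
# ClC: counting in the classes

`cl_card_le`: an element of `Cl A` is determined by its coordinates in `FA A` (`cl_agree`); those of `K` are prescribed, the others take
at most `p = |PS c|` values.  (Inject into `Fintype.piFinset` of the functions on `FA A \ K` with values in `S.PS (ix c)`.)
-/

set_option autoImplicit false

namespace Pool.Agent.Lib.MP_e426f4_ag.DL

open Finset
open Pool.Agent.Lib.MP_e426f4_ag.DG
open Pool.Agent.Lib.MP_e426f4_ag.DK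

private theorem mem_cell {α C : Type} (ka : C → α → ℕ) (Z : Finset α) (K : Finset C) (w z : α) :
    z ∈ cell ka Z K w ↔ z ∈ Z ∧ ∀ c ∈ K, ka c z = ka c w := by
  simp [cell]

theorem mem_FA_inl {u : ℕ} (A : Finset (Fin u)) (c : Fin u) : Sum.inl c ∈ FA A := by
  unfold FA
  rw [Finset.inl_mem_disjSum]
  exact mem_univ c

theorem mem_FA_inr {u : ℕ} (A : Finset (Fin u)) (c : Fin u) : Sum.inr c ∈ FA A ↔ c ∉ A := by
  unfold FA
  rw [Finset.inr_mem_disjSum, mem_compl]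

theorem mem_thA_inl {u : ℕ} (A : Finset (Fin u)) (c : Fin u) : Sum.inl c ∈ thA A ↔ c ∈ A := by
  unfold thA
  rw [Finset.inl_mem_disjSum]

theorem mem_thA_inr {u : ℕ} (A : Finset (Fin u)) (c : Fin u) : Sum.inr c ∉ thA A := by
  unfold thA
  rw [Finset.inr_mem_disjSum]
  exact notMem_empty c

theorem thA_sub {u : ℕ} (A : Finset (Fin u)) : thA A ⊆ FA A := by
  intro c hc
  rcases c with c | c
  · exact mem_FA_inl A c
  · exact absurd hc (mem_thA_inr A c)

theorem card_thA {u : ℕ} (A : Finset (Fin u)) : (thA A).card = A.card := by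
  unfold thA
  rw [Finset.card_disjSum, card_empty, add_zero]

theorem card_FA {u : ℕ} (A : Finset (Fin u)) : (FA A).card + A.card = 2 * u := by
  unfold FA
  have h1 : A.card ≤ u := by
    have := card_le_univ A
    rwa [Fintype.card_fin] at this
  rw [Finset.card_disjSum, card_univ, Fintype.card_fin, card_compl, Fintype.card_fin]
  omega

/-- two elements of a class with the same coordinates are equal -/
theorem cl_agree {d s u l e m w E : ℕ} (S : Su d s u l e m w E) (A : Finset (Fin u))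
    (z y : (Fin u → ℕ) × (Fin u → ℕ)) (hz : z ∈ S.Cl A) (hy : y ∈ S.Cl A)
    (h : ∀ c ∈ FA A, ka c z = ka c y) : z = y := by
  obtain ⟨-, -, z3⟩ := (cl_mem S A z).1 hz
  obtain ⟨-, -, y3⟩ := (cl_mem S A y).1 hy
  have h1 : ∀ c : Fin u, z.1 c = y.1 c := fun c => h (Sum.inl c) (mem_FA_inl A c)
  refine Prod.ext (funext h1) (funext fun c => ?_)
  by_cases hc : c ∈ A
  · rw [← (z3 c).2 hc, ← (y3 c).2 hc]
    exact h1 c
  · exact h (Sum.inr c) ((mem_FA_inr A c).2 hc)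

theorem cl_image_le {d s u l e m w E : ℕ} (S : Su d s u l e m w E) (A : Finset (Fin u))
    (c : Fin u ⊕ Fin u) : ((S.Cl A).image (ka c)).card ≤ S.p := by
  have h1 : (S.Cl A).image (ka c) ⊆ S.PS (ix c) := by
    intro q hq
    obtain ⟨z, hz, rfl⟩ := mem_image.1 hq
    exact ka_mem S A z hz c
  calc ((S.Cl A).image (ka c)).card ≤ (S.PS (ix c)).card := card_le_card h1
    _ = S.p := S.hPc _ (ix c).2

theorem cl_card_le {d s u l e m w E : ℕ} (S : Su d s u l e m w E) (A : Finset (Fin u))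
    (K : Finset (Fin u ⊕ Fin u)) (hK : K ⊆ FA A) (w0 : (Fin u → ℕ) × (Fin u → ℕ)) :
    (cell ka (S.Cl A) K w0).card ≤ S.p ^ ((FA A).card - K.card) := by
  classical
  obtain ⟨Q, hQ⟩ : ∃ Q : Finset ((c : {c // c ∈ FA A \ K}) → ℕ),
      Q = Fintype.piFinset fun c => S.PS (ix c.1) := ⟨_, rfl⟩
  have hQc : Q.card = S.p ^ ((FA A).card - K.card) := by
    rw [hQ, Fintype.card_piFinset, prod_congr rfl fun c _ => S.hPc _ (ix c.1).2, prod_const,
      card_univ, Fintype.card_coe, card_sdiff_of_subset hK]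
    rfl
  rw [← hQc]
  refine card_le_card_of_injOn (fun z => fun c => ka c.1 z) ?_ ?_
  · intro z hz
    rw [mem_coe] at hz ⊢
    rw [mem_cell] at hz
    rw [hQ, Fintype.mem_piFinset]
    intro c
    exact ka_mem S A z hz.1 c.1
  · intro z hz y hy hzy
    rw [mem_coe, mem_cell] at hz hy
    refine cl_agree S A z y hz.1 hy.1 fun c hc => ?_
    by_cases hcK : c ∈ K
    · rw [hz.2 c hcK, hy.2 c hcK]
    · exact congrFun hzy ⟨c, mem_sdiff.2 ⟨hc, hcK⟩⟩

/-- the products over the coordinates outside `K` -/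
theorem cl_factor {d s u l e m w E : ℕ} (S : Su d s u l e m w E) (t t' : ℕ) (ht : t ∈ S.I)
    (ht' : t' ∈ S.I) (A : Finset (Fin u)) (K : Finset (Fin u ⊕ Fin u)) (hth : thA A ⊆ K)
    (w0 : (Fin u → ℕ) × (Fin u → ℕ)) (hw : w0 ∈ S.Cl A) : ∃ c1 c2 : ℕ, 1 ≤ c1 ∧ 1 ≤ c2 ∧
      ∀ z ∈ cell ka (S.Cl A) K w0, pr t t' z =
        (c1 * ∏ c ∈ univ.filter (fun c : Fin u => Sum.inl c ∉ K), z.1 c,
          c2 * ∏ c ∈ univ.filter (fun c : Fin u => c ∉ A ∧ Sum.inr c ∉ K), z.2 c) := by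
  classical
  obtain ⟨k1, k2, -⟩ := (S.I_mem t).1 ht
  obtain ⟨k1', k2', -⟩ := (S.I_mem t').1 ht'
  obtain ⟨w1, w2, w3⟩ := (cl_mem S A w0).1 hw
  have hpos : ∀ (v : Fin u → ℕ), (∀ c : Fin u, v c ∈ S.PS c) → ∀ U : Finset (Fin u),
      1 ≤ ∏ c ∈ U, v c := by
    intro v hv U
    refine Finset.one_le_prod' fun c _ => ?_
    exact (S.hPS c c.2 _ (hv c)).1.one_le
  refine ⟨t * ∏ c ∈ univ.filter (fun c : Fin u => ¬ Sum.inl c ∉ K), w0.1 c,
    t' * ∏ c ∈ univ.filter (fun c : Fin u => ¬ (c ∉ A ∧ Sum.inr c ∉ K)), w0.2 c,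
    Nat.mul_pos k1 (hpos _ w1 _), Nat.mul_pos k1' (hpos _ w2 _), fun z hz => ?_⟩
  rw [mem_cell] at hz
  obtain ⟨hz1, hz2⟩ := hz
  obtain ⟨z1, z2, z3⟩ := (cl_mem S A z).1 hz1
  unfold pr
  refine Prod.ext ?_ ?_
  · show t * ∏ c, z.1 c = _
    rw [← prod_filter_mul_prod_filter_not univ (fun c : Fin u => Sum.inl c ∉ K) z.1]
    have e1 : ∏ c ∈ univ.filter (fun c : Fin u => ¬ Sum.inl c ∉ K), z.1 c =
        ∏ c ∈ univ.filter (fun c : Fin u => ¬ Sum.inl c ∉ K), w0.1 c := by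
      refine prod_congr rfl fun c hc => ?_
      rw [mem_filter, not_not] at hc
      exact hz2 _ hc.2
    rw [e1]
    ring
  · show t' * ∏ c, z.2 c = _
    rw [← prod_filter_mul_prod_filter_not univ (fun c : Fin u => c ∉ A ∧ Sum.inr c ∉ K) z.2]
    have e1 : ∏ c ∈ univ.filter (fun c : Fin u => ¬ (c ∉ A ∧ Sum.inr c ∉ K)), z.2 c =
        ∏ c ∈ univ.filter (fun c : Fin u => ¬ (c ∉ A ∧ Sum.inr c ∉ K)), w0.2 c := by
      refine prod_congr rfl fun c hc => ?_
      rw [mem_filter] at hc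
      by_cases hcA : c ∈ A
      · have h1 : z.1 c = w0.1 c := hz2 _ (hth ((mem_thA_inl A c).2 hcA))
        rw [← (z3 c).2 hcA, ← (w3 c).2 hcA]
        exact h1
      · have h1 : Sum.inr c ∈ K := by
          by_contra hcon
          exact hc.2 ⟨hcA, hcon⟩
        exact hz2 _ h1
    rw [e1]
    ring

end Pool.Agent.Lib.MP_e426f4_ag.DL
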