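import Pool.Agent.Lib.MP_e426f4_ag.DL.Defs

/-!
# Sel2: selection of the levels, `j < #A` (pure arithmetic)

As `Sel1` (same notation) with `gain = ∑_{a<r} d min(l, k_(lev (a+1)) - k_(lev a)) + d l + d min(l, δ_j)`,
`cost = ∑_{a<r} δ_(lev a) + δ_j`, `g3(δ) = (d - 1) min(l, δ)`.  By strong induction on `t = j - i`:
(1) `l gain + (t + 2 l) δ_i ≥ l d (t + l) + l g3(δ_i) + min(m_i, l) δ_i + l cost`,
(2) `l r + min(m_i, l) ≤ 2 S_i + l`.  `Δ` is the difference of the two sides of (1), `δ = δ_i`.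
* `i = j`: `r = 0`, `d min(l, δ) - δ ≥ g3(δ) - 2 δ`.
* `S_i ≤ l`: next level `j`, `x = δ - δ_j`, `S_i = t + x ≤ l`, `m_i ≤ S_i`:
  `Δ ≥ l d min(l, δ-x) - l (d-1) min(l, δ) + l d x + l x - x δ`.  `δ ≤ l`: it is `l δ + x (l - δ)`.  `δ - x ≥ l`: `l² + x ((d+1) l - δ)`.
  `δ - x < l < δ`: `l (d δ - (d-1) l) + x (l - δ) ≥ l (d δ - (d-1) l - (δ - l)) ≥ 0` (`x ≤ l`).
* `S_i > l`, `m_i ≤ l`: next level `i'`, the largest with `k_i' - k_i ≤ l`, `a = i' - i`, `x = δ - δ_i'`, `a + x ≤ l`, `m_i' ≥ l - (a + x) + 1`,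
  `m_i ≤ 1 + x`, `t + x ≥ l - ...` is not needed: `Δ ≥ x ((d+1) l - 2 δ) + l [g3(δ-x) - g3(δ)]`.  `δ ≤ l`: the bracket is `-(d-1) x`, sum
  `x (2 l - 2 δ)`.  `δ - x ≥ l`: bracket `0`.  `δ - x < l < δ`: sum `x (2 l - 2 δ) + l (d-1) (δ - l) ≥ l (d-3) (δ - l) ≥ 0` (`x ≤ l`).
* `m_i > l`: next level `i + 1`, `x = m_i - 1 ≥ l`, `y = δ - x ≥ 1`:
  `Δ ≥ l² - l d + l g3(y) - 2 l y + δ + (t-1) x ≥ 0`: `l ≥ d`; `y ≤ l`: `g3(y) = (d-1) y`; `y > l`: `2 y ≤ (d-1) l` from `2 δ ≤ (d+1) l`, `x ≥ l`.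
The levels are the same as in `Sel1`.  (Work in `ℤ`; checked numerically.)
-/

set_option autoImplicit false

namespace Pool.Agent.Lib.MP_e426f4_ag.DL

open Finset

private theorem s2_kmono {j : ℕ} {k : ℕ → ℕ} (hk : ∀ i, i < j → k i < k (i + 1)) :
    ∀ b a, a ≤ b → b ≤ j → (b : ℤ) - a ≤ (k b : ℤ) - k a := by
  intro b
  induction b with
  | zero =>
    intro a ha hb
    have : a = 0 := by omega
    subst this
    simp
  | succ b ih =>
    intro a ha hb
    rcases Nat.lt_or_ge b a with h | h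
    · have : a = b + 1 := by omega
      subst this
      simp
    · have h1 := ih a h (by omega)
      have h2 := hk b (by omega)
      push_cast
      have h3 : (k b : ℤ) + 1 ≤ k (b + 1) := by exact_mod_cast h2
      linarith

/-- case `S ≤ l` -/
private theorem s2_arB (d l a x δ δ' μ : ℤ) (hd : 4 ≤ d) (hdl : d ≤ l) (hx : 0 ≤ x)
    (hax : a + x ≤ l) (hδ' : 1 ≤ δ') (hδ : δ = δ' + x) (ha : 0 ≤ a) (hμ : μ ≤ a + x)
    (h2 : 2 * δ ≤ (d + 1) * l) :
    l * (d * (a + l)) + l * ((d - 1) * min l δ) + μ * δ + l * (δ + δ') ≤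
      l * (d * min l (a + x) + d * l + d * min l δ') + (a + 2 * l) * δ := by
  have hl : 0 ≤ l := by linarith
  have hδ0 : 0 ≤ δ := by linarith
  have e1 : 0 ≤ (a + x - μ) * δ := mul_nonneg (by linarith) hδ0
  rw [min_eq_right hax]
  rcases le_total δ l with h | h
  · rw [min_eq_right h, min_eq_right (by linarith : δ' ≤ l)]
    subst hδ
    have e2 : 0 ≤ x * (l - (δ' + x)) := mul_nonneg hx (by linarith)
    have e3 : 0 ≤ l * (δ' + x) := mul_nonneg hl hδ0
    nlinarith [e1, e2, e3]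
  · rw [min_eq_left h]
    rcases le_total δ' l with h' | h'
    · rw [min_eq_right h']
      subst hδ
      have e2 : 0 ≤ (l - x) * (δ' + x - l) := mul_nonneg (by linarith) (by linarith)
      have e3 : 0 ≤ l * ((d - 1) * (δ' + x - l)) :=
        mul_nonneg hl (mul_nonneg (by linarith) (by linarith))
      have e4 : 0 ≤ l * l := mul_nonneg hl hl
      nlinarith [e1, e2, e3, e4]
    · rw [min_eq_left h']
      subst hδ
      have e2 : 0 ≤ x * ((d + 1) * l - (δ' + x)) := mul_nonneg hx (by linarith)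
      have e3 : 0 ≤ l * l := mul_nonneg hl hl
      nlinarith [e1, e2, e3]

/-- case `S > l`, `m ≤ l` -/
private theorem s2_arC (d l a x δ δ' μ μ' t' C G : ℤ) (hd : 4 ≤ d) (hdl : d ≤ l) (hx : 0 ≤ x)
    (hax : a + x ≤ l) (hδ' : 1 ≤ δ') (hδ : δ = δ' + x) (ha : 1 ≤ a) (ht : 1 ≤ t')
    (hμ' : l - (a + x) + 1 ≤ μ') (hμ : μ ≤ 1 + x)
    (h2 : 2 * δ ≤ (d + 1) * l)
    (hI : l * (d * (t' + l)) + l * ((d - 1) * min l δ') + μ' * δ' + l * C ≤
      l * G + (t' + 2 * l) * δ') :
    l * (d * (t' + a + l)) + l * ((d - 1) * min l δ) + μ * δ + l * (δ + C) ≤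
      l * (d * min l (a + x) + G) + (t' + a + 2 * l) * δ := by
  have hl : 0 ≤ l := by linarith
  have hδ0 : 0 ≤ δ := by linarith
  have e1 : 0 ≤ (1 + x - μ) * δ := mul_nonneg (by linarith) hδ0
  have e0 : 0 ≤ (μ' - (l - (a + x) + 1)) * δ' := mul_nonneg (by linarith) (by linarith)
  have e5 : 0 ≤ x * (t' + a + x - 1) := mul_nonneg hx (by linarith)
  rw [min_eq_right hax]
  rcases le_total δ l with h | h
  · rw [min_eq_right h]
    rw [min_eq_right (by linarith : δ' ≤ l)] at hI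
    subst hδ
    have e2 : 0 ≤ x * (l - (δ' + x)) := mul_nonneg hx (by linarith)
    nlinarith [e0, e1, e2, e5, hI]
  · rw [min_eq_left h]
    rcases le_total δ' l with h' | h'
    · rw [min_eq_right h'] at hI
      subst hδ
      have e2 : 0 ≤ (l - x) * (δ' + x - l) := mul_nonneg (by linarith) (by linarith)
      have e3 : 0 ≤ l * ((d - 3) * (δ' + x - l)) :=
        mul_nonneg hl (mul_nonneg (by linarith) (by linarith))
      nlinarith [e0, e1, e2, e3, e5, hI]
    · rw [min_eq_left h'] at hI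
      subst hδ
      have e2 : 0 ≤ x * ((d + 1) * l - 2 * (δ' + x)) := mul_nonneg hx (by linarith)
      nlinarith [e0, e1, e2, e5, hI]

/-- case `m > l` -/
private theorem s2_arD (d l x δ δ' μ' t' C G : ℤ) (hd : 4 ≤ d) (hdl : d ≤ l) (hx : l ≤ x)
    (hδ' : 1 ≤ δ') (hδ : δ = δ' + x) (ht : 0 ≤ t') (hμ' : 0 ≤ μ')
    (h2 : 2 * δ ≤ (d + 1) * l)
    (hI : l * (d * (t' + l)) + l * ((d - 1) * min l δ') + μ' * δ' + l * C ≤
      l * G + (t' + 2 * l) * δ') :
    l * (d * (t' + 1 + l)) + l * ((d - 1) * min l δ) + l * δ + l * (δ + C) ≤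
      l * (d * min l (1 + x) + G) + (t' + 1 + 2 * l) * δ := by
  have hl : 0 ≤ l := by linarith
  have hδ0 : 0 ≤ δ := by linarith
  have e0 : 0 ≤ μ' * δ' := mul_nonneg hμ' (by linarith)
  have e1 : 0 ≤ l * (l - d) := mul_nonneg hl (by linarith)
  have e5 : 0 ≤ x * t' := mul_nonneg (by linarith) ht
  rw [min_eq_left (by linarith : l ≤ 1 + x), min_eq_left (by linarith : l ≤ δ)]
  rcases le_total δ' l with h' | h'
  · rw [min_eq_right h'] at hI
    subst hδ
    have e2 : 0 ≤ l * ((d - 3) * δ') := mul_nonneg hl (mul_nonneg (by linarith) (by linarith))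
    nlinarith [e0, e1, e2, e5, hI]
  · rw [min_eq_left h'] at hI
    subst hδ
    have e2 : 0 ≤ l * ((d - 1) * l - 2 * δ') := mul_nonneg hl (by linarith)
    nlinarith [e0, e1, e2, e5, hI]

private theorem s2_cons {j i i' : ℕ} (hi : i < i') (hij : i' ≤ j) (r' : ℕ) (lev' : ℕ → ℕ)
    (h0 : lev' 0 = i') (hr : lev' r' = j) (hm : ∀ a, a < r' → lev' a < lev' (a + 1))
    (hle : ∀ a, a ≤ r' → lev' a ≤ j) (f : ℕ → ℕ → ℤ) (g : ℕ → ℤ) :
    ∃ lev : ℕ → ℕ, lev 0 = i ∧ lev (r' + 1) = j ∧ (∀ a, a < r' + 1 → lev a < lev (a + 1)) ∧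
      (∀ a, a ≤ r' + 1 → lev a ≤ j) ∧
      ∑ a ∈ range (r' + 1), f (lev a) (lev (a + 1)) =
        f i i' + ∑ a ∈ range r', f (lev' a) (lev' (a + 1)) ∧
      ∑ a ∈ range (r' + 1), g (lev a) = g i + ∑ a ∈ range r', g (lev' a) := by
  refine ⟨fun a => Nat.casesOn a i lev', rfl, hr, ?_, ?_, ?_, ?_⟩
  · intro a ha
    cases a with
    | zero =>
      show i < lev' 0
      rw [h0]
      exact hi
    | succ a => exact hm a (by omega)
  · intro a ha
    cases a with
    | zero =>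
      show i ≤ j
      omega
    | succ a => exact hle a (by omega)
  · rw [sum_range_succ']
    simp only [h0]
    exact add_comm _ _
  · rw [sum_range_succ']
    exact add_comm _ _

private noncomputable def s2dz (n j : ℕ) (k : ℕ → ℕ) (i : ℕ) : ℤ := (n : ℤ) - k i - ((j : ℤ) - i)

open Classical in
private noncomputable def s2mu (l j : ℕ) (k : ℕ → ℕ) (i : ℕ) : ℤ :=
  if i < j then min ((k (i + 1) : ℤ) - k i) l else 0

private def s2PP (d l n j : ℕ) (k : ℕ → ℕ) (i : ℕ) : Prop :=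
  ∃ (r : ℕ) (lev : ℕ → ℕ), lev 0 = i ∧ lev r = j ∧ (∀ a, a < r → lev a < lev (a + 1)) ∧
    (∀ a, a ≤ r → lev a ≤ j) ∧
    (l : ℤ) * r + s2mu l j k i ≤ 2 * ((k j : ℤ) - k i) + l ∧
    (l : ℤ) * (d * (((j : ℤ) - i) + l)) + l * (((d : ℤ) - 1) * min (l : ℤ) (s2dz n j k i)) +
      s2mu l j k i * s2dz n j k i +
      l * ((∑ a ∈ range r, s2dz n j k (lev a)) + s2dz n j k j) ≤
    l * ((∑ a ∈ range r, (d : ℤ) * min (l : ℤ) ((k (lev (a + 1)) : ℤ) - k (lev a))) + d * l +
      d * min (l : ℤ) (s2dz n j k j)) + (((j : ℤ) - i) + 2 * l) * s2dz n j k i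

private theorem s2_main (d l n j : ℕ) (k : ℕ → ℕ) (hd : 4 ≤ d) (hdl : d ≤ l)
    (hk : ∀ i, i < j → k i < k (i + 1)) (hkn : k j < n) (hn : 2 * n ≤ (d + 1) * l) :
    ∀ t i, i + t = j → s2PP d l n j k i := by
  have hd' : (4 : ℤ) ≤ d := by exact_mod_cast hd
  have hdl' : (d : ℤ) ≤ l := by exact_mod_cast hdl
  have hn' : 2 * (n : ℤ) ≤ (d + 1) * l := by exact_mod_cast hn
  have hkn' : (k j : ℤ) + 1 ≤ n := by exact_mod_cast hkn
  have hM := s2_kmono hk
  have hdz1 : ∀ i, i ≤ j → 1 ≤ s2dz n j k i := by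
    intro i hi
    have := hM j i hi le_rfl
    unfold s2dz
    linarith
  have hdz2 : ∀ i, i ≤ j → 2 * s2dz n j k i ≤ ((d : ℤ) + 1) * l := by
    intro i hi
    have h1 : (i : ℤ) ≤ j := by exact_mod_cast hi
    have h2 : (0 : ℤ) ≤ k i := by positivity
    unfold s2dz
    linarith
  have hdif : ∀ a b, a ≤ b → b ≤ j → s2dz n j k b ≤ s2dz n j k a := by
    intro a b hab hb
    have := hM b a hab hb
    unfold s2dz
    linarith
  intro t
  induction t using Nat.strong_induction_on with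
  | _ t ih =>
  intro i hit
  rcases Nat.eq_zero_or_pos t with ht0 | htpos
  · -- i = j
    have hij : i = j := by omega
    subst hij
    have h1 := hdz1 i le_rfl
    refine ⟨0, fun _ => i, rfl, rfl, fun a ha => absurd ha (by omega), fun a _ => le_rfl, ?_, ?_⟩
    · have : s2mu l i k i = 0 := by
        unfold s2mu
        rw [if_neg (lt_irrefl i)]
      rw [this]
      have hl0 : (0 : ℤ) ≤ l := by positivity
      simp
    · have hmu : s2mu l i k i = 0 := by
        unfold s2mu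
        rw [if_neg (lt_irrefl i)]
      rw [hmu]
      simp only [range_zero, sum_empty]
      have hl0 : (0 : ℤ) ≤ l := by positivity
      have h2 : (0 : ℤ) ≤ min (l : ℤ) (s2dz n i k i) := le_min hl0 (by linarith)
      have e1 : (0 : ℤ) ≤ l * min (l : ℤ) (s2dz n i k i) := mul_nonneg hl0 h2
      have e2 : (0 : ℤ) ≤ l * s2dz n i k i := mul_nonneg hl0 (by linarith)
      nlinarith [e1, e2]
  have hij : i < j := by omega
  have hmui : s2mu l j k i = min ((k (i + 1) : ℤ) - k i) l := by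
    unfold s2mu
    rw [if_pos hij]
  have hmono1 := hM j (i + 1) (by omega) le_rfl
  push_cast at hmono1
  have hki := hk i hij
  have hki' : (k i : ℤ) + 1 ≤ k (i + 1) := by exact_mod_cast hki
  have hijz : (i : ℤ) + 1 ≤ j := by exact_mod_cast hij
  by_cases hS : (k j : ℤ) - k i ≤ l
  · -- one step
    obtain ⟨lev, c0, cr, cm, cle, cs1, cs2⟩ := s2_cons (i := i) (i' := j) hij le_rfl 0
      (fun _ => j) rfl rfl (fun a ha => absurd ha (by omega)) (fun a _ => le_rfl)
      (fun p q => (d : ℤ) * min (l : ℤ) ((k q : ℤ) - k p)) (fun p => s2dz n j k p)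
    simp only [range_zero, sum_empty, add_zero] at cs1 cs2
    have hmu : s2mu l j k i ≤ (k j : ℤ) - k i := by
      rw [hmui]
      refine (min_le_left _ _).trans ?_
      linarith
    refine ⟨0 + 1, lev, c0, cr, cm, cle, ?_, ?_⟩
    · push_cast
      have : (0 : ℤ) ≤ (k j : ℤ) - k i := by linarith
      linarith
    · rw [cs1, cs2]
      have h := s2_arB d l ((j : ℤ) - i) (s2dz n j k i - s2dz n j k j) (s2dz n j k i)
        (s2dz n j k j) (s2mu l j k i) hd' hdl' (by linarith [hdif i j hij.le le_rfl])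
        (by unfold s2dz; linarith) (hdz1 j le_rfl) (by ring) (by linarith)
        (by
          refine hmu.trans (le_of_eq ?_)
          unfold s2dz
          ring) (hdz2 i hij.le)
      have e : ((j : ℤ) - i) + (s2dz n j k i - s2dz n j k j) = (k j : ℤ) - k i := by
        unfold s2dz
        ring
      rw [e] at h
      linarith
  push Not at hS
  by_cases hm : (k (i + 1) : ℤ) - k i ≤ l
  · -- the largest index
    have hex : ∃ q, i < q ∧ q ≤ j ∧ (l : ℤ) < (k q : ℤ) - k i := ⟨j, hij, le_rfl, hS⟩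
    obtain ⟨q, ⟨hq1, hq2, hq3⟩, hqmin⟩ : ∃ q, (i < q ∧ q ≤ j ∧ (l : ℤ) < (k q : ℤ) - k i) ∧
        ∀ p, p < q → ¬ (i < p ∧ p ≤ j ∧ (l : ℤ) < (k p : ℤ) - k i) := by
      classical
      exact ⟨Nat.find hex, Nat.find_spec hex, fun p hp => Nat.find_min hex hp⟩
    have hqi : q ≠ i + 1 := by
      intro h
      rw [h] at hq3
      linarith
    obtain ⟨i', rfl⟩ : ∃ i', q = i' + 1 := ⟨q - 1, by omega⟩
    have hi' : i < i' := by omega
    have hi'j : i' < j := by omega
    have hki1 : (k i' : ℤ) - k i ≤ l := by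
      by_contra h
      exact hqmin i' (by omega) ⟨hi', by omega, not_le.mp h⟩
    obtain ⟨r', lev', l0, lr, lm, lle, h2', h1'⟩ := ih (j - i') (by omega) i' (by omega)
    obtain ⟨lev, c0, cr, cm, cle, cs1, cs2⟩ := s2_cons (i := i) (i' := i') hi' hi'j.le r'
      lev' l0 lr lm lle
      (fun p q => (d : ℤ) * min (l : ℤ) ((k q : ℤ) - k p)) (fun p => s2dz n j k p)
    have hmui' : s2mu l j k i' = min ((k (i' + 1) : ℤ) - k i') l := by
      unfold s2mu
      rw [if_pos hi'j]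
    have hi'z : (i : ℤ) + 1 ≤ i' := by exact_mod_cast hi'
    have hi'jz : (i' : ℤ) + 1 ≤ j := by exact_mod_cast hi'j
    have hmm := hM i' i hi'.le hi'j.le
    have hmm1 := hM i' (i + 1) hi' hi'j.le
    push_cast at hmm1
    have hmuge : (l : ℤ) - ((k i' : ℤ) - k i) + 1 ≤ s2mu l j k i' := by
      rw [hmui']
      refine le_min ?_ ?_ <;> linarith
    have hmule : s2mu l j k i ≤ (k (i + 1) : ℤ) - k i := by
      rw [hmui]
      exact min_le_left _ _
    refine ⟨r' + 1, lev, c0, cr, cm, cle, ?_, ?_⟩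
    · push_cast
      linarith
    · rw [cs1, cs2]
      have h := s2_arC d l ((i' : ℤ) - i) (s2dz n j k i - s2dz n j k i') (s2dz n j k i)
        (s2dz n j k i') (s2mu l j k i) (s2mu l j k i') ((j : ℤ) - i')
        ((∑ a ∈ range r', s2dz n j k (lev' a)) + s2dz n j k j)
        ((∑ a ∈ range r', (d : ℤ) * min (l : ℤ) ((k (lev' (a + 1)) : ℤ) - k (lev' a))) + d * l +
          d * min (l : ℤ) (s2dz n j k j))
        hd' hdl' (by linarith [hdif i i' hi'.le hi'j.le])
        (by unfold s2dz; linarith) (hdz1 i' hi'j.le) (by ring) (by linarith) (by linarith)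
        (by
          refine le_trans (le_of_eq ?_) hmuge
          unfold s2dz
          ring)
        (by
          refine hmule.trans ?_
          unfold s2dz
          linarith) (hdz2 i hij.le) h1'
      have e : ((i' : ℤ) - i) + (s2dz n j k i - s2dz n j k i') = (k i' : ℤ) - k i := by
        unfold s2dz
        ring
      rw [e] at h
      have e2 : (j : ℤ) - i' + ((i' : ℤ) - i) = (j : ℤ) - i := by ring
      rw [e2] at h
      linarith
  · -- m > l
    push Not at hm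
    obtain ⟨r', lev', l0, lr, lm, lle, h2', h1'⟩ := ih (j - (i + 1)) (by omega) (i + 1) (by omega)
    obtain ⟨lev, c0, cr, cm, cle, cs1, cs2⟩ := s2_cons (i := i) (i' := i + 1) (by omega)
      (by omega) r' lev' l0 lr lm lle
      (fun p q => (d : ℤ) * min (l : ℤ) ((k q : ℤ) - k p)) (fun p => s2dz n j k p)
    have hmueq : s2mu l j k i = l := by
      rw [hmui]
      exact min_eq_right (by linarith)
    have hmu0 : 0 ≤ s2mu l j k (i + 1) := by
      unfold s2mu
      split_ifs with h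
      · have := hk (i + 1) h
        have h3 : (k (i + 1) : ℤ) + 1 ≤ k (i + 1 + 1) := by exact_mod_cast this
        refine le_min (by linarith) (by positivity)
      · exact le_rfl
    refine ⟨r' + 1, lev, c0, cr, cm, cle, ?_, ?_⟩
    · rw [hmueq]
      push_cast
      linarith
    · rw [cs1, cs2, hmueq]
      have h := s2_arD d l (s2dz n j k i - s2dz n j k (i + 1)) (s2dz n j k i)
        (s2dz n j k (i + 1)) (s2mu l j k (i + 1)) ((j : ℤ) - ((i + 1 : ℕ) : ℤ))
        ((∑ a ∈ range r', s2dz n j k (lev' a)) + s2dz n j k j)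
        ((∑ a ∈ range r', (d : ℤ) * min (l : ℤ) ((k (lev' (a + 1)) : ℤ) - k (lev' a))) + d * l +
          d * min (l : ℤ) (s2dz n j k j))
        hd' hdl' (by unfold s2dz; push_cast; linarith) (hdz1 (i + 1) (by omega)) (by ring)
        (by push_cast; linarith) hmu0 (hdz2 i hij.le) h1'
      have e : 1 + (s2dz n j k i - s2dz n j k (i + 1)) = (k (i + 1) : ℤ) - k i := by
        unfold s2dz
        push_cast
        ring
      rw [e] at h
      have e2 : (j : ℤ) - ((i + 1 : ℕ) : ℤ) + 1 = (j : ℤ) - i := by push_cast; ring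
      rw [e2] at h
      linarith

theorem sel2 (d l n j : ℕ) (k : ℕ → ℕ) (hd : 4 ≤ d) (hdl : d ≤ l) (hk : ∀ i, i < j → k i < k (i + 1))
    (hkn : k j < n) (hn : 2 * n ≤ (d + 1) * l) :
    ∃ (r : ℕ) (lev : ℕ → ℕ), lev r = j ∧ (∀ a, a < r → lev a < lev (a + 1)) ∧ l * r ≤ 2 * n + l ∧
      l * (d * (j + l)) + l * ((d - 1) * min l (dlt n j k 0)) +
        l * ((∑ a ∈ range r, dlt n j k (lev a)) + dlt n j k j) ≤
      l * ((∑ a ∈ range r, d * min l (k (lev (a + 1)) - k (lev a))) + d * l +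
        d * min l (dlt n j k j)) + (j + 2 * l) * dlt n j k 0 := by
  obtain ⟨r, lev, c0, cr, cm, cle, h2, h1⟩ := s2_main d l n j k hd hdl hk hkn hn j 0 (by omega)
  have hM := s2_kmono hk
  have hd' : (4 : ℤ) ≤ d := by exact_mod_cast hd
  have hdz1 : ∀ i, i ≤ j → 1 ≤ s2dz n j k i := by
    intro i hi
    have := hM j i hi le_rfl
    have hkn' : (k j : ℤ) + 1 ≤ n := by exact_mod_cast hkn
    unfold s2dz
    linarith
  have hcast : ∀ i, i ≤ j → ((dlt n j k i : ℕ) : ℤ) = s2dz n j k i := by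
    intro i hi
    have h3 := hM j i hi le_rfl
    have h5 : (j : ℤ) - i ≥ 0 := by
      have : (i : ℤ) ≤ j := by exact_mod_cast hi
      linarith
    have h4 : j - i ≤ k j - k i := by omega
    have h6 : k i ≤ k j := by
      have : (k i : ℤ) ≤ k j := by linarith
      exact_mod_cast this
    unfold dlt s2dz
    rw [Nat.cast_sub (by omega), Nat.cast_sub (by omega), Nat.cast_sub hi]
  have hmunn : 0 ≤ s2mu l j k 0 := by
    unfold s2mu
    split_ifs with h
    · have := hk 0 h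
      have h3 : (k 0 : ℤ) + 1 ≤ k (0 + 1) := by exact_mod_cast this
      refine le_min (by linarith) (by positivity)
    · exact le_rfl
  refine ⟨r, lev, cr, cm, ?_, ?_⟩
  · have hkj : (k j : ℤ) + 1 ≤ n := by exact_mod_cast hkn
    have hk0 : (0 : ℤ) ≤ k 0 := by positivity
    have : (l : ℤ) * r ≤ 2 * n + l := by linarith
    exact_mod_cast this
  · have e0 : (0 : ℤ) ≤ s2mu l j k 0 * s2dz n j k 0 :=
      mul_nonneg hmunn (by linarith [hdz1 0 (Nat.zero_le _)])
    have hs1 : (((∑ a ∈ range r, dlt n j k (lev a)) : ℕ) : ℤ) =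
        ∑ a ∈ range r, s2dz n j k (lev a) := by
      rw [Nat.cast_sum]
      exact sum_congr rfl fun a ha => hcast _ (cle a (mem_range.mp ha).le)
    have hs2 : (((∑ a ∈ range r, d * min l (k (lev (a + 1)) - k (lev a))) : ℕ) : ℤ) =
        ∑ a ∈ range r, (d : ℤ) * min (l : ℤ) ((k (lev (a + 1)) : ℤ) - k (lev a)) := by
      rw [Nat.cast_sum]
      refine sum_congr rfl fun a ha => ?_
      have ha' := mem_range.mp ha
      have h3 := hM (lev (a + 1)) (lev a) (cm a ha').le (cle (a + 1) (by omega))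
      have h4 : (lev a : ℤ) ≤ lev (a + 1) := by exact_mod_cast (cm a ha').le
      have h5 : k (lev a) ≤ k (lev (a + 1)) := by
        have : (k (lev a) : ℤ) ≤ k (lev (a + 1)) := by linarith
        exact_mod_cast this
      rw [Nat.cast_mul, Nat.cast_min, Nat.cast_sub h5]
    have hd1 : ((d - 1 : ℕ) : ℤ) = (d : ℤ) - 1 := by
      rw [Nat.cast_sub (by omega)]
      simp
    have goal : ((l * (d * (j + l)) + l * ((d - 1) * min l (dlt n j k 0)) +
        l * ((∑ a ∈ range r, dlt n j k (lev a)) + dlt n j k j) : ℕ) : ℤ) ≤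
      ((l * ((∑ a ∈ range r, d * min l (k (lev (a + 1)) - k (lev a))) + d * l +
        d * min l (dlt n j k j)) + (j + 2 * l) * dlt n j k 0 : ℕ) : ℤ) := by
      rw [Nat.cast_add, Nat.cast_add, Nat.cast_mul, Nat.cast_mul, Nat.cast_add,
        Nat.cast_mul, Nat.cast_mul, Nat.cast_min, Nat.cast_mul, Nat.cast_add, hs1, hd1,
        hcast 0 (Nat.zero_le _), hcast j le_rfl, Nat.cast_add, Nat.cast_mul, Nat.cast_add,
        Nat.cast_add, hs2, Nat.cast_mul, Nat.cast_mul, Nat.cast_min, Nat.cast_mul, Nat.cast_add,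
        Nat.cast_mul, hcast 0 (Nat.zero_le _), hcast j le_rfl]
      push_cast
      simp only [Nat.cast_zero, sub_zero] at h1
      linarith
    exact_mod_cast goal

end Pool.Agent.Lib.MP_e426f4_ag.DL
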