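import Pool.Agent.Lib.MP_e426f4_ag.DL.ClC

/-!
# Pat: independence of a pattern

By descending induction on `a0 ≤ r`: the images of `B0 ∪ {z a : a0 ≤ a < r}` satisfy
`IndM d H (Mb W^(∑_{a ∈ Ico a0 r} d min(l, k_(lev (a+1)) - k_(lev a))))`, and all these elements lie in `Cl A` and agree with `w` on `K (lev a0)`
(monotone: `K (lev a) ⊆ K (lev (a+1))`, `lev r = j`).  Step: `y = z a`, `J' ⊆ K (lev (a+1)) \ K (lev a)` with
`min(l, card)` elements (`exists_subset_card_eq`), `1 ≤ #J'`; the elements of the old set agree with `w` on `J'`, `z a` differs from `w` on `J'`.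
Use `indM_ext` as in `cl_ext` (`ClB`; there `M` has the form `W^(dN)`, copy its proof with a general `M`, `N := W^(d #J')`).
-/

set_option autoImplicit false

namespace Pool.Agent.Lib.MP_e426f4_ag.DL

open Finset
open Pool.Agent.Lib.MP_e426f4_ag.DG
open Pool.Agent.Lib.MP_e426f4_ag.DK

private theorem cl_ext_gen {d s u l e m w E : ℕ} (S : Su d s u l e m w E) (t t' : ℕ) (ht : t ∈ S.I)
    (ht' : t' ∈ S.I) (A : Finset (Fin u)) (Z : Finset ((Fin u → ℕ) × (Fin u → ℕ)))
    (J' : Finset (Fin u ⊕ Fin u)) (v : Fin u ⊕ Fin u → ℕ) (M : ℕ)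
    (y : (Fin u → ℕ) × (Fin u → ℕ)) (hZ : Z ⊆ S.Cl A) (hZn : Z.Nonempty)
    (hJF : ∀ c : Fin u, Sum.inr c ∈ J' → c ∉ A) (hJ1 : 1 ≤ J'.card) (hJl : J'.card ≤ l)
    (hv : ∀ z ∈ Z, ∀ c ∈ J', ka c z = v c) (hy : y ∈ S.Cl A) (hyv : ∀ c ∈ J', ka c y ≠ v c)
    (hQ : IndM d S.H M (Z.image (pr t t'))) :
    IndM d S.H (M * S.W ^ (d * J'.card)) ((insert y Z).image (pr t t')) := by
  obtain ⟨z0, hz0⟩ := hZn
  obtain ⟨c0, hc0⟩ := card_pos.1 hJ1
  have hvm : ∀ c ∈ J', v c ∈ S.PS (ix c) := fun c hc => by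
    rw [← hv z0 hz0 c hc]
    exact ka_mem S A z0 (hZ hz0) c
  have hW := S.W_pos
  have hyZ : pr t t' y ∉ Z.image (pr t t') := by
    intro h
    obtain ⟨z, hz, hzy⟩ := mem_image.1 h
    have := cl_inj S t t' ht ht' A (hZ hz) hy hzy
    subst this
    exact hyv c0 hc0 (hv z hz c0 hc0)
  rw [image_insert]
  refine indM_ext d S.H M (S.W ^ (d * J'.card)) (Z.image (pr t t')) (pr t t' y) hyZ hQ
    J' v Sum.isLeft ?_ ?_ ?_ ?_ ?_ ?_ ?_
  · intro c hc
    exact (S.hPS (ix c) (ix c).2 (v c) (hvm c hc)).1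
  · intro c hc c' hc' h
    by_contra hne
    have h1 := hvm c hc
    have h2 := hvm c' hc'
    rw [← h] at h2
    have h3 : ix c = ix c' := by
      by_contra h4
      have h5 : (ix c : ℕ) ≠ (ix c' : ℕ) := fun h6 => h4 (Fin.ext h6)
      exact (Finset.disjoint_left.1 (S.hPd _ _ (ix c).2 (ix c').2 h5) h1) h2
    obtain ⟨-, -, k3⟩ := (cl_mem S A z0).1 (hZ hz0)
    have e1 := hv z0 hz0 c hc
    have e2 := hv z0 hz0 c' hc'
    rcases c with c | c <;> rcases c' with c' | c'
    · exact hne (congrArg _ h3)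
    · have h4 : c = c' := h3
      subst h4
      have h5 : z0.1 c = z0.2 c := by
        change z0.1 c = _ at e1
        change z0.2 c = _ at e2
        rw [e1, e2, h]
      exact hJF c hc' ((k3 c).1 h5)
    · have h4 : c = c' := h3
      subst h4
      have h5 : z0.1 c = z0.2 c := by
        change z0.2 c = _ at e1
        change z0.1 c = _ at e2
        rw [e1, e2, h]
      exact hJF c hc ((k3 c).1 h5)
    · exact hne (congrArg _ h3)
  · intro c hc x hx
    obtain ⟨z, hz, rfl⟩ := mem_image.1 hx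
    rw [← hv z hz c hc]
    exact cl_dvd t t' z c
  · intro c hc
    exact cl_ndvd S t t' ht ht' A y hy c (v c) (hvm c hc) (hyv c hc)
  · exact Nat.one_le_pow _ _ hW
  · refine le_trans (Nat.pow_le_pow_right hW ?_) S.H_ge'
    exact Nat.mul_le_mul_left _ hJl
  · calc S.W ^ (d * J'.card) = ∏ _c ∈ J', S.W ^ d := by rw [prod_const, ← pow_mul]
      _ ≤ ∏ c ∈ J', v c ^ d := by
        refine prod_le_prod' fun c hc => Nat.pow_le_pow_left ?_ d
        exact (S.hPS (ix c) (ix c).2 (v c) (hvm c hc)).2.1.le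

private theorem mem_cell' {α C : Type} (ka : C → α → ℕ) (Z : Finset α) (K : Finset C) (w y : α) :
    y ∈ cell ka Z K w ↔ y ∈ Z ∧ ∀ c ∈ K, ka c y = ka c w := by
  unfold cell
  exact mem_filter

private theorem mem_dcell' {α C : Type} [DecidableEq C] (ka : C → α → ℕ) (Z : Finset α)
    (F K : Finset C) (w y : α) :
    y ∈ dcell ka Z F K w ↔ y ∈ Z ∧ (∀ c ∈ K, ka c y = ka c w) ∧ ∀ c ∈ F \ K, ka c y ≠ ka c w := by
  unfold dcell
  exact mem_filter

private theorem ch_mono {C : Type} {F th : Finset C} {j : ℕ} {K : ℕ → Finset C}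
    (hK : IsCh F th j K) (a : ℕ) : ∀ b, a ≤ b → b ≤ j → K a ⊆ K b := by
  intro b
  induction b with
  | zero =>
    intro h _
    have : a = 0 := by omega
    subst this
    exact Subset.refl _
  | succ b ih =>
    intro h hb
    rcases Nat.lt_or_ge b a with h1 | h1
    · have : a = b + 1 := by omega
      subst this
      exact Subset.refl _
    · exact (ih h1 (by omega)).trans (hK.ssub b (by omega)).1

private theorem ch_lt {C : Type} {F th : Finset C} {j : ℕ} {K : ℕ → Finset C}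
    (hK : IsCh F th j K) (a b : ℕ) (h : a < b) (hb : b ≤ j) : K a ⊂ K b :=
  (hK.ssub a (by omega)).trans_subset (ch_mono hK (a + 1) b h hb)

open Classical in
theorem pat_ind {d s u l e m w E : ℕ} (S : Su d s u l e m w E) (t t' : ℕ) (ht : t ∈ S.I)
    (ht' : t' ∈ S.I) (A : Finset (Fin u)) (j : ℕ) (K : ℕ → Finset (Fin u ⊕ Fin u))
    (hK : IsCh (FA A) (thA A) j K) (w0 : (Fin u → ℕ) × (Fin u → ℕ)) (hw : w0 ∈ S.Cl A) (r : ℕ)
    (lev : ℕ → ℕ) (hr : lev r = j) (hmono : ∀ a, a < r → lev a < lev (a + 1))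
    (z : Fin r → (Fin u → ℕ) × (Fin u → ℕ))
    (hz : ∀ a : Fin r, z a ∈ dcell ka (S.Cl A) (FA A) (K (lev a)) w0)
    (B0 : Finset ((Fin u → ℕ) × (Fin u → ℕ))) (Mb : ℕ)
    (hB0 : ∀ y ∈ B0, y ∈ cell ka (S.Cl A) (K j) w0) (hw0 : w0 ∈ B0)
    (hI : IndM d S.H Mb (B0.image (pr t t'))) :
    IndM d S.H (Mb * S.W ^ (∑ a ∈ range r, d * min l ((K (lev (a + 1))).card - (K (lev a)).card)))
      ((B0 ∪ (univ : Finset (Fin r)).image z).image (pr t t')) := by
  have hl : 1 ≤ l := by
    by_contra h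
    have h0 : l = 0 := by omega
    have := S.hle
    rw [h0, Nat.mul_zero] at this
    omega
  have hlevle : ∀ b, b ≤ r → lev (r - b) ≤ j := by
    intro b
    induction b with
    | zero => intro _; rw [Nat.sub_zero, hr]
    | succ b ih =>
      intro hb
      have h1 := ih (by omega)
      have h2 := hmono (r - (b + 1)) (by omega)
      rw [show r - (b + 1) + 1 = r - b by omega] at h2
      omega
  have hlev : ∀ a, a ≤ r → lev a ≤ j := by
    intro a ha
    have := hlevle (r - a) (by omega)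
    rwa [show r - (r - a) = a by omega] at this
  have key : ∀ b, b ≤ r →
      (∀ y ∈ B0 ∪ ((univ : Finset (Fin r)).filter fun a : Fin r => r - b ≤ (a : ℕ)).image z,
        y ∈ S.Cl A ∧ ∀ c ∈ K (lev (r - b)), ka c y = ka c w0) ∧
      IndM d S.H (Mb * S.W ^ (∑ a ∈ Ico (r - b) r,
          d * min l ((K (lev (a + 1))).card - (K (lev a)).card)))
        ((B0 ∪ ((univ : Finset (Fin r)).filter fun a : Fin r => r - b ≤ (a : ℕ)).image z).image
          (pr t t')) := by
    intro b
    induction b with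
    | zero =>
      intro _
      have he : ((univ : Finset (Fin r)).filter fun a : Fin r => r - 0 ≤ (a : ℕ)) = ∅ := by
        apply filter_eq_empty_iff.2
        intro a _
        have := a.2
        omega
      rw [he, image_empty, union_empty, Nat.sub_zero, hr, Ico_self, sum_empty, pow_zero, Nat.mul_one]
      refine ⟨fun y hy => ?_, hI⟩
      exact (mem_cell' _ _ _ _ _).1 (hB0 y hy)
    | succ b ih =>
      intro hb
      obtain ⟨h1, h2⟩ := ih (by omega)
      obtain ⟨a0, ha0⟩ : ∃ a0, a0 = r - (b + 1) := ⟨_, rfl⟩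
      have ha1 : r - b = a0 + 1 := by omega
      have har : a0 < r := by omega
      rw [← ha0]
      rw [ha1] at h1 h2
      obtain ⟨Z, hZdef⟩ : ∃ Z, Z = B0 ∪ ((univ : Finset (Fin r)).filter fun a : Fin r => a0 + 1 ≤ (a : ℕ)).image z :=
        ⟨_, rfl⟩
      rw [← hZdef] at h1 h2
      have hins : B0 ∪ ((univ : Finset (Fin r)).filter fun a : Fin r => a0 ≤ (a : ℕ)).image z =
          insert (z ⟨a0, har⟩) Z := by
        rw [hZdef]
        ext y
        simp only [mem_union, mem_image, mem_filter, mem_univ, true_and, mem_insert]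
        constructor
        · rintro (h3 | ⟨a, h3, rfl⟩)
          · exact Or.inr (Or.inl h3)
          · rcases Nat.lt_or_ge a0 a with h4 | h4
            · exact Or.inr (Or.inr ⟨a, h4, rfl⟩)
            · left
              congr 1
              exact Fin.ext (by change (a : ℕ) = a0; omega)
        · rintro (rfl | h3 | ⟨a, h3, rfl⟩)
          · exact Or.inr ⟨⟨a0, har⟩, le_rfl, rfl⟩
          · exact Or.inl h3
          · exact Or.inr ⟨a, by omega, rfl⟩
      obtain ⟨hzc, hze, hzn⟩ := (mem_dcell' _ _ _ _ _ _).1 (hz ⟨a0, har⟩)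
      change ∀ c ∈ K (lev a0), ka c (z ⟨a0, har⟩) = ka c w0 at hze
      change ∀ c ∈ FA A \ K (lev a0), ka c (z ⟨a0, har⟩) ≠ ka c w0 at hzn
      have hlt := ch_lt hK (lev a0) (lev (a0 + 1)) (hmono a0 har) (hlev _ (by omega))
      have hcl := card_lt_card hlt
      obtain ⟨J', hJs, hJc⟩ := exists_subset_card_eq
        (s := K (lev (a0 + 1)) \ K (lev a0))
        (n := min l ((K (lev (a0 + 1))).card - (K (lev a0)).card))
        (by rw [card_sdiff_of_subset hlt.1]; exact min_le_right _ _)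
      have hJ1 : 1 ≤ J'.card := by rw [hJc]; omega
      have hJl : J'.card ≤ l := by rw [hJc]; exact min_le_left _ _
      have hsubF := hK.sub (lev (a0 + 1)) (hlev _ (by omega))
      have h3 := cl_ext_gen S t t' ht ht' A Z J' (fun c => ka c w0) _ (z ⟨a0, har⟩)
        (fun y hy => (h1 y hy).1)
        ⟨w0, by rw [hZdef]; exact mem_union_left _ hw0⟩
        (fun c hc => by
          have h4 := hsubF (mem_sdiff.1 (hJs hc)).1
          exact (mem_FA_inr A c).1 h4)
        hJ1 hJl
        (fun y hy c hc => (h1 y hy).2 c (mem_sdiff.1 (hJs hc)).1)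
        hzc
        (fun c hc => by
          have h4 := mem_sdiff.1 (hJs hc)
          exact hzn c (mem_sdiff.2 ⟨hsubF h4.1, h4.2⟩))
        h2
      rw [hins]
      refine ⟨?_, ?_⟩
      · intro y hy
        rcases mem_insert.1 hy with rfl | hy
        · exact ⟨hzc, hze⟩
        · exact ⟨(h1 y hy).1, fun c hc => (h1 y hy).2 c (hlt.1 hc)⟩
      · have hsum : ∑ a ∈ Ico a0 r, d * min l ((K (lev (a + 1))).card - (K (lev a)).card) =
            (∑ a ∈ Ico (a0 + 1) r, d * min l ((K (lev (a + 1))).card - (K (lev a)).card)) +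
              d * J'.card := by
          rw [sum_eq_sum_Ico_succ_bot har, hJc, Nat.add_comm]
        rw [hsum, pow_add, ← Nat.mul_assoc]
        exact h3
  obtain ⟨-, h2⟩ := key r le_rfl
  have hf : ((univ : Finset (Fin r)).filter fun a : Fin r => r - r ≤ (a : ℕ)) = univ := by
    apply filter_true_of_mem
    intro a _
    omega
  rw [hf, Nat.sub_self, ← range_eq_Ico] at h2
  exact h2

end Pool.Agent.Lib.MP_e426f4_ag.DL
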