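import Pool.Agent.Lib.MP_e426f4_ag.DL.DCount
import Pool.Agent.Lib.MP_e426f4_ag.DL.Pat
import Pool.Agent.Lib.MP_e426f4_ag.DL.Base1
import Pool.Agent.Lib.MP_e426f4_ag.DK.Meas

/-!
# Type1: the pairs `((b, b'), w)` of a fixed type, `#A ≤ j`

`n = #FA A`, `k i = #K i`, `δ_i = dlt n j k i`; `k_j < n` (`hK.ne`, `hK.sub`), `thA A ⊆ K j` (`hK.th`, `card_thA`).
Let `g = min(d l, (d-1) δ_j) ≥ 1`, `N' = R^(w g - 1)`, `N' R = W^g`, `2 4^u N' ≤ R N' ≤ W^((d-1) δ_j)`, `N' ≤ W^(d l)`.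
`dcount` with `Zs o = Zo S t t' A o`, `β` the pairs `(v, o₀)`, `Bp o w b : b.1 ∈ Zo o ∧ b.2 ∈ Zo o`, `Y = Cl A`,
`YB w = {(v, o₀) ∈ D × D : v ≠ o₀, ¬ Bad d N' (pr w) (pr v) (pr o₀)}`, `D = dcell ka (Cl A) (FA A) (K j) w`,
`Ya a w = dcell ka (Cl A) (FA A) (K (lev a)) w`, `qa a = R^3 p^(j - lev a)`, `na a = p^(n - k (lev a))`, `qb = R^5`, `nb = (p^(n - k j))^2`.
* `hqb`: `D' = dcell ka (Zo o) (FA A) (K j) w` has at least `R^3` elements; for each `v ∈ D'` there are at least `|D'| - R^2 - 1` elements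
  `o₀ ∈ D'`, `o₀ ≠ v`, not bad (`base1_few`); `R^3 (R^3 - R^2 - 1) ≥ R^5`.
* `hna`, `hnb`: `cl_card_le` (`dcell ⊆ cell`).
* `hM`: `pat_ind` with `B0 = {w, v, o₀}` (`base1_ind`) and `meas` for the image set `Q` (at most `r + 3` elements; `l r ≤ 2 n + l ≤ 4 u + l`,
  `u ≤ d l`, so `r ≤ 4 d + 1`, `r + 3 ≤ 8 (s + 2)`; the coordinates are at most `B` by `cl_bound`): at most `P² 6^(r+3) / M`,
  `M = W^(d l) W^(d l) N' W^(∑ ...)`.  `6^(r+3) ≤ R` (`const_le`), `M R = W^(total)`.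
Altogether `|T| R^5 ∏ R^3 p^(j - lev a) W^total ≤ p^n p^(2(n - k_j)) ∏ p^(n - k (lev a)) P² R R`; divide by `R^2` and the powers of `p`.
-/

set_option autoImplicit false

namespace Pool.Agent.Lib.MP_e426f4_ag.DL

open Finset
open Pool.Agent.Lib.MP_e426f4_ag.DG
open Pool.Agent.Lib.MP_e426f4_ag.DK

private theorem t1_lev {r j : ℕ} {lev : ℕ → ℕ} (hr : lev r = j)
    (hmono : ∀ a, a < r → lev a < lev (a + 1)) : ∀ a, a ≤ r → lev a ≤ j := by
  have key : ∀ b a, a + b = r → lev a ≤ j := by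
    intro b
    induction b with
    | zero =>
      intro a ha
      rw [add_zero] at ha
      rw [ha, hr]
    | succ b ih =>
      intro a ha
      have h1 := ih (a + 1) (by omega)
      have h2 := hmono a (by omega)
      omega
  intro a ha
  exact key (r - a) a (by omega)

private theorem t1_chain {C : Type} {F th : Finset C} {j : ℕ} {K : ℕ → Finset C}
    (hK : IsCh F th j K) : ∀ i, i ≤ j → (K i).card + (j - i) ≤ (K j).card := by
  have key : ∀ b i, i + b = j → (K i).card + b ≤ (K j).card := by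
    intro b
    induction b with
    | zero =>
      intro i hi
      rw [add_zero] at hi
      rw [hi, add_zero]
    | succ b ih =>
      intro i hi
      have h1 := ih (i + 1) (by omega)
      have h2 := card_lt_card (hK.ssub i (by omega))
      omega
  intro i hi
  exact key (j - i) i (by omega)

private theorem t1_kj {C : Type} {F th : Finset C} {j : ℕ} {K : ℕ → Finset C}
    (hK : IsCh F th j K) : (K j).card < F.card :=
  card_lt_card ((hK.sub j le_rfl).ssubset_of_ne hK.ne)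

private theorem t1_mf {α : Type} {q : α → Prop} {h : DecidablePred q} {s : Finset α} {x : α} :
    x ∈ @Finset.filter α q h s ↔ x ∈ s ∧ q x := mem_filter

private theorem t1_mc {α C : Type} {ka : C → α → ℕ} {Z : Finset α} {K : Finset C} {w z : α} :
    z ∈ cell ka Z K w ↔ z ∈ Z ∧ ∀ c ∈ K, ka c z = ka c w := mem_filter

private theorem t1_md {α C : Type} [DecidableEq C] {ka : C → α → ℕ} {Z : Finset α}
    {F K : Finset C} {w z : α} : z ∈ dcell ka Z F K w ↔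
      z ∈ Z ∧ (∀ c ∈ K, ka c z = ka c w) ∧ ∀ c ∈ F \ K, ka c z ≠ ka c w := mem_filter

private theorem t1_dcell_sub {α C : Type} [DecidableEq C] (ka : C → α → ℕ) (Z : Finset α)
    (F K : Finset C) (w : α) : dcell ka Z F K w ⊆ cell ka Z K w := by
  intro z hz
  have h := t1_md.1 hz
  exact t1_mc.2 ⟨h.1, h.2.1⟩

private theorem t1_mz {d s u l e m w E : ℕ} (S : Su d s u l e m w E) {t t' : ℕ} {A : Finset (Fin u)}
    {o : ZMod S.P × ZMod S.P} {z : (Fin u → ℕ) × (Fin u → ℕ)} : z ∈ Zo S t t' A o ↔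
      z ∈ S.Cl A ∧ wh S.P S.n (o.1 * ((pr t t' z).1 : ZMod S.P) ^ d -
        o.2 * ((pr t t' z).2 : ZMod S.P) ^ d) ≠ 0 := mem_filter

private theorem t1_r {d s u l e m w E : ℕ} (S : Su d s u l e m w E) (A : Finset (Fin u)) (r : ℕ)
    (hlr : l * r ≤ 2 * (FA A).card + l) : r ≤ 4 * d + 1 := by
  obtain ⟨h1, h2, h3, h4, h5, h6, h7, h8, h9⟩ := S.nums
  have hF := card_FA A
  have h10 : l * r ≤ l * (4 * d + 1) := by nlinarith
  exact Nat.le_of_mul_le_mul_left h10 (by omega)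

private theorem t1_six {d s u l e m w E : ℕ} (S : Su d s u l e m w E) (A : Finset (Fin u)) (r : ℕ)
    (hlr : l * r ≤ 2 * (FA A).card + l) : 6 ^ (r + 3) ≤ S.R := by
  have hr := t1_r S A r hlr
  obtain ⟨h1, h2, h3⟩ := Su.sum_le_cN d s u m w
  refine S.const_le 6 (r + 3) (by omega) ?_
  nlinarith

private theorem t1_four {d s u l e m w E : ℕ} (S : Su d s u l e m w E) : 2 * 4 ^ u ≤ S.R := by
  obtain ⟨h1, h2, h3⟩ := Su.sum_le_cN d s u m w
  refine le_trans ?_ (S.const_le 4 (u + 1) (by omega) (by omega))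
  rw [pow_succ]
  omega

private theorem t1_pairs {α : Type} (D : Finset α) (Q : α → α → Prop) (x c : ℕ) (hx : x ≤ D.card)
    (h : ∀ v ∈ D, ∀ E : Finset α, (∀ o ∈ E, o ∈ D ∧ Q v o) → E.card ≤ c) (G : Finset (α × α))
    (hG : ∀ b : α × α, b.1 ∈ D → b.2 ∈ D → b.1 ≠ b.2 → ¬ Q b.1 b.2 → b ∈ G) :
    x * (x - 1 - c) ≤ G.card := by
  classical
  have h1 : ((D ×ˢ D).filter fun b : α × α => b.1 ≠ b.2 ∧ ¬ Q b.1 b.2).card =
      ∑ v ∈ D, (D.filter fun o => v ≠ o ∧ ¬ Q v o).card := by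
    rw [card_filter, sum_product]
    exact sum_congr rfl fun v _ => by rw [card_filter]
  have h2 : ∀ v ∈ D, x - 1 - c ≤ (D.filter fun o => v ≠ o ∧ ¬ Q v o).card := by
    intro v hv
    have h3 : D ⊆ (D.filter fun o => v ≠ o ∧ ¬ Q v o) ∪ ({v} ∪ (D.filter fun o => Q v o)) := by
      intro o ho
      by_cases h4 : v = o
      · exact mem_union_right _ (mem_union_left _ (mem_singleton.2 h4.symm))
      · by_cases h5 : Q v o
        · exact mem_union_right _ (mem_union_right _ (mem_filter.2 ⟨ho, h5⟩))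
        · exact mem_union_left _ (mem_filter.2 ⟨ho, h4, h5⟩)
    have h6 := (card_le_card h3).trans ((card_union_le _ _).trans
      (Nat.add_le_add_left (card_union_le _ _) _))
    rw [card_singleton] at h6
    have h7 := h v hv (D.filter fun o => Q v o) (fun o ho => mem_filter.1 ho)
    omega
  calc x * (x - 1 - c) ≤ D.card * (x - 1 - c) := Nat.mul_le_mul_right _ hx
    _ = ∑ _v ∈ D, (x - 1 - c) := by rw [sum_const, smul_eq_mul]
    _ ≤ ∑ v ∈ D, (D.filter fun o => v ≠ o ∧ ¬ Q v o).card := sum_le_sum h2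
    _ = ((D ×ˢ D).filter fun b : α × α => b.1 ≠ b.2 ∧ ¬ Q b.1 b.2).card := h1.symm
    _ ≤ G.card := by
        refine card_le_card fun b hb => ?_
        obtain ⟨hb1, hb2, hb3⟩ := mem_filter.1 hb
        obtain ⟨hb4, hb5⟩ := mem_product.1 hb1
        exact hG b hb4 hb5 hb2 hb3

theorem type1 {d s u l e m w E : ℕ} (S : Su d s u l e m w E) (t t' : ℕ) (ht : t ∈ S.I)
    (ht' : t' ∈ S.I) (A : Finset (Fin u)) (j : ℕ) (hA : A.card ≤ j) (K : ℕ → Finset (Fin u ⊕ Fin u))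
    (hK : IsCh (FA A) (thA A) j K) (r : ℕ) (lev : ℕ → ℕ) (hr : lev r = j)
    (hmono : ∀ a, a < r → lev a < lev (a + 1)) (hlr : l * r ≤ 2 * (FA A).card + l)
    (T : Finset ((ZMod S.P × ZMod S.P) × ((Fin u → ℕ) × (Fin u → ℕ))))
    (hT : ∀ x ∈ T, x.2 ∈ Zo S t t' A x.1 ∧ ∀ i, i ≤ j →
      S.R ^ 3 * S.p ^ (j - i) ≤ (dcell ka (Zo S t t' A x.1) (FA A) (K i) x.2).card) :
    (T.card : ℝ) * (S.W : ℝ) ^ ((∑ a ∈ range r, d * min l ((K (lev (a + 1))).card - (K (lev a)).card)) +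
      2 * (d * l) + min (d * l) ((d - 1) * dlt (FA A).card j (fun i => (K i).card) j)) ≤
    (S.P : ℝ) ^ 2 * (S.p : ℝ) ^ ((FA A).card +
      (∑ a ∈ range r, dlt (FA A).card j (fun i => (K i).card) (lev a)) +
      2 * dlt (FA A).card j (fun i => (K i).card) j) := by
  classical
  obtain ⟨n1, n2, n3, n4, n5, n6, n7, n8, n9⟩ := S.nums
  have hR1 := S.R_pos
  have hRr : (1 : ℝ) ≤ S.R := by exact_mod_cast hR1
  have hW1 := S.W_pos
  have hWr : (1 : ℝ) ≤ S.W := by exact_mod_cast hW1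
  have hpr : (1 : ℝ) ≤ S.p := by exact_mod_cast S.p_pos
  have hkj := t1_kj hK
  have hch := t1_chain hK
  have hlev := t1_lev hr hmono
  have hth : thA A ⊆ K j := hK.th (by rw [card_thA]; exact hA)
  have hδj : dlt (FA A).card j (fun i => (K i).card) j = (FA A).card - (K j).card := by
    unfold dlt
    simp only
    omega
  rw [hδj]
  set δ : ℕ := (FA A).card - (K j).card with hδ
  have hδ1 : 1 ≤ δ := by omega
  set g : ℕ := min (d * l) ((d - 1) * δ) with hg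
  have hg1 : 1 ≤ g := by
    rw [hg]
    refine le_min (Nat.mul_pos (by omega) (by omega)) (Nat.mul_pos (by omega) hδ1)
  set Sg : ℕ := ∑ a ∈ range r, d * min l ((K (lev (a + 1))).card - (K (lev a)).card) with hSg
  set N : ℕ := S.R ^ (w * g - 1) with hN
  have hN1 : 1 ≤ N := Nat.one_le_pow _ _ hR1
  have hwg : 1 ≤ w * g := Nat.mul_pos (by omega) hg1
  have hNR : N * S.R = S.W ^ g := by
    have h1 : S.W ^ g = S.R ^ (w * g) := by
      unfold Su.W
      rw [← pow_mul]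
    rw [h1, hN, ← pow_succ]
    congr 1
    omega
  have hN2 : 2 * 4 ^ u * N ≤ S.W ^ ((d - 1) * ((FA A).card - (K j).card)) := by
    calc 2 * 4 ^ u * N ≤ S.R * N := Nat.mul_le_mul_right _ (t1_four S)
      _ = S.W ^ g := by rw [mul_comm, hNR]
      _ ≤ S.W ^ ((d - 1) * ((FA A).card - (K j).card)) :=
          Nat.pow_le_pow_right hW1 (min_le_right _ _)
  have hN3 : N ≤ S.W ^ (d * l) := by
    calc N ≤ N * S.R := Nat.le_mul_of_pos_right _ hR1
      _ = S.W ^ g := hNR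
      _ ≤ _ := Nat.pow_le_pow_right hW1 (min_le_left _ _)
  have hZoC : ∀ o, Zo S t t' A o ⊆ S.Cl A := fun o z hz => ((t1_mz S).1 hz).1
  have hcell : ∀ (K' : Finset (Fin u ⊕ Fin u)) (w0 : (Fin u → ℕ) × (Fin u → ℕ)), K' ⊆ FA A →
      (dcell ka (S.Cl A) (FA A) K' w0).card ≤ S.p ^ ((FA A).card - K'.card) := fun K' w0 hK' =>
    (card_le_card (t1_dcell_sub ka (S.Cl A) (FA A) K' w0)).trans (cl_card_le S A K' hK' w0)
  have hdz : ∀ (o : ZMod S.P × ZMod S.P) (K' : Finset (Fin u ⊕ Fin u))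
      (w0 z : (Fin u → ℕ) × (Fin u → ℕ)), z ∈ dcell ka (Zo S t t' A o) (FA A) K' w0 →
      z ∈ dcell ka (S.Cl A) (FA A) K' w0 ∧ z ∈ Zo S t t' A o := by
    intro o K' w0 z hz
    have h := t1_md.1 hz
    exact ⟨t1_md.2 ⟨hZoC o h.1, h.2⟩, h.1⟩
  set D : (Fin u → ℕ) × (Fin u → ℕ) → Finset ((Fin u → ℕ) × (Fin u → ℕ)) :=
    fun w0 => dcell ka (S.Cl A) (FA A) (K j) w0 with hD
  set tot : ℕ := Sg + 2 * (d * l) + g with htot
  have hWt : (0 : ℝ) < (S.W : ℝ) ^ tot := by positivity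
  have hMxx : (0 : ℝ) ≤ (S.P : ℝ) ^ 2 * S.R ^ 2 / S.W ^ tot := by positivity
  have key := dcount (Ω := ZMod S.P × ZMod S.P) (β := ((Fin u → ℕ) × (Fin u → ℕ)) × ((Fin u → ℕ) × (Fin u → ℕ)))
    (fun o => Zo S t t' A o) (fun o _ b => b.1 ∈ Zo S t t' A o ∧ b.2 ∈ Zo S t t' A o) (S.Cl A)
    (fun w0 => (D w0 ×ˢ D w0).filter fun b => b.1 ≠ b.2 ∧
      ¬ Bad d N (pr t t' w0) (pr t t' b.1) (pr t t' b.2)) r
    (fun a w0 => dcell ka (S.Cl A) (FA A) (K (lev a)) w0) T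
    (fun a => S.R ^ 3 * S.p ^ (j - lev a)) (fun a => S.p ^ ((FA A).card - (K (lev a)).card))
    (S.R ^ 5) ((S.p ^ δ) ^ 2) ((S.P : ℝ) ^ 2 * S.R ^ 2 / S.W ^ tot) hMxx ?_ ?_ ?_ ?_ ?_ ?_
  · -- conclusion
    have hY : ((S.Cl A).card : ℝ) ≤ (S.p : ℝ) ^ (FA A).card := by
      rcases (S.Cl A).eq_empty_or_nonempty with h0 | ⟨w0, _⟩
      · rw [h0, card_empty, Nat.cast_zero]
        positivity
      · have h1 := cl_card_le S A ∅ (empty_subset _) w0
        have h2 : S.Cl A ⊆ cell ka (S.Cl A) ∅ w0 := fun z hz =>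
          t1_mc.2 ⟨hz, fun c hc => absurd hc (notMem_empty c)⟩
        rw [card_empty, Nat.sub_zero] at h1
        exact_mod_cast (card_le_card h2).trans h1
    have e1 : ∏ a ∈ range r, (((S.R ^ 3 * S.p ^ (j - lev a) : ℕ)) : ℝ) =
        (S.R : ℝ) ^ (3 * r) * (S.p : ℝ) ^ (∑ a ∈ range r, (j - lev a)) := by
      push_cast
      rw [prod_mul_distrib, prod_const, card_range, ← pow_mul, prod_pow_eq_pow_sum]
    have e2 : ∏ a ∈ range r, (((S.p ^ ((FA A).card - (K (lev a)).card) : ℕ)) : ℝ) =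
        (S.p : ℝ) ^ (∑ a ∈ range r, dlt (FA A).card j (fun i => (K i).card) (lev a)) *
          (S.p : ℝ) ^ (∑ a ∈ range r, (j - lev a)) := by
      push_cast
      rw [prod_pow_eq_pow_sum, ← pow_add, ← sum_add_distrib]
      congr 1
      refine sum_congr rfl fun a ha => ?_
      have h1 := hch (lev a) (hlev a (mem_range.1 ha).le)
      unfold dlt
      simp only
      omega
    rw [e1, e2] at key
    push_cast at key
    set Sd : ℕ := ∑ a ∈ range r, dlt (FA A).card j (fun i => (K i).card) (lev a) with hSd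
    set Sj : ℕ := ∑ a ∈ range r, (j - lev a) with hSj
    have hPj : (0 : ℝ) < (S.p : ℝ) ^ Sj := by positivity
    have hP0 : (0 : ℝ) < (S.P : ℝ) := by exact_mod_cast S.prime.pos
    have k1 : (T.card : ℝ) * ((S.R : ℝ) ^ 5 * ((S.R : ℝ) ^ (3 * r) * (S.p : ℝ) ^ Sj)) * S.W ^ tot ≤
        (S.p : ℝ) ^ (FA A).card * ((((S.p : ℝ) ^ δ) ^ 2) * ((S.p : ℝ) ^ Sd * (S.p : ℝ) ^ Sj)) *
          ((S.P : ℝ) ^ 2 * S.R ^ 2) := by
      calc (T.card : ℝ) * ((S.R : ℝ) ^ 5 * ((S.R : ℝ) ^ (3 * r) * (S.p : ℝ) ^ Sj)) * S.W ^ tot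
          ≤ (((S.Cl A).card : ℝ) * ((((S.p : ℝ) ^ δ) ^ 2) * ((S.p : ℝ) ^ Sd * (S.p : ℝ) ^ Sj)) *
            ((S.P : ℝ) ^ 2 * S.R ^ 2 / S.W ^ tot)) * S.W ^ tot :=
            mul_le_mul_of_nonneg_right key hWt.le
        _ = ((S.Cl A).card : ℝ) * ((((S.p : ℝ) ^ δ) ^ 2) * ((S.p : ℝ) ^ Sd * (S.p : ℝ) ^ Sj)) *
            ((S.P : ℝ) ^ 2 * S.R ^ 2) := by
            rw [mul_assoc, div_mul_cancel₀ _ hWt.ne']
        _ ≤ _ := by
            apply mul_le_mul_of_nonneg_right _ (by positivity)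
            exact mul_le_mul_of_nonneg_right hY (by positivity)
    have k2 : ((T.card : ℝ) * S.W ^ tot) * ((S.p : ℝ) ^ Sj * (S.R : ℝ) ^ 2) ≤
        ((S.P : ℝ) ^ 2 * (S.p : ℝ) ^ ((FA A).card + Sd + 2 * δ)) *
          ((S.p : ℝ) ^ Sj * (S.R : ℝ) ^ 2) := by
      have h1 : (S.R : ℝ) ^ 2 ≤ (S.R : ℝ) ^ 5 * (S.R : ℝ) ^ (3 * r) := by
        rw [← pow_add]
        exact pow_le_pow_right₀ hRr (by omega)
      calc ((T.card : ℝ) * S.W ^ tot) * ((S.p : ℝ) ^ Sj * (S.R : ℝ) ^ 2)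
          ≤ ((T.card : ℝ) * S.W ^ tot) * ((S.p : ℝ) ^ Sj * ((S.R : ℝ) ^ 5 * (S.R : ℝ) ^ (3 * r))) := by
            gcongr
        _ = (T.card : ℝ) * ((S.R : ℝ) ^ 5 * ((S.R : ℝ) ^ (3 * r) * (S.p : ℝ) ^ Sj)) *
            S.W ^ tot := by ring
        _ ≤ _ := k1
        _ = _ := by
            rw [pow_add (S.p : ℝ) ((FA A).card + Sd), pow_add (S.p : ℝ) (FA A).card, ← pow_mul,
              Nat.mul_comm δ 2]
            ring
    exact le_of_mul_le_mul_right k2 (by positivity)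
  · intro x hx
    exact ⟨hZoC _ (hT x hx).1, (hT x hx).1⟩
  · intro x hx a ha
    refine ((hT x hx).2 (lev a) (hlev a ha.le)).trans (card_le_card fun z hz => ?_)
    rw [t1_mf]
    exact hdz _ _ _ _ hz
  · intro x hx
    have hxC := hZoC _ (hT x hx).1
    have h1 := (hT x hx).2 j le_rfl
    rw [Nat.sub_self, pow_zero, mul_one] at h1
    have hsub : dcell ka (Zo S t t' A x.1) (FA A) (K j) x.2 ⊆ D x.2 := fun z hz =>
      (hdz _ _ _ _ hz).1
    have h3 : S.R ^ 5 ≤ S.R ^ 3 * (S.R ^ 3 - 1 - S.R * S.R) := by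
      have h4 : 3 ≤ S.R := by
        have h5 := t1_four S
        have h6 : 1 ≤ u := by omega
        have h7 : 4 ^ 1 ≤ 4 ^ u := Nat.pow_le_pow_right (by norm_num) h6
        omega
      have h5 : S.R ^ 2 ≤ S.R ^ 3 - 1 - S.R * S.R := by
        have h6 : S.R ^ 3 = S.R * (S.R * S.R) := by ring
        have h7 : 3 * (S.R * S.R) ≤ S.R * (S.R * S.R) := Nat.mul_le_mul_right _ h4
        have h8 : 1 ≤ S.R * S.R := Nat.mul_pos hR1 hR1
        have h9 : S.R ^ 2 = S.R * S.R := by ring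
        omega
      calc S.R ^ 5 = S.R ^ 3 * S.R ^ 2 := by ring
        _ ≤ _ := Nat.mul_le_mul_left _ h5
    refine h3.trans (t1_pairs (dcell ka (Zo S t t' A x.1) (FA A) (K j) x.2)
      (fun v o => Bad d N (pr t t' x.2) (pr t t' v) (pr t t' o)) (S.R ^ 3) (S.R * S.R) h1 ?_ _ ?_)
    · intro v hv E' hE'
      refine le_trans (card_le_card fun o ho => ?_)
        (base1_few S t t' ht ht' A (K j) (hK.sub j le_rfl) hth hK.ne x.2 v hxC (hsub hv) N hN1 hN2)
      rw [t1_mf]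
      exact ⟨hsub (hE' o ho).1, (hE' o ho).2⟩
    · intro b hb4 hb5 hb2 hb3
      rw [t1_mf, t1_mf, mem_product]
      exact ⟨⟨⟨hsub hb4, hsub hb5⟩, hb2, hb3⟩, (hdz _ _ _ _ hb4).2, (hdz _ _ _ _ hb5).2⟩
  · intro w0 _ a ha
    exact hcell (K (lev a)) w0 (hK.sub _ (hlev a ha.le))
  · intro w0 _
    refine (card_filter_le _ _).trans ?_
    rw [card_product, ← sq]
    exact Nat.pow_le_pow_left (hcell (K j) w0 (hK.sub j le_rfl)) 2
  · intro w0 hw0 b hb z hz
    rw [t1_mf, mem_product] at hb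
    obtain ⟨⟨hb4, hb5⟩, hb2, hb3⟩ := hb
    have hI := base1_ind S t t' ht ht' A (K j) (hK.sub j le_rfl) hth hK.ne w0 b.1 b.2 hw0 hb4 hb5
      hb2 N hN1 hN3 hb3
    have hself : w0 ∈ cell ka (S.Cl A) (K j) w0 := t1_mc.2 ⟨hw0, fun _ _ => rfl⟩
    have hB0 : ∀ y ∈ ({w0, b.1, b.2} : Finset ((Fin u → ℕ) × (Fin u → ℕ))),
        y ∈ cell ka (S.Cl A) (K j) w0 := by
      intro y hy
      rw [mem_insert, mem_insert, mem_singleton] at hy
      rcases hy with rfl | rfl | rfl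
      · exact hself
      · exact t1_dcell_sub _ _ _ _ _ hb4
      · exact t1_dcell_sub _ _ _ _ _ hb5
    have hI2 := pat_ind S t t' ht ht' A j K hK w0 hw0 r lev hr hmono z hz
      ({w0, b.1, b.2} : Finset ((Fin u → ℕ) × (Fin u → ℕ))) _ hB0
      (mem_insert_self _ _) hI
    set Q : Finset ((Fin u → ℕ) × (Fin u → ℕ)) :=
      {w0, b.1, b.2} ∪ (univ : Finset (Fin r)).image z with hQ
    have hQC : ∀ y ∈ Q, y ∈ S.Cl A := by
      intro y hy
      rcases mem_union.1 hy with h | h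
      · exact (t1_mc.1 (hB0 y h)).1
      · obtain ⟨a, _, rfl⟩ := mem_image.1 h
        exact (t1_md.1 (hz a)).1
    have hQcard : (Q.image (pr t t')).card ≤ r + 3 := by
      refine card_image_le.trans ((card_union_le _ _).trans ?_)
      have h1 : ({w0, b.1, b.2} : Finset ((Fin u → ℕ) × (Fin u → ℕ))).card ≤ 3 := card_le_three
      have h2 : ((univ : Finset (Fin r)).image z).card ≤ r := by
        refine card_image_le.trans ?_
        rw [card_univ, Fintype.card_fin]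
      omega
    obtain ⟨f1, f2, f3, f4, f5, f6, f7⟩ := S.n_facts
    have hr4 := t1_r S A r hlr
    have hm := meas S.n d S.H S.B _ f1 f7 f3 (Q.image (pr t t')) ?_ ?_ hI2
    · have hcnt : ∀ G : Finset (ZMod S.P × ZMod S.P), (∀ o ∈ G,
          w0 ∈ Zo S t t' A o ∧ (b.1 ∈ Zo S t t' A o ∧ b.2 ∈ Zo S t t' A o) ∧
            ∀ a, z a ∈ Zo S t t' A o) →
          (G.card : ℝ) * ((S.W ^ (d * l) * S.W ^ (d * l) * N * S.W ^ Sg : ℕ) : ℝ) ≤
            (S.P : ℝ) ^ 2 * 6 ^ (Q.image (pr t t')).card := by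
        intro G hG
        refine le_trans (mul_le_mul_of_nonneg_right (Nat.cast_le.2 (card_le_card fun o ho => ?_))
          (Nat.cast_nonneg _)) hm
        obtain ⟨g1, ⟨g2, g3⟩, g4⟩ := hG o ho
        rw [t1_mf]
        refine ⟨mem_univ _, fun x hx => ?_⟩
        obtain ⟨y, hy, rfl⟩ := mem_image.1 hx
        have hyZ : y ∈ Zo S t t' A o := by
          rcases mem_union.1 hy with h | h
          · rw [mem_insert, mem_insert, mem_singleton] at h
            rcases h with rfl | rfl | rfl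
            · exact g1
            · exact g2
            · exact g3
          · obtain ⟨a, _, rfl⟩ := mem_image.1 h
            exact g4 a
        exact ((t1_mz S).1 hyZ).2
      have h6 : (6 : ℝ) ^ (Q.image (pr t t')).card ≤ S.R := by
        have h7 : 6 ^ (Q.image (pr t t')).card ≤ S.R :=
          (Nat.pow_le_pow_right (by norm_num) hQcard).trans (t1_six S A r hlr)
        exact_mod_cast h7
      rw [le_div_iff₀ hWt]
      have e1 : (S.W : ℝ) ^ tot =
          ((S.W ^ (d * l) * S.W ^ (d * l) * N * S.W ^ Sg : ℕ) : ℝ) * S.R := by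
        have h8 : S.W ^ tot = S.W ^ (d * l) * S.W ^ (d * l) * N * S.W ^ Sg * S.R := by
          rw [htot, pow_add, pow_add, ← hNR, two_mul, pow_add]
          ring
        exact_mod_cast h8
      rw [e1, ← mul_assoc]
      calc _ ≤ ((S.P : ℝ) ^ 2 * 6 ^ (Q.image (pr t t')).card) * S.R := by
            refine mul_le_mul_of_nonneg_right (hcnt _ fun o ho => ?_) (by positivity)
            rw [t1_mf] at ho
            exact ho.2
        _ ≤ ((S.P : ℝ) ^ 2 * S.R) * S.R := by gcongr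
        _ = _ := by ring
    · intro x hx
      obtain ⟨y, hy, rfl⟩ := mem_image.1 hx
      obtain ⟨c1, c2, -⟩ := (cl_mem S A y).1 (hQC y hy)
      exact ⟨(cl_bound S t ht y.1 c1).2, (cl_bound S t' ht' y.2 c2).2⟩
    · refine lt_of_le_of_lt ?_ f5
      refine Nat.mul_le_mul_right _ (Nat.mul_le_mul_right _ ?_)
      omega

end Pool.Agent.Lib.MP_e426f4_ag.DL
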