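import Pool.Agent.Lib.MP_e426f4_ag.DL.DCount
import Pool.Agent.Lib.MP_e426f4_ag.DL.Pat
import Pool.Agent.Lib.MP_e426f4_ag.DL.Base2
import Pool.Agent.Lib.MP_e426f4_ag.DK.Meas

/-!
# Type2: the pairs `((b, b'), w)` of a fixed type, one more base element

`n = #FA A`, `k i = #K i`, `δ_i = dlt n j k i`; `k_j < n` (`hK.ne`, `hK.sub`).
`dcount` with `Zs o = Zo S t t' A o`, `β` the elements `v`, `Bp o w v : v ∈ Zo o`, `Y = Cl A`,
`YB w = dcell ka (Cl A) (FA A) (K j) w`, `Ya a w = dcell ka (Cl A) (FA A) (K (lev a)) w`, `qa a = R^3 p^(j - lev a)`,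
`na a = p^(n - k (lev a))`, `qb = R^3`, `nb = p^(n - k j)`; `hna`, `hnb`: `cl_card_le` (`dcell ⊆ cell`).
`hM`: `pat_ind` with `B0 = {w, v}` (`base2_ind`) and `meas` for the image set (at most `r + 2` elements; `l r ≤ 2 n + l ≤ 4 u + l`,
`u ≤ d l`, so `r ≤ 4 d + 1`, `r + 2 ≤ 8 (s + 2)`; the coordinates are at most `B` by `cl_bound`): at most `P² 6^(r+2) / M`,
`M = W^(d l) W^(d min(l, δ_j)) W^(∑ ...)`.  `6^(r+2) ≤ R` (`const_le`).
Altogether `|T| R^3 ∏ R^3 p^(j - lev a) W^total ≤ p^n p^(n - k_j) ∏ p^(n - k (lev a)) P² R`.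
-/

set_option autoImplicit false

namespace Pool.Agent.Lib.MP_e426f4_ag.DL

open Finset
open Pool.Agent.Lib.MP_e426f4_ag.DG
open Pool.Agent.Lib.MP_e426f4_ag.DK

private theorem t2_mf {α : Type} {p : α → Prop} {h : DecidablePred p} {s : Finset α} {a : α} :
    a ∈ @Finset.filter α p h s ↔ a ∈ s ∧ p a := Finset.mem_filter

private theorem t2_mem_cell {α C : Type} (ka : C → α → ℕ) (Z : Finset α) (K : Finset C) (w z : α) :
    z ∈ cell ka Z K w ↔ z ∈ Z ∧ ∀ c ∈ K, ka c z = ka c w := by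
  unfold cell
  exact mem_filter

private theorem t2_mem_dcell {α C : Type} [DecidableEq C] (ka : C → α → ℕ) (Z : Finset α)
    (F K : Finset C) (w z : α) : z ∈ dcell ka Z F K w ↔
      z ∈ Z ∧ (∀ c ∈ K, ka c z = ka c w) ∧ ∀ c ∈ F \ K, ka c z ≠ ka c w := by
  unfold dcell
  exact mem_filter

private theorem t2_mem_Zo {d s u l e m w E : ℕ} (S : Su d s u l e m w E) (t t' : ℕ)
    (A : Finset (Fin u)) (o : ZMod S.P × ZMod S.P) (z : (Fin u → ℕ) × (Fin u → ℕ)) :
    z ∈ Zo S t t' A o ↔ z ∈ S.Cl A ∧ wh S.P S.n (o.1 * ((pr t t' z).1 : ZMod S.P) ^ d -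
      o.2 * ((pr t t' z).2 : ZMod S.P) ^ d) ≠ 0 := by
  unfold Zo
  exact mem_filter

theorem type2 {d s u l e m w E : ℕ} (S : Su d s u l e m w E) (t t' : ℕ) (ht : t ∈ S.I)
    (ht' : t' ∈ S.I) (A : Finset (Fin u)) (j : ℕ) (K : ℕ → Finset (Fin u ⊕ Fin u))
    (hK : IsCh (FA A) (thA A) j K) (r : ℕ) (lev : ℕ → ℕ) (hr : lev r = j)
    (hmono : ∀ a, a < r → lev a < lev (a + 1)) (hlr : l * r ≤ 2 * (FA A).card + l)
    (T : Finset ((ZMod S.P × ZMod S.P) × ((Fin u → ℕ) × (Fin u → ℕ))))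
    (hT : ∀ x ∈ T, x.2 ∈ Zo S t t' A x.1 ∧ ∀ i, i ≤ j →
      S.R ^ 3 * S.p ^ (j - i) ≤ (dcell ka (Zo S t t' A x.1) (FA A) (K i) x.2).card) :
    (T.card : ℝ) * (S.W : ℝ) ^ ((∑ a ∈ range r, d * min l ((K (lev (a + 1))).card - (K (lev a)).card)) +
      d * l + d * min l (dlt (FA A).card j (fun i => (K i).card) j)) ≤
    (S.P : ℝ) ^ 2 * (S.p : ℝ) ^ ((FA A).card +
      (∑ a ∈ range r, dlt (FA A).card j (fun i => (K i).card) (lev a)) +
      dlt (FA A).card j (fun i => (K i).card) j) := by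
  classical
  have hR1 := S.R_pos
  have hW1 := S.W_pos
  have hp1 := S.p_pos
  obtain ⟨hd, hs, hel, hlu, hul, -⟩ := S.nums
  have hl1 : 1 ≤ l := by omega
  obtain ⟨n, hn⟩ : ∃ n : ℕ, n = (FA A).card := ⟨_, rfl⟩
  rw [← hn] at hlr ⊢
  have hn2 : n ≤ 2 * u := by
    have := card_FA A
    omega
  have hr4 : r ≤ 4 * d + 1 := by
    have h1 : l * r ≤ l * (4 * d + 1) := by nlinarith
    exact Nat.le_of_mul_le_mul_left h1 hl1
  have h6 : 6 ^ (r + 2) ≤ S.R := by
    obtain ⟨c1, c2, -⟩ := Su.sum_le_cN d s u m w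
    refine S.const_le 6 (r + 2) (by omega) (le_trans ?_ c2)
    nlinarith
  have hlev : ∀ a, a ≤ r → lev a ≤ j := by
    have h : ∀ b, b ≤ r → lev (r - b) ≤ j := by
      intro b
      induction b with
      | zero =>
        intro _
        rw [Nat.sub_zero, hr]
      | succ b ih =>
        intro hb
        have h1 := ih (by omega)
        have h2 := hmono (r - (b + 1)) (by omega)
        have h3 : r - (b + 1) + 1 = r - b := by omega
        rw [h3] at h2
        omega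
    intro a ha
    have h1 := h (r - a) (by omega)
    rwa [Nat.sub_sub_self ha] at h1
  obtain ⟨Sg, hSg⟩ : ∃ Sg : ℕ, Sg = ∑ a ∈ range r, d * min l ((K (lev (a + 1))).card - (K (lev a)).card) :=
    ⟨_, rfl⟩
  have hdj : dlt n j (fun i => (K i).card) j = n - (K j).card := by
    unfold dlt
    rw [Nat.sub_self, Nat.sub_zero]
  rw [← hSg, hdj]
  obtain ⟨M, hM⟩ : ∃ M : ℕ, M = S.W ^ (d * l) * S.W ^ (d * min l (n - (K j).card)) * S.W ^ Sg :=
    ⟨_, rfl⟩
  have hM1 : 1 ≤ M := by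
    rw [hM]
    exact Nat.mul_pos (Nat.mul_pos (Nat.pow_pos hW1) (Nat.pow_pos hW1)) (Nat.pow_pos hW1)
  have hM0 : (0 : ℝ) < M := by exact_mod_cast hM1
  obtain ⟨q1, q2, q3, -, q5, -, q7⟩ := S.n_facts
  have hMW : (M : ℝ) = (S.W : ℝ) ^ (Sg + d * l + d * min l (n - (K j).card)) := by
    rw [hM]
    push_cast
    rw [pow_add, pow_add]
    ring
  rw [← hMW]
  have hcard : ∀ (K' : Finset (Fin u ⊕ Fin u)), K' ⊆ FA A → ∀ w0 : (Fin u → ℕ) × (Fin u → ℕ),
      (dcell ka (S.Cl A) (FA A) K' w0).card ≤ S.p ^ (n - K'.card) := by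
    intro K' hK' w0
    rw [hn]
    refine le_trans (card_le_card ?_) (cl_card_le S A K' hK' w0)
    intro z hz
    rw [t2_mem_dcell] at hz
    exact (t2_mem_cell _ _ _ _ _).2 ⟨hz.1, hz.2.1⟩
  have key := dcount (Ω := ZMod S.P × ZMod S.P) (fun o => Zo S t t' A o)
    (fun o _ v => v ∈ Zo S t t' A o) (S.Cl A)
    (fun w0 => dcell ka (S.Cl A) (FA A) (K j) w0) r
    (fun a w0 => dcell ka (S.Cl A) (FA A) (K (lev a)) w0) T
    (fun a => S.R ^ 3 * S.p ^ (j - lev a)) (fun a => S.p ^ (n - (K (lev a)).card)) (S.R ^ 3)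
    (S.p ^ (n - (K j).card)) ((S.P : ℝ) ^ 2 * 6 ^ (r + 2) / M) (by positivity)
    (by
      intro x hx
      obtain ⟨h1, -⟩ := hT x hx
      exact ⟨((t2_mem_Zo _ _ _ _ _ _).1 h1).1, h1⟩)
    (by
      intro x hx a ha
      obtain ⟨-, h2⟩ := hT x hx
      refine (h2 (lev a) (hlev a ha.le)).trans (card_le_card fun z hz => ?_)
      rw [t2_mem_dcell] at hz
      refine t2_mf.2 ?_
      exact ⟨(t2_mem_dcell _ _ _ _ _ _).2 ⟨((t2_mem_Zo _ _ _ _ _ _).1 hz.1).1, hz.2⟩, hz.1⟩)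
    (by
      intro x hx
      obtain ⟨-, h2⟩ := hT x hx
      have h3 := h2 j le_rfl
      rw [Nat.sub_self, pow_zero, mul_one] at h3
      refine h3.trans (card_le_card fun z hz => ?_)
      rw [t2_mem_dcell] at hz
      refine t2_mf.2 ?_
      exact ⟨(t2_mem_dcell _ _ _ _ _ _).2 ⟨((t2_mem_Zo _ _ _ _ _ _).1 hz.1).1, hz.2⟩, hz.1⟩)
    (fun w0 _ a ha => hcard _ (hK.sub _ (hlev a ha.le)) w0)
    (fun w0 _ => hcard _ (hK.sub _ le_rfl) w0)
    (by
      intro w0 hw0 v0 hv0 z hz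
      have hv2 := (t2_mem_dcell _ _ _ _ _ _).1 hv0
      have hv1 : v0 ∈ S.Cl A := hv2.1
      have hb := base2_ind S t t' ht ht' A (K j) (hK.sub j le_rfl) hK.ne w0 v0 hw0 hv0
      rw [← hn] at hb
      have hI := pat_ind S t t' ht ht' A j K hK w0 hw0 r lev hr hmono z hz {w0, v0} _
        (by
          intro y hy
          rw [t2_mem_cell]
          rw [mem_insert, mem_singleton] at hy
          rcases hy with rfl | rfl
          · exact ⟨hw0, fun c _ => rfl⟩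
          · exact ⟨hv1, hv2.2.1⟩)
        (mem_insert_self _ _) hb
      rw [← hSg, ← hM] at hI
      obtain ⟨Z, hZ⟩ : ∃ Z : Finset (ℕ × ℕ),
          Z = ((({w0, v0} : Finset ((Fin u → ℕ) × (Fin u → ℕ))) ∪
            (univ : Finset (Fin r)).image z).image (pr t t')) := ⟨_, rfl⟩
      rw [← hZ] at hI
      have hZc : Z.card ≤ r + 2 := by
        rw [hZ]
        refine card_image_le.trans ((card_union_le _ _).trans ?_)
        have h1 : ({w0, v0} : Finset ((Fin u → ℕ) × (Fin u → ℕ))).card ≤ 2 := card_le_two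
        have h2 : ((univ : Finset (Fin r)).image z).card ≤ r := by
          refine card_image_le.trans ?_
          rw [card_univ, Fintype.card_fin]
        omega
      have h1 := meas S.n d S.H S.B M q1 q7 q3 Z
        (by
          intro x hx
          rw [hZ] at hx
          obtain ⟨y, hy, rfl⟩ := mem_image.1 hx
          have hyA : y ∈ S.Cl A := by
            rcases mem_union.1 hy with h | h
            · rw [mem_insert, mem_singleton] at h
              rcases h with rfl | rfl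
              · exact hw0
              · exact hv1
            · obtain ⟨a, -, rfl⟩ := mem_image.1 h
              exact ((t2_mem_dcell _ _ _ _ _ _).1 (hz a)).1
          obtain ⟨k1, k2, -⟩ := (cl_mem S A y).1 hyA
          exact ⟨(cl_bound S t ht y.1 k1).2, (cl_bound S t' ht' y.2 k2).2⟩)
        (by
          refine lt_of_le_of_lt ?_ q5
          refine Nat.mul_le_mul_right _ (Nat.mul_le_mul_right _ ?_)
          omega) hI
      rw [le_div_iff₀ hM0]
      refine (mul_le_mul_of_nonneg_right (?_ : _ ≤ (((univ : Finset (ZMod S.P × ZMod S.P)).filter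
          fun b => ∀ z ∈ Z, wh S.P S.n (b.1 * (z.1 : ZMod S.P) ^ d -
          b.2 * (z.2 : ZMod S.P) ^ d) ≠ 0).card : ℝ)) hM0.le).trans (h1.trans ?_)
      · rw [Nat.cast_le]
        refine card_le_card fun o ho => ?_
        obtain ⟨-, ho1, ho2, ho3⟩ := t2_mf.1 ho
        refine t2_mf.2 ⟨mem_univ _, fun x hx => ?_⟩
        rw [hZ] at hx
        obtain ⟨y, hy, rfl⟩ := mem_image.1 hx
        rcases mem_union.1 hy with h | h
        · rw [mem_insert, mem_singleton] at h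
          rcases h with rfl | rfl
          · exact ((t2_mem_Zo _ _ _ _ _ _).1 ho1).2
          · exact ((t2_mem_Zo _ _ _ _ _ _).1 ho2).2
        · obtain ⟨a, -, rfl⟩ := mem_image.1 h
          exact ((t2_mem_Zo _ _ _ _ _ _).1 (ho3 a)).2
      refine mul_le_mul_of_nonneg_left ?_ (by positivity)
      exact pow_le_pow_right₀ (by norm_num) hZc)
  -- the final computation
  have hRr : (1 : ℝ) ≤ S.R := by exact_mod_cast hR1
  have hpr : (1 : ℝ) ≤ S.p := by exact_mod_cast hp1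
  have hp0 : (0 : ℝ) < S.p := by linarith
  have hR0 : (0 : ℝ) < S.R := by linarith
  have hClc : ((S.Cl A).card : ℝ) ≤ (S.p : ℝ) ^ n := by
    rcases (S.Cl A).eq_empty_or_nonempty with h | ⟨w0, hw0⟩
    · rw [h, card_empty, Nat.cast_zero]
      positivity
    · have h1 := cl_card_le S A ∅ (empty_subset _) w0
      have h2 : cell ka (S.Cl A) ∅ w0 = S.Cl A := by
        ext z
        rw [t2_mem_cell]
        exact ⟨fun h => h.1, fun h => ⟨h, fun c hc => absurd hc (notMem_empty c)⟩⟩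
      rw [h2, card_empty, Nat.sub_zero, ← hn] at h1
      exact_mod_cast h1
  obtain ⟨Q, hQ⟩ : ∃ Q : ℝ, Q = ∏ a ∈ range r, (S.p : ℝ) ^ (j - lev a) := ⟨_, rfl⟩
  obtain ⟨D, hD⟩ : ∃ D : ℕ, D = ∑ a ∈ range r, dlt n j (fun i => (K i).card) (lev a) := ⟨_, rfl⟩
  rw [← hD]
  have hQ0 : 0 < Q := by
    rw [hQ]
    exact prod_pos fun a _ => by positivity
  have e1 : ∏ a ∈ range r, ((S.R ^ 3 * S.p ^ (j - lev a) : ℕ) : ℝ) = ((S.R : ℝ) ^ 3) ^ r * Q := by
    rw [hQ]
    push_cast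
    rw [prod_mul_distrib, prod_const, card_range]
  have e2 : ∏ a ∈ range r, ((S.p ^ (n - (K (lev a)).card) : ℕ) : ℝ) ≤ (S.p : ℝ) ^ D * Q := by
    rw [hD, hQ, ← prod_pow_eq_pow_sum, ← prod_mul_distrib]
    push_cast
    refine prod_le_prod (fun a _ => by positivity) fun a _ => ?_
    rw [← pow_add]
    refine pow_le_pow_right₀ hpr ?_
    have e7 : dlt n j (fun i => (K i).card) (lev a) = n - (K (lev a)).card - (j - lev a) := rfl
    omega
  rw [e1] at key
  have e3 : (6 : ℝ) ^ (r + 2) ≤ S.R := by exact_mod_cast h6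
  have e4 : (S.R : ℝ) ≤ ((S.R : ℝ) ^ 3) ^ (r + 1) := by
    rw [← pow_mul]
    calc (S.R : ℝ) = (S.R : ℝ) ^ 1 := (pow_one _).symm
      _ ≤ (S.R : ℝ) ^ (3 * (r + 1)) := pow_le_pow_right₀ hRr (by omega)
  have hT0 : (0 : ℝ) ≤ T.card := Nat.cast_nonneg _
  have hkey2 : (T.card : ℝ) * M * (((S.R : ℝ) ^ 3) ^ (r + 1) * Q) ≤
      ((S.P : ℝ) ^ 2 * (S.p : ℝ) ^ (n + D + (n - (K j).card))) * (((S.R : ℝ) ^ 3) ^ (r + 1) * Q) := by
    calc (T.card : ℝ) * M * (((S.R : ℝ) ^ 3) ^ (r + 1) * Q)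
        = ((T.card : ℝ) * (((S.R ^ 3 : ℕ) : ℝ) * (((S.R : ℝ) ^ 3) ^ r * Q))) * M := by
          push_cast
          ring
      _ ≤ (((S.Cl A).card : ℝ) * (((S.p ^ (n - (K j).card) : ℕ) : ℝ) *
            ∏ a ∈ range r, ((S.p ^ (n - (K (lev a)).card) : ℕ) : ℝ)) *
            ((S.P : ℝ) ^ 2 * 6 ^ (r + 2) / M)) * M := mul_le_mul_of_nonneg_right key hM0.le
      _ = ((S.Cl A).card : ℝ) * (((S.p ^ (n - (K j).card) : ℕ) : ℝ) *
            ∏ a ∈ range r, ((S.p ^ (n - (K (lev a)).card) : ℕ) : ℝ)) *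
            ((S.P : ℝ) ^ 2 * 6 ^ (r + 2)) := by
          field_simp
      _ ≤ (S.p : ℝ) ^ n * ((S.p : ℝ) ^ (n - (K j).card) * ((S.p : ℝ) ^ D * Q)) *
            ((S.P : ℝ) ^ 2 * ((S.R : ℝ) ^ 3) ^ (r + 1)) := by
          have e5 : (((S.p ^ (n - (K j).card) : ℕ) : ℝ)) = (S.p : ℝ) ^ (n - (K j).card) := by
            push_cast
            rfl
          rw [e5]
          have e6 : (0 : ℝ) ≤ ∏ a ∈ range r, ((S.p ^ (n - (K (lev a)).card) : ℕ) : ℝ) :=
            prod_nonneg fun a _ => Nat.cast_nonneg _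
          refine mul_le_mul (mul_le_mul hClc (mul_le_mul_of_nonneg_left e2 (by positivity))
            (by positivity) (by positivity)) ?_ (by positivity) (by positivity)
          exact mul_le_mul_of_nonneg_left (e3.trans e4) (by positivity)
      _ = _ := by
          rw [pow_add, pow_add]
          ring
  exact le_of_mul_le_mul_right hkey2 (by positivity)

end Pool.Agent.Lib.MP_e426f4_ag.DL
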