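import Pool.Agent.Lib.MP_e426f4_ag.DL.Sel1
import Pool.Agent.Lib.MP_e426f4_ag.DL.Sel2
import Pool.Agent.Lib.MP_e426f4_ag.DL.Type1
import Pool.Agent.Lib.MP_e426f4_ag.DL.Type2

/-!
# TypeB: the pairs of a fixed type, final exponents

`n = #FA A ≤ 2 u`, `n + #A = 2 u` (`card_FA`), `k i = #K i` strictly increasing (`hK.ssub`, `card_lt_card`), `k_j < n`, `2 n ≤ 4 u ≤ (d+1) l`,
`δ0 = dlt n j k 0 ≤ n - j`.
`#A ≤ j`: the levels from `sel1`, `type1`; `CL1` with `x = δ0` and the inequality of `sel1`, divided by `l`, give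
`(2 u d + 2 d l + 1) + n + cost ≤ gain + j + (2 u - j - 1) s`; so
`|T| p^(gain) p^(j + (2u-j-1) s) ≤ |T| W^gain p^(...) ≤ P² p^(n + cost) p^(j + (2u-j-1) s)` and the left side is at least
`|T| p^(2 u d + 2 d l + 1) p^(n + cost)`; cancel.
`j < #A`: the same with `sel2`, `type2`, `CL2`, `x = δ0 ≤ n - j ≤ 2 u - 2 j - 1`, `j < u`.
-/

set_option autoImplicit false

namespace Pool.Agent.Lib.MP_e426f4_ag.DL

open Finset
open Pool.Agent.Lib.MP_e426f4_ag.DG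
open Pool.Agent.Lib.MP_e426f4_ag.DK

/-- the cancellation -/
private theorem tb_fin {d s u l e m w E : ℕ} (S : Su d s u l e m w E) (N g c n a b : ℕ)
    (h : (N : ℝ) * (S.W : ℝ) ^ g ≤ (S.P : ℝ) ^ 2 * (S.p : ℝ) ^ (n + c))
    (hab : a + (n + c) ≤ g + b) :
    (N : ℝ) * (S.p : ℝ) ^ a ≤ (S.P : ℝ) ^ 2 * (S.p : ℝ) ^ b := by
  have hp1 : (1 : ℝ) ≤ S.p := by exact_mod_cast S.p_pos
  have hp0 : (0 : ℝ) < S.p := by linarith
  have hpW : (S.p : ℝ) ≤ S.W := by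
    have h1 : S.p ≤ S.W := by
      unfold Su.p Su.W
      exact Nat.pow_le_pow_right S.R_pos (Nat.sub_le _ _)
    exact_mod_cast h1
  have hN : (0 : ℝ) ≤ N := Nat.cast_nonneg _
  have h2 : (N : ℝ) * (S.p : ℝ) ^ a * (S.p : ℝ) ^ (n + c) ≤
      (S.P : ℝ) ^ 2 * (S.p : ℝ) ^ b * (S.p : ℝ) ^ (n + c) := by
    calc (N : ℝ) * (S.p : ℝ) ^ a * (S.p : ℝ) ^ (n + c) = (N : ℝ) * (S.p : ℝ) ^ (a + (n + c)) := by
          rw [pow_add (S.p : ℝ) a]
          ring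
      _ ≤ (N : ℝ) * (S.p : ℝ) ^ (g + b) :=
          mul_le_mul_of_nonneg_left (pow_le_pow_right₀ hp1 hab) hN
      _ = (N : ℝ) * (S.p : ℝ) ^ g * (S.p : ℝ) ^ b := by
          rw [pow_add]
          ring
      _ ≤ (N : ℝ) * (S.W : ℝ) ^ g * (S.p : ℝ) ^ b := by gcongr
      _ ≤ (S.P : ℝ) ^ 2 * (S.p : ℝ) ^ (n + c) * (S.p : ℝ) ^ b := by gcongr
      _ = _ := by ring
  exact le_of_mul_le_mul_right h2 (by positivity)

theorem typeB {d s u l e m w E : ℕ} (S : Su d s u l e m w E) (hC : CL d s u l e) (t t' : ℕ) (ht : t ∈ S.I)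
    (ht' : t' ∈ S.I) (A : Finset (Fin u)) (j : ℕ) (hj : j + e + 1 ≤ 2 * u)
    (K : ℕ → Finset (Fin u ⊕ Fin u)) (hK : IsCh (FA A) (thA A) j K)
    (T : Finset ((ZMod S.P × ZMod S.P) × ((Fin u → ℕ) × (Fin u → ℕ))))
    (hT : ∀ x ∈ T, x.2 ∈ Zo S t t' A x.1 ∧ ∀ i, i ≤ j →
      S.R ^ 3 * S.p ^ (j - i) ≤ (dcell ka (Zo S t t' A x.1) (FA A) (K i) x.2).card) :
    (T.card : ℝ) * (S.p : ℝ) ^ (2 * u * d + 2 * (d * l) + 1) ≤
      (S.P : ℝ) ^ 2 * (S.p : ℝ) ^ (j + (2 * u - j - 1) * s) := by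
  obtain ⟨n, hn⟩ : ∃ n : ℕ, n = (FA A).card := ⟨_, rfl⟩
  obtain ⟨k, hkd⟩ : ∃ k : ℕ → ℕ, k = fun i => (K i).card := ⟨_, rfl⟩
  have hk : ∀ i, i < j → k i < k (i + 1) := by
    intro i hi
    rw [hkd]
    exact card_lt_card (hK.ssub i hi)
  have hkn : k j < n := by
    rw [hkd, hn]
    exact card_lt_card (Finset.ssubset_iff_subset_ne.2 ⟨hK.sub j le_rfl, hK.ne⟩)
  have hcF : n + A.card = 2 * u := by
    rw [hn]
    exact card_FA A
  have hAu : A.card ≤ u := by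
    have h := card_le_univ A
    rwa [Fintype.card_fin] at h
  have h4u := hC.h4u
  have hdl := hC.hdl
  have hd := S.hd
  have hl : 0 < l := by omega
  have hn2 : 2 * n ≤ (d + 1) * l := by omega
  rcases Nat.lt_or_ge j A.card with hjA | hjA
  · -- one more base element
    obtain ⟨r, lev, hr, hmono, hlr, hsel⟩ := sel2 d l n j k hd hdl hk hkn hn2
    have hty := type2 S t t' ht ht' A j K hK r lev hr hmono (by rw [← hn]; exact hlr) T hT
    rw [← hn] at hty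
    have hcl := hC.h2 j (dlt n j k 0) (by omega) (by
      unfold dlt
      omega)
    rw [hkd] at hsel hcl
    obtain ⟨gs, hgs⟩ : ∃ gs : ℕ, gs = ∑ a ∈ range r,
      d * min l ((K (lev (a + 1))).card - (K (lev a)).card) := ⟨_, rfl⟩
    obtain ⟨cs, hcs⟩ : ∃ cs : ℕ, cs = ∑ a ∈ range r, dlt n j (fun i => (K i).card) (lev a) :=
      ⟨_, rfl⟩
    obtain ⟨δj, hδj⟩ : ∃ δj : ℕ, δj = dlt n j (fun i => (K i).card) j := ⟨_, rfl⟩
    obtain ⟨x, hx⟩ : ∃ x : ℕ, x = dlt n j (fun i => (K i).card) 0 := ⟨_, rfl⟩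
    simp only at hsel
    rw [← hgs, ← hcs, ← hδj, ← hx] at hsel
    rw [← hx] at hcl
    rw [← hgs, ← hcs, ← hδj] at hty
    rw [add_assoc n cs δj] at hty
    refine tb_fin S T.card _ (cs + δj) n _ _ hty ?_
    have h1 : l * ((2 * u * d + 2 * (d * l) + 1) + (2 * u - 2 * j - 1) + (cs + δj)) ≤
        l * ((gs + d * l + d * min l δj) + (2 * u - j - 1) * s) := by
      simp only [mul_add] at hsel hcl ⊢
      omega
    have h2 := Nat.le_of_mul_le_mul_left h1 hl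
    omega
  · -- two more base elements
    obtain ⟨r, lev, hr, hmono, hlr, hsel⟩ := sel1 d l n j k hd hdl hk hkn hn2
    have hty := type1 S t t' ht ht' A j hjA K hK r lev hr hmono (by rw [← hn]; exact hlr) T hT
    rw [← hn] at hty
    have hcl := hC.h1 j (dlt n j k 0) hj (by
      unfold dlt
      omega)
    rw [hkd] at hsel hcl
    obtain ⟨gs, hgs⟩ : ∃ gs : ℕ, gs = ∑ a ∈ range r,
      d * min l ((K (lev (a + 1))).card - (K (lev a)).card) := ⟨_, rfl⟩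
    obtain ⟨cs, hcs⟩ : ∃ cs : ℕ, cs = ∑ a ∈ range r, dlt n j (fun i => (K i).card) (lev a) :=
      ⟨_, rfl⟩
    obtain ⟨δj, hδj⟩ : ∃ δj : ℕ, δj = dlt n j (fun i => (K i).card) j := ⟨_, rfl⟩
    obtain ⟨x, hx⟩ : ∃ x : ℕ, x = dlt n j (fun i => (K i).card) 0 := ⟨_, rfl⟩
    simp only at hsel
    rw [← hgs, ← hcs, ← hδj, ← hx] at hsel
    rw [← hx] at hcl
    rw [← hgs, ← hcs, ← hδj] at hty
    rw [add_assoc n cs (2 * δj)] at hty
    refine tb_fin S T.card _ (cs + 2 * δj) n _ _ hty ?_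
    have h1 : l * ((2 * u * d + 2 * (d * l) + 1) + (2 * u - j) + (cs + 2 * δj)) ≤
        l * ((gs + 2 * (d * l) + min (d * l) ((d - 1) * δj)) + (2 * u - j - 1) * s) := by
      simp only [mul_add] at hsel hcl ⊢
      omega
    have h2 := Nat.le_of_mul_le_mul_left h1 hl
    omega

end Pool.Agent.Lib.MP_e426f4_ag.DL
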