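import Pool.Agent.Lib.MP_e426f4_ag.DL.Reg
import Pool.Agent.Lib.MP_e426f4_ag.DL.Chain
import Pool.Agent.Lib.MP_e426f4_ag.DL.TypeB

/-!
# ClsL: the bound for the class of `t, t', A`

`Ω = {o : theta ≤ |Zo o|}`.  For `τ : Fin (j+1) → Finset C` (at most `(2^(2u))^(j+1) ≤ 2^(4u² + 2u)` of them) put `K_τ i = τ (min i j)` and, if
`IsCh (FA A) (thA A) j K_τ`, let `T_τ` be the set of all `(o, w)` with `w ∈ Zo o` and `R^3 p^(j-i) ≤ |dcell ka (Zo o) (FA A) (K_τ i) w|` for `i ≤ j`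
(`T_τ = ∅` otherwise): `typeB`.
For `o ∈ Ω`: `reg` (`F = FA A`, `Z = Zo o`, `p = S.p`, `cl_image_le`) gives `Z'`, `|Zo o| ≤ 2 |Z'|`; `chain` (`G = 2 #FA 2^#FA`, `m = 4 u`,
`th = thA A`, `hinj` by `cl_agree`; `hbig`: `theta ≥ R^cG p^j`) gives for each `w ∈ Z'` a chain `K`, and
`|Zo o| ≤ 2 G^i m^n p^i |dcell|` with `2 G^i m^n ≤ R^4` (`const_le`), `|Zo o| ≥ R^cG p^j`, `cG ≥ 7`; so `(o, w) ∈ T_τ` for the restriction `τ` of `K`.
Hence `|Ω| theta ≤ 2 ∑_τ |T_τ|`, and `|Ω| R^cG p^j p^(2ud+2dl+1) ≤ 2 2^(4u²+2u) P² p^(j + (2u-j-1) s)`, `2 2^(4u²+2u) ≤ R^2 ≤ R^cG`.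
-/

set_option autoImplicit false

namespace Pool.Agent.Lib.MP_e426f4_ag.DL

open Finset
open Pool.Agent.Lib.MP_e426f4_ag.DG
open Pool.Agent.Lib.MP_e426f4_ag.DK

private lemma clsL_num {d s u l e m w E : ℕ} (S : Su d s u l e m w E) (j n i : ℕ)
    (hj : j + 1 ≤ 2 * u) (hn : n ≤ 2 * u) (hi : i ≤ j) :
    2 * (2 * n * 2 ^ n) ^ i * (4 * u) ^ n ≤ S.R ^ 4 := by
  obtain ⟨h1, h2, h3, h4, h5, h6, h7, -, -⟩ := S.nums
  obtain ⟨c1, c2, -⟩ := Su.sum_le_cN d s u m w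
  have a1 : (2 * n) ^ i ≤ S.R := S.const_le _ _ (by omega) (by omega)
  have a2 : 2 ^ (n * i) ≤ S.R := by
    refine S.const_le _ _ (by omega) ?_
    have h8 : n * i ≤ (2 * u) * (2 * u) := Nat.mul_le_mul hn (by omega)
    have h9 : (2 * u) * (2 * u) ≤ (d + s + u + m + w + 10) * (d + s + u + m + w + 10) :=
      Nat.mul_le_mul (by omega) (by omega)
    rw [pow_two] at c2
    omega
  have a3 : (4 * u) ^ n ≤ S.R := S.const_le _ _ (by omega) (by omega)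
  have a4 : 2 ≤ S.R := by
    have := S.const_le 2 1 (by omega) (by omega)
    simpa using this
  calc 2 * (2 * n * 2 ^ n) ^ i * (4 * u) ^ n = 2 * ((2 * n) ^ i * 2 ^ (n * i)) * (4 * u) ^ n := by
        rw [mul_pow (2 * n), ← pow_mul]
    _ ≤ S.R * (S.R * S.R) * S.R :=
        Nat.mul_le_mul (Nat.mul_le_mul a4 (Nat.mul_le_mul a1 a2)) a3
    _ = S.R ^ 4 := by ring

private lemma clsL_types {d s u l e m w E : ℕ} (S : Su d s u l e m w E) (j : ℕ)
    (hj : j + 1 ≤ 2 * u) :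
    2 * Fintype.card (Fin (j + 1) → Finset (Fin u ⊕ Fin u)) ≤ S.R ^ 2 := by
  obtain ⟨h1, h2, h3, h4, h5, h6, h7, -, -⟩ := S.nums
  obtain ⟨c1, c2, -⟩ := Su.sum_le_cN d s u m w
  have e1 : Fintype.card (Fin (j + 1) → Finset (Fin u ⊕ Fin u)) = 2 ^ ((u + u) * (j + 1)) := by
    rw [Fintype.card_fun, Fintype.card_finset, Fintype.card_sum, Fintype.card_fin,
      Fintype.card_fin, ← pow_mul]
  have a2 : 2 ^ ((u + u) * (j + 1)) ≤ S.R := by
    refine S.const_le _ _ (by omega) ?_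
    have h8 : (u + u) * (j + 1) ≤ (2 * u) * (2 * u) := Nat.mul_le_mul (by omega) hj
    have h9 : (2 * u) * (2 * u) ≤ (d + s + u + m + w + 10) * (d + s + u + m + w + 10) :=
      Nat.mul_le_mul (by omega) (by omega)
    rw [pow_two] at c2
    omega
  have a4 : 2 ≤ S.R := by
    have := S.const_le 2 1 (by omega) (by omega)
    simpa using this
  rw [e1, pow_two]
  exact Nat.mul_le_mul a4 a2

/-- the type given by a map on `Fin (j + 1)` -/
private def clsL_K {u : ℕ} (j : ℕ) (τ : Fin (j + 1) → Finset (Fin u ⊕ Fin u)) (i : ℕ) :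
    Finset (Fin u ⊕ Fin u) := τ ⟨min i j, by omega⟩

open Classical in
/-- the pairs of a type -/
private noncomputable def clsL_T {d s u l e m w E : ℕ} (S : Su d s u l e m w E) (t t' : ℕ)
    (A : Finset (Fin u)) (j : ℕ) (τ : Fin (j + 1) → Finset (Fin u ⊕ Fin u)) :
    Finset ((ZMod S.P × ZMod S.P) × ((Fin u → ℕ) × (Fin u → ℕ))) :=
  ((univ : Finset (ZMod S.P × ZMod S.P)) ×ˢ S.Cl A).filter fun x =>
    IsCh (FA A) (thA A) j (clsL_K j τ) ∧ x.2 ∈ Zo S t t' A x.1 ∧ ∀ i, i ≤ j →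
      S.R ^ 3 * S.p ^ (j - i) ≤
        (dcell ka (Zo S t t' A x.1) (FA A) (clsL_K j τ i) x.2).card

private lemma clsL_Tle {d s u l e m w E : ℕ} (S : Su d s u l e m w E) (hC : CL d s u l e)
    (t t' : ℕ) (ht : t ∈ S.I) (ht' : t' ∈ S.I) (A : Finset (Fin u)) (j : ℕ)
    (hj : j + e + 1 ≤ 2 * u) (τ : Fin (j + 1) → Finset (Fin u ⊕ Fin u)) :
    ((clsL_T S t t' A j τ).card : ℝ) * (S.p : ℝ) ^ (2 * u * d + 2 * (d * l) + 1) ≤
      (S.P : ℝ) ^ 2 * (S.p : ℝ) ^ (j + (2 * u - j - 1) * s) := by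
  classical
  by_cases h : IsCh (FA A) (thA A) j (clsL_K j τ)
  · refine typeB S hC t t' ht ht' A j hj (clsL_K j τ) h _ ?_
    intro x hx
    unfold clsL_T at hx
    rw [mem_filter] at hx
    exact hx.2.2
  · have h0 : clsL_T S t t' A j τ = ∅ := by
      unfold clsL_T
      rw [filter_eq_empty_iff]
      intro x _ hx
      exact h hx.1
    rw [h0, card_empty, Nat.cast_zero, zero_mul]
    positivity

private lemma clsL_key {d s u l e m w E : ℕ} (S : Su d s u l e m w E) (t t' : ℕ)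
    (A : Finset (Fin u)) (j : ℕ) (hj : j + e + 1 ≤ 2 * u) (o : ZMod S.P × ZMod S.P)
    (ho : S.R ^ cG d u * S.p ^ j ≤ (Zo S t t' A o).card) :
    (Zo S t t' A o).card ≤ 2 * (((univ : Finset (Fin (j + 1) →
      Finset (Fin u ⊕ Fin u))).biUnion (clsL_T S t t' A j)).filter fun x => x.1 = o).card := by
  classical
  obtain ⟨h1, h2, h3, h4, h5, h6, h7, -, -⟩ := S.nums
  have hFA := card_FA A
  have hAu : A.card ≤ u := by
    have := card_le_univ A
    rwa [Fintype.card_fin] at this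
  have hR : 1 ≤ S.R := S.R_pos
  have hp : 1 ≤ S.p := S.p_pos
  have hsub : Zo S t t' A o ⊆ S.Cl A := by
    unfold Zo
    exact filter_subset _ _
  have hcG : 7 ≤ cG d u := by
    have : 1 ≤ (u + d + 3) ^ 2 := Nat.one_le_pow _ _ (by omega)
    unfold cG
    omega
  have hG1 : 1 ≤ 2 * (FA A).card * 2 ^ (FA A).card := by
    have g1 : 1 ≤ 2 ^ (FA A).card := Nat.one_le_pow _ _ (by omega)
    have g2 : 1 ≤ 2 * (FA A).card := by omega
    exact Nat.mul_pos g2 g1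
  obtain ⟨Z', hZ', hZc, hreg⟩ := reg ka (Zo S t t' A o) (FA A) S.p fun c _ =>
    (card_le_card (image_subset_image hsub)).trans (cl_image_le S A c)
  refine hZc.trans (Nat.mul_le_mul_left 2 ?_)
  refine card_le_card_of_injOn (fun w => (o, w)) ?_ ?_
  · intro w hw
    have hw : w ∈ Z' := hw
    have hwZ := hZ' hw
    obtain ⟨K, hK, hKc⟩ := chain ka (Zo S t t' A o) (FA A) (thA A) S.p
      (2 * (FA A).card * 2 ^ (FA A).card) (4 * u) j w (thA_sub A) hwZ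
      (fun z hz h => cl_agree S A z w (hsub hz) (hsub hwZ) h) hp hG1 (by omega) (by omega)
      (hreg w hw) (by
        have b1 := clsL_num S j (FA A).card j (by omega) (by omega) le_rfl
        have b2 : S.R ^ 4 ≤ S.R ^ cG d u := Nat.pow_le_pow_right hR (by omega)
        have b3 : 1 ≤ (2 * (FA A).card * 2 ^ (FA A).card) ^ j * (4 * u) ^ (FA A).card * S.p ^ j :=
          Nat.mul_pos (Nat.mul_pos (pow_pos (by omega) _) (pow_pos (by omega) _))
            (pow_pos (by omega) _)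
        calc (2 * (FA A).card * 2 ^ (FA A).card) ^ j * (4 * u) ^ (FA A).card * S.p ^ j
            < 2 * ((2 * (FA A).card * 2 ^ (FA A).card) ^ j * (4 * u) ^ (FA A).card * S.p ^ j) := by
              omega
          _ = (2 * (2 * (FA A).card * 2 ^ (FA A).card) ^ j * (4 * u) ^ (FA A).card) * S.p ^ j := by
              ring
          _ ≤ S.R ^ cG d u * S.p ^ j := Nat.mul_le_mul_right _ (b1.trans b2)
          _ ≤ _ := ho)
    rw [mem_coe, mem_filter, mem_biUnion]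
    have hKi : ∀ i, i ≤ j → clsL_K j (fun i : Fin (j + 1) => K i) i = K i := by
      intro i hi
      unfold clsL_K
      simp only [min_eq_left hi]
    refine ⟨⟨fun i : Fin (j + 1) => K i, mem_univ _, ?_⟩, rfl⟩
    unfold clsL_T
    rw [mem_filter, mem_product]
    refine ⟨⟨mem_univ _, hsub hwZ⟩, ?_, hwZ, ?_⟩
    · refine ⟨fun i hi => ?_, fun i hi => ?_, fun h => ?_, ?_⟩
      · rw [hKi i hi]
        exact hK.sub i hi
      · rw [hKi i (by omega), hKi (i + 1) (by omega)]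
        exact hK.ssub i hi
      · rw [hKi j le_rfl]
        exact hK.th h
      · rw [hKi j le_rfl]
        exact hK.ne
    · intro i hi
      change S.R ^ 3 * S.p ^ (j - i) ≤
        (dcell ka (Zo S t t' A o) (FA A) (clsL_K j (fun i : Fin (j + 1) => K i) i) w).card
      rw [hKi i hi]
      have b1 := clsL_num S j (FA A).card i (by omega) (by omega) hi
      have b2 : S.R ^ 7 ≤ S.R ^ cG d u := Nat.pow_le_pow_right hR hcG
      have b3 := hKc i hi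
      generalize (dcell ka (Zo S t t' A o) (FA A) (K i) w).card = D at b3 ⊢
      have b4 : (S.R ^ 4 * S.p ^ i) * (S.R ^ 3 * S.p ^ (j - i)) ≤ (S.R ^ 4 * S.p ^ i) * D := by
        calc (S.R ^ 4 * S.p ^ i) * (S.R ^ 3 * S.p ^ (j - i))
            = S.R ^ 7 * (S.p ^ i * S.p ^ (j - i)) := by ring
          _ = S.R ^ 7 * S.p ^ j := by rw [← pow_add, Nat.add_sub_cancel' hi]
          _ ≤ S.R ^ cG d u * S.p ^ j := Nat.mul_le_mul_right _ b2
          _ ≤ _ := ho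
          _ ≤ 2 * (2 * (FA A).card * 2 ^ (FA A).card) ^ i * (4 * u) ^ (FA A).card * S.p ^ i * D :=
              b3
          _ ≤ (S.R ^ 4 * S.p ^ i) * D :=
              Nat.mul_le_mul_right _ (Nat.mul_le_mul_right _ b1)
      exact Nat.le_of_mul_le_mul_left b4 (Nat.mul_pos (pow_pos (by omega) _) (pow_pos (by omega) _))
  · intro w _ w' _ h
    exact (Prod.mk.injEq _ _ _ _ ▸ h).2

open Classical in
theorem clsL {d s u l e m w E : ℕ} (S : Su d s u l e m w E) (hC : CL d s u l e) (t t' : ℕ) (ht : t ∈ S.I)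
    (ht' : t' ∈ S.I) (A : Finset (Fin u)) (j : ℕ) (hj : j + e + 1 ≤ 2 * u) (theta : ℝ)
    (htheta : (S.R : ℝ) ^ cG d u * (S.p : ℝ) ^ j ≤ theta) :
    (((univ : Finset (ZMod S.P × ZMod S.P)).filter fun o => theta ≤
      ((Zo S t t' A o).card : ℝ)).card : ℝ) * (S.p : ℝ) ^ (2 * u * d + 2 * (d * l) + 1) ≤
      (S.P : ℝ) ^ 2 * (S.p : ℝ) ^ ((2 * u - j - 1) * s) := by
  obtain ⟨h1, h2, h3, h4, h5, h6, h7, -, -⟩ := S.nums
  have hR1 : (1 : ℝ) ≤ S.R := by exact_mod_cast S.R_pos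
  have hR0 : (0 : ℝ) < S.R := by linarith
  have hp1 : (1 : ℝ) ≤ S.p := by exact_mod_cast S.p_pos
  have hp0 : (0 : ℝ) < S.p := by linarith
  have hcG : 7 ≤ cG d u := by
    have : 1 ≤ (u + d + 3) ^ 2 := Nat.one_le_pow _ _ (by omega)
    unfold cG
    omega
  obtain ⟨Om, hOm⟩ : ∃ Om : Finset (ZMod S.P × ZMod S.P), Om =
      (univ : Finset (ZMod S.P × ZMod S.P)).filter fun o => theta ≤
        ((Zo S t t' A o).card : ℝ) := ⟨_, rfl⟩
  rw [← hOm]
  obtain ⟨TT, hTT⟩ : ∃ TT : Finset ((ZMod S.P × ZMod S.P) × ((Fin u → ℕ) × (Fin u → ℕ))),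
      TT = (univ : Finset (Fin (j + 1) → Finset (Fin u ⊕ Fin u))).biUnion
        (clsL_T S t t' A j) := ⟨_, rfl⟩
  have hkey : ∀ o ∈ Om, (S.R : ℝ) ^ cG d u * (S.p : ℝ) ^ j ≤
      2 * ((TT.filter fun x => x.1 = o).card : ℝ) := by
    intro o ho
    rw [hOm, mem_filter] at ho
    have g1 : (S.R : ℝ) ^ cG d u * (S.p : ℝ) ^ j ≤ ((Zo S t t' A o).card : ℝ) :=
      htheta.trans ho.2
    have g2 : S.R ^ cG d u * S.p ^ j ≤ (Zo S t t' A o).card := by exact_mod_cast g1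
    have g3 := clsL_key S t t' A j hj o g2
    rw [← hTT] at g3
    refine g1.trans ?_
    exact_mod_cast g3
  have hsum : (Om.card : ℝ) * ((S.R : ℝ) ^ cG d u * (S.p : ℝ) ^ j) ≤ 2 * (TT.card : ℝ) := by
    have g1 : (∑ o ∈ Om, (TT.filter fun x => x.1 = o).card) ≤ TT.card := by
      rw [sum_card_fiberwise_eq_card_filter]
      exact card_filter_le _ _
    calc (Om.card : ℝ) * ((S.R : ℝ) ^ cG d u * (S.p : ℝ) ^ j)
        = ∑ _o ∈ Om, (S.R : ℝ) ^ cG d u * (S.p : ℝ) ^ j := by rw [sum_const, nsmul_eq_mul]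
      _ ≤ ∑ o ∈ Om, 2 * ((TT.filter fun x => x.1 = o).card : ℝ) := sum_le_sum hkey
      _ = 2 * ((∑ o ∈ Om, (TT.filter fun x => x.1 = o).card : ℕ) : ℝ) := by
          push_cast
          rw [mul_sum]
      _ ≤ 2 * (TT.card : ℝ) := by
          refine mul_le_mul_of_nonneg_left ?_ (by norm_num)
          exact_mod_cast g1
  have hTTc : (TT.card : ℝ) * (S.p : ℝ) ^ (2 * u * d + 2 * (d * l) + 1) ≤
      (Fintype.card (Fin (j + 1) → Finset (Fin u ⊕ Fin u)) : ℝ) *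
        ((S.P : ℝ) ^ 2 * (S.p : ℝ) ^ (j + (2 * u - j - 1) * s)) := by
    have g1 : TT.card ≤ ∑ τ : Fin (j + 1) → Finset (Fin u ⊕ Fin u),
        (clsL_T S t t' A j τ).card := by
      rw [hTT]
      exact card_biUnion_le
    have g2 : (TT.card : ℝ) ≤ ∑ τ : Fin (j + 1) → Finset (Fin u ⊕ Fin u),
        ((clsL_T S t t' A j τ).card : ℝ) := by exact_mod_cast g1
    calc (TT.card : ℝ) * (S.p : ℝ) ^ (2 * u * d + 2 * (d * l) + 1)
        ≤ (∑ τ : Fin (j + 1) → Finset (Fin u ⊕ Fin u), ((clsL_T S t t' A j τ).card : ℝ)) *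
          (S.p : ℝ) ^ (2 * u * d + 2 * (d * l) + 1) :=
          mul_le_mul_of_nonneg_right g2 (by positivity)
      _ = ∑ τ : Fin (j + 1) → Finset (Fin u ⊕ Fin u), ((clsL_T S t t' A j τ).card : ℝ) *
          (S.p : ℝ) ^ (2 * u * d + 2 * (d * l) + 1) := by rw [sum_mul]
      _ ≤ ∑ _τ : Fin (j + 1) → Finset (Fin u ⊕ Fin u),
          (S.P : ℝ) ^ 2 * (S.p : ℝ) ^ (j + (2 * u - j - 1) * s) :=
          sum_le_sum fun τ _ => clsL_Tle S hC t t' ht ht' A j hj τ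
      _ = _ := by rw [sum_const, nsmul_eq_mul, card_univ]
  have htypes : 2 * (Fintype.card (Fin (j + 1) → Finset (Fin u ⊕ Fin u)) : ℝ) ≤
      (S.R : ℝ) ^ 2 := by exact_mod_cast clsL_types S j (by omega)
  have hRR : (S.R : ℝ) ^ 2 ≤ (S.R : ℝ) ^ cG d u := pow_le_pow_right₀ hR1 (by omega)
  have hfin : ((S.R : ℝ) ^ cG d u * (S.p : ℝ) ^ j) *
      ((Om.card : ℝ) * (S.p : ℝ) ^ (2 * u * d + 2 * (d * l) + 1)) ≤
      ((S.R : ℝ) ^ cG d u * (S.p : ℝ) ^ j) *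
        ((S.P : ℝ) ^ 2 * (S.p : ℝ) ^ ((2 * u - j - 1) * s)) := by
    calc ((S.R : ℝ) ^ cG d u * (S.p : ℝ) ^ j) *
        ((Om.card : ℝ) * (S.p : ℝ) ^ (2 * u * d + 2 * (d * l) + 1))
        = ((Om.card : ℝ) * ((S.R : ℝ) ^ cG d u * (S.p : ℝ) ^ j)) *
          (S.p : ℝ) ^ (2 * u * d + 2 * (d * l) + 1) := by ring
      _ ≤ (2 * (TT.card : ℝ)) * (S.p : ℝ) ^ (2 * u * d + 2 * (d * l) + 1) :=
          mul_le_mul_of_nonneg_right hsum (by positivity)
      _ = 2 * ((TT.card : ℝ) * (S.p : ℝ) ^ (2 * u * d + 2 * (d * l) + 1)) := by ring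
      _ ≤ 2 * ((Fintype.card (Fin (j + 1) → Finset (Fin u ⊕ Fin u)) : ℝ) *
          ((S.P : ℝ) ^ 2 * (S.p : ℝ) ^ (j + (2 * u - j - 1) * s))) :=
          mul_le_mul_of_nonneg_left hTTc (by norm_num)
      _ = (2 * (Fintype.card (Fin (j + 1) → Finset (Fin u ⊕ Fin u)) : ℝ)) *
          ((S.P : ℝ) ^ 2 * (S.p : ℝ) ^ (j + (2 * u - j - 1) * s)) := by ring
      _ ≤ (S.R : ℝ) ^ cG d u * ((S.P : ℝ) ^ 2 * (S.p : ℝ) ^ (j + (2 * u - j - 1) * s)) :=
          mul_le_mul_of_nonneg_right (htypes.trans hRR) (by positivity)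
      _ = _ := by rw [pow_add]; ring
  exact le_of_mul_le_mul_left hfin (by positivity)

end Pool.Agent.Lib.MP_e426f4_ag.DL
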