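import Mathlib
import Pool.Agent.Lib.MP_e426f4_ag.DK.Defs

/-!
# Three base elements: definitions

The notation is that of `DK.Defs`.  `C = Fin u ⊕ Fin u` are the coordinates of a pair of choices of primes, `FA A` those
which count for the class `Cl A` (`z.2 c = z.1 c` for `c ∈ A`), `thA A` the common ones.
-/

set_option autoImplicit false

namespace Pool.Agent.Lib.MP_e426f4_ag.DL

open Finset
open Pool.Agent.Lib.MP_e426f4_ag.DG
open Pool.Agent.Lib.MP_e426f4_ag.DK

/-- the elements of `Z` which agree with `w` at the coordinates of `K` -/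
def cell {α C : Type} (ka : C → α → ℕ) (Z : Finset α) (K : Finset C) (w : α) : Finset α :=
  Z.filter fun z => ∀ c ∈ K, ka c z = ka c w

/-- the elements of `Z` which, among the coordinates of `F`, agree with `w` exactly at those of `K` -/
def dcell {α C : Type} [DecidableEq C] (ka : C → α → ℕ) (Z : Finset α) (F K : Finset C) (w : α) :
    Finset α :=
  Z.filter fun z => (∀ c ∈ K, ka c z = ka c w) ∧ ∀ c ∈ F \ K, ka c z ≠ ka c w

/-- the chain of the closed sets `K 0 ⊂ K 1 ⊂ ... ⊂ K j` -/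
structure IsCh {C : Type} (F th : Finset C) (j : ℕ) (K : ℕ → Finset C) : Prop where
  sub : ∀ i, i ≤ j → K i ⊆ F
  ssub : ∀ i, i < j → K i ⊂ K (i + 1)
  th : th.card ≤ j → th ⊆ K j
  ne : K j ≠ F

/-- `δ_i = n - k_i - (j - i)`, the cost of an element at the level `i` -/
def dlt (n j : ℕ) (k : ℕ → ℕ) (i : ℕ) : ℕ := n - k i - (j - i)

/-- coordinates of a pair of choices -/
def ka {u : ℕ} (c : Fin u ⊕ Fin u) (z : (Fin u → ℕ) × (Fin u → ℕ)) : ℕ := Sum.elim z.1 z.2 c

/-- the block of a coordinate -/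
def ix {u : ℕ} (c : Fin u ⊕ Fin u) : Fin u := Sum.elim id id c

/-- the coordinates of the class `A` -/
def FA {u : ℕ} (A : Finset (Fin u)) : Finset (Fin u ⊕ Fin u) := (univ : Finset (Fin u)).disjSum Aᶜ

/-- the common coordinates of the class `A` -/
def thA {u : ℕ} (A : Finset (Fin u)) : Finset (Fin u ⊕ Fin u) := A.disjSum ∅

/-- the elements of the class `Cl A` which contribute to `F(b, b')` -/
noncomputable def Zo {d s u l e m w E : ℕ} (S : Su d s u l e m w E) (t t' : ℕ) (A : Finset (Fin u))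
    (o : ZMod S.P × ZMod S.P) : Finset ((Fin u → ℕ) × (Fin u → ℕ)) :=
  (S.Cl A).filter fun z => wh S.P S.n (o.1 * ((pr t t' z).1 : ZMod S.P) ^ d -
    o.2 * ((pr t t' z).2 : ZMod S.P) ^ d) ≠ 0

/-- `|v₁^d w₂^d - v₂^d w₁^d|` -/
def ddn (d : ℕ) (v w : ℕ × ℕ) : ℕ := ((v.1 : ℤ) ^ d * (w.2 : ℤ) ^ d - (v.2 : ℤ) ^ d * (w.1 : ℤ) ^ d).natAbs

/-- `w, v, o` satisfy a relation with small coefficients -/
def Bad (d N : ℕ) (w v o : ℕ × ℕ) : Prop :=
  max (ddn d v w) (ddn d o w) < N * Nat.gcd (ddn d v w) (ddn d o w)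

/-- the exponents of the levels are negative for the classes with `#A ≤ j` -/
def CL1 (d s u l e : ℕ) : Prop := ∀ j x : ℕ, j + e + 1 ≤ 2 * u → x + j ≤ 2 * u →
  l * (2 * u * d + 2 * (d * l) + 1) + l * (2 * u - j) + (j + 3 * l) * x ≤
    l * ((2 * u - j - 1) * s) + l * (d * (j + 2 * l)) + l * min (d * l) ((d - 1) * x)

/-- the exponents of the levels are negative for the classes with `j < #A` -/
def CL2 (d s u l : ℕ) : Prop := ∀ j x : ℕ, j < u → x + 2 * j + 1 ≤ 2 * u →
  l * (2 * u * d + 2 * (d * l) + 1) + l * (2 * u - 2 * j - 1) + (j + 2 * l) * x ≤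
    l * ((2 * u - j - 1) * s) + l * (d * (j + l)) + l * ((d - 1) * min l x)

/-- all conditions on the parameters -/
structure CL (d s u l e : ℕ) : Prop where
  hdl : d ≤ l
  h4u : 4 * u ≤ (d + 1) * l
  h1 : CL1 d s u l e
  h2 : CL2 d s u l

end Pool.Agent.Lib.MP_e426f4_ag.DL
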