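import Pool.Agent.Lib.MP_e426f4_ag.DL.ClsL

/-!
# LevelL: the number of the pairs `(b, b')` with many contributing pairs (adapt `DK/Level.lean`)

`X × X` is covered by the `|I|² 2^u ≤ T^3` images of the classes `Cl A` under `pr t t'`.  If `Nz` has more than `T^(cG+3) p^j` elements, some class
has more than `theta = T^cG p^j ≥ R^cG p^j` elements in `Nz`; sum `clsL` over the classes (`lvF S i o` of `DK/Level.lean` is `Zo`).
-/

set_option autoImplicit false

namespace Pool.Agent.Lib.MP_e426f4_ag.DL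

open Finset
open Pool.Agent.Lib.MP_e426f4_ag.DG
open Pool.Agent.Lib.MP_e426f4_ag.DK

/-- the index set -/
private noncomputable def llJ {d s u l e m w E : ℕ} (S : Su d s u l e m w E) :
    Finset ((ℕ × ℕ) × Finset (Fin u)) :=
  (S.I ×ˢ S.I) ×ˢ (univ : Finset (Finset (Fin u)))

private theorem ll_two_u {d s u l e m w E : ℕ} (S : Su d s u l e m w E) : 2 ^ u ≤ S.T := by
  have h0 := S.nums
  have h1 := (Su.sum_le_cN d s u m w).1
  have h2 : 2 ^ 1 ≤ S.R := S.const_le 2 1 (by omega) (by omega)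
  calc 2 ^ u ≤ S.R ^ u := Nat.pow_le_pow_left (by simpa using h2) u
    _ ≤ S.T ^ 1 := S.R_le_T u 1 (by omega)
    _ = S.T := pow_one _

private theorem ll_J {d s u l e m w E : ℕ} (S : Su d s u l e m w E) :
    (llJ S).card ≤ S.T ^ 3 := by
  unfold llJ
  rw [card_product, card_product, card_univ, Fintype.card_finset, Fintype.card_fin]
  calc S.I.card * S.I.card * 2 ^ u ≤ S.T * S.T * S.T :=
        Nat.mul_le_mul (Nat.mul_le_mul S.I_card_le S.I_card_le) (ll_two_u S)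
    _ = S.T ^ 3 := by ring

private theorem ll_cover {d s u l e m w E : ℕ} (S : Su d s u l e m w E)
    (o : ZMod S.P × ZMod S.P) :
    (S.Nz o.1 o.2).card ≤ ∑ i ∈ llJ S, (Zo S i.1.1 i.1.2 i.2 o).card := by
  classical
  have h1 : S.Nz o.1 o.2 ⊆
      (llJ S).biUnion fun i => (Zo S i.1.1 i.1.2 i.2 o).image (pr i.1.1 i.1.2) := by
    intro x hx
    unfold Su.Nz at hx
    rw [mem_filter, mem_product, S.X_mem, S.X_mem] at hx
    obtain ⟨⟨⟨t, ht, z, hz, hx1⟩, ⟨t', ht', z', hz', hx2⟩⟩, hx3⟩ := hx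
    rw [mem_biUnion]
    refine ⟨((t, t'), univ.filter fun c => z c = z' c), ?_, ?_⟩
    · unfold llJ
      rw [mem_product, mem_product]
      exact ⟨⟨ht, ht'⟩, mem_univ _⟩
    · rw [mem_image]
      refine ⟨(z, z'), ?_, ?_⟩
      · unfold Zo Su.Cl
        rw [mem_filter, mem_filter, mem_product]
        refine ⟨⟨⟨hz, hz'⟩, ?_⟩, ?_⟩
        · intro c
          rw [mem_filter]
          exact ⟨fun h => ⟨mem_univ _, h⟩, fun h => h.2⟩
        · unfold pr
          dsimp only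
          rw [← hx1, ← hx2]
          exact hx3
      · unfold pr
        dsimp only
        rw [← hx1, ← hx2]
  calc (S.Nz o.1 o.2).card
      ≤ ((llJ S).biUnion fun i => (Zo S i.1.1 i.1.2 i.2 o).image (pr i.1.1 i.1.2)).card :=
        card_le_card h1
    _ ≤ ∑ i ∈ llJ S, ((Zo S i.1.1 i.1.2 i.2 o).image (pr i.1.1 i.1.2)).card := card_biUnion_le
    _ ≤ ∑ i ∈ llJ S, (Zo S i.1.1 i.1.2 i.2 o).card := sum_le_sum fun i _ => card_image_le

open Classical in
theorem levelL {d s u l e m w E : ℕ} (S : Su d s u l e m w E) (hC : CL d s u l e) (j : ℕ)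
    (hj : j + e + 1 ≤ 2 * u) :
    (((univ : Finset (ZMod S.P × ZMod S.P)).filter fun o =>
      (S.T : ℝ) ^ (cG d u + 3) * (S.p : ℝ) ^ j < ((S.Nz o.1 o.2).card : ℝ)).card : ℝ) *
        (S.p : ℝ) ^ (2 * u * d + 2 * (d * l) + 1) ≤
      (S.P : ℝ) ^ 2 * ((S.T : ℝ) ^ 3 * (S.p : ℝ) ^ ((2 * u - j - 1) * s)) := by
  have hT1 : (1 : ℝ) ≤ S.T := by exact_mod_cast S.T_pos
  have hp1 : (1 : ℝ) ≤ S.p := by exact_mod_cast S.p_pos
  have hRT : (S.R : ℝ) ≤ S.T := by
    have h0 := S.nums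
    have := S.R_le_T 1 1 (by omega)
    rw [pow_one, pow_one] at this
    exact_mod_cast this
  obtain ⟨theta, hth⟩ : ∃ theta : ℝ, theta = (S.T : ℝ) ^ cG d u * (S.p : ℝ) ^ j := ⟨_, rfl⟩
  have hth0 : 0 < theta := by
    rw [hth]
    positivity
  have htheta : (S.R : ℝ) ^ cG d u * (S.p : ℝ) ^ j ≤ theta := by
    rw [hth]
    exact mul_le_mul_of_nonneg_right (pow_le_pow_left₀ (Nat.cast_nonneg _) hRT _) (by positivity)
  have hsub : ((univ : Finset (ZMod S.P × ZMod S.P)).filter fun o =>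
      (S.T : ℝ) ^ (cG d u + 3) * (S.p : ℝ) ^ j < ((S.Nz o.1 o.2).card : ℝ)) ⊆
      (llJ S).biUnion fun i => (univ : Finset (ZMod S.P × ZMod S.P)).filter fun o =>
        theta ≤ ((Zo S i.1.1 i.1.2 i.2 o).card : ℝ) := by
    intro o ho
    rw [mem_filter] at ho
    rw [mem_biUnion]
    by_contra hcon
    push Not at hcon
    have h1 : ∀ i ∈ llJ S, ((Zo S i.1.1 i.1.2 i.2 o).card : ℝ) ≤ theta := by
      intro i hi
      have h2 := hcon i hi
      rw [mem_filter] at h2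
      push Not at h2
      exact (h2 (mem_univ _)).le
    have h3 : ((S.Nz o.1 o.2).card : ℝ) ≤
        ∑ i ∈ llJ S, ((Zo S i.1.1 i.1.2 i.2 o).card : ℝ) := by
      exact_mod_cast ll_cover S o
    have h4 : ∑ i ∈ llJ S, ((Zo S i.1.1 i.1.2 i.2 o).card : ℝ) ≤ (llJ S).card * theta := by
      refine (sum_le_sum h1).trans ?_
      rw [sum_const, nsmul_eq_mul]
    have h5 : ((llJ S).card : ℝ) ≤ (S.T : ℝ) ^ 3 := by exact_mod_cast ll_J S
    have h6 : ((llJ S).card : ℝ) * theta ≤ (S.T : ℝ) ^ 3 * theta :=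
      mul_le_mul_of_nonneg_right h5 hth0.le
    have h7 : (S.T : ℝ) ^ 3 * theta = (S.T : ℝ) ^ (cG d u + 3) * (S.p : ℝ) ^ j := by
      rw [hth]
      ring
    linarith [ho.2]
  have hcard : ((((univ : Finset (ZMod S.P × ZMod S.P)).filter fun o =>
      (S.T : ℝ) ^ (cG d u + 3) * (S.p : ℝ) ^ j < ((S.Nz o.1 o.2).card : ℝ)).card : ℕ) : ℝ) ≤
      ∑ i ∈ llJ S, (((univ : Finset (ZMod S.P × ZMod S.P)).filter fun o =>
        theta ≤ ((Zo S i.1.1 i.1.2 i.2 o).card : ℝ)).card : ℝ) := by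
    have h8 := (card_le_card hsub).trans card_biUnion_le
    rw [← Nat.cast_sum]
    exact Nat.cast_le.2 h8
  have hQ0 : (0 : ℝ) ≤ (S.P : ℝ) ^ 2 * (S.p : ℝ) ^ ((2 * u - j - 1) * s) := by positivity
  have hone : ∀ i ∈ llJ S, (((univ : Finset (ZMod S.P × ZMod S.P)).filter fun o =>
        theta ≤ ((Zo S i.1.1 i.1.2 i.2 o).card : ℝ)).card : ℝ) *
          (S.p : ℝ) ^ (2 * u * d + 2 * (d * l) + 1) ≤
        (S.P : ℝ) ^ 2 * (S.p : ℝ) ^ ((2 * u - j - 1) * s) := by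
    intro i hi
    unfold llJ at hi
    rw [mem_product, mem_product] at hi
    exact clsL S hC i.1.1 i.1.2 hi.1.1 hi.1.2 i.2 j hj theta htheta
  have h5 : ((llJ S).card : ℝ) ≤ (S.T : ℝ) ^ 3 := by exact_mod_cast ll_J S
  refine (mul_le_mul_of_nonneg_right hcard (by positivity)).trans ?_
  rw [sum_mul]
  refine (sum_le_sum hone).trans ?_
  rw [sum_const, nsmul_eq_mul]
  calc ((llJ S).card : ℝ) * ((S.P : ℝ) ^ 2 * (S.p : ℝ) ^ ((2 * u - j - 1) * s))
      ≤ (S.T : ℝ) ^ 3 * ((S.P : ℝ) ^ 2 * (S.p : ℝ) ^ ((2 * u - j - 1) * s)) :=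
        mul_le_mul_of_nonneg_right h5 hQ0
    _ = _ := by ring

end Pool.Agent.Lib.MP_e426f4_ag.DL
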