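import Pool.Agent.Lib.MP_e426f4_ag.DL.Defs

/-!
# DCount: double counting of patterns

Count the tuples `((o, w), β, z)` with `(o, w) ∈ T`, `β ∈ YB w` with `Bp o w β`, `z ∈ ∏ Ya a w` with `z a ∈ Zs o` for all `a`.  For each
`(o, w) ∈ T` there are at least `qb ∏ qa a` of them.  For each `(w, β, z)` with `w ∈ Y`, `β ∈ YB w`, `z ∈ ∏ Ya a w` (at most
`|Y| nb ∏ na a` of them) there are at most `Mx` elements `o`.
(`Fintype.piFinset`, `Fintype.card_piFinset`, `Finset.prod_range`; `sum_comm`.)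
-/

set_option autoImplicit false

namespace Pool.Agent.Lib.MP_e426f4_ag.DL

open Finset

open Classical in
theorem dcount {Ω α β : Type} [Fintype Ω] (Zs : Ω → Finset α) (Bp : Ω → α → β → Prop)
    (Y : Finset α) (YB : α → Finset β) (r : ℕ) (Ya : ℕ → α → Finset α) (T : Finset (Ω × α))
    (qa na : ℕ → ℕ) (qb nb : ℕ) (Mx : ℝ) (hMx : 0 ≤ Mx)
    (hT : ∀ x ∈ T, x.2 ∈ Y ∧ x.2 ∈ Zs x.1)
    (hqa : ∀ x ∈ T, ∀ a, a < r → qa a ≤ ((Ya a x.2).filter fun z => z ∈ Zs x.1).card)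
    (hqb : ∀ x ∈ T, qb ≤ ((YB x.2).filter fun b => Bp x.1 x.2 b).card)
    (hna : ∀ w ∈ Y, ∀ a, a < r → (Ya a w).card ≤ na a) (hnb : ∀ w ∈ Y, (YB w).card ≤ nb)
    (hM : ∀ w ∈ Y, ∀ b ∈ YB w, ∀ z : Fin r → α, (∀ a : Fin r, z a ∈ Ya a w) →
      (((univ : Finset Ω).filter fun o => w ∈ Zs o ∧ Bp o w b ∧ ∀ a, z a ∈ Zs o).card : ℝ) ≤ Mx) :
    (T.card : ℝ) * (qb * ∏ a ∈ range r, (qa a : ℝ)) ≤
      Y.card * (nb * ∏ a ∈ range r, (na a : ℝ)) * Mx := by
  have hY : ∀ x ∈ T, x.2 ∈ Y := fun x hx => (hT x hx).1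
  -- the tuples of one element
  let P : α → Finset (β × (Fin r → α)) := fun w => YB w ×ˢ Fintype.piFinset fun a : Fin r => Ya a w
  let S : Ω → α → Finset (β × (Fin r → α)) := fun o w =>
    (P w).filter fun q => Bp o w q.1 ∧ ∀ a, q.2 a ∈ Zs o
  have hPmem : ∀ w (q : β × (Fin r → α)), q ∈ P w ↔ q.1 ∈ YB w ∧ ∀ a : Fin r, q.2 a ∈ Ya a w := by
    intro w q
    simp only [P, Finset.mem_product, Fintype.mem_piFinset]
  have hS : ∀ o w, S o w = ((YB w).filter fun b => Bp o w b) ×ˢ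
      Fintype.piFinset fun a : Fin r => (Ya a w).filter fun z => z ∈ Zs o := by
    intro o w
    ext q
    simp only [S, Finset.mem_filter, hPmem, Finset.mem_product, Fintype.mem_piFinset]
    constructor
    · rintro ⟨⟨h1, h2⟩, h3, h4⟩
      exact ⟨⟨h1, h3⟩, fun a => ⟨h2 a, h4 a⟩⟩
    · rintro ⟨⟨h1, h3⟩, h5⟩
      exact ⟨⟨h1, fun a => (h5 a).1⟩, h3, fun a => (h5 a).2⟩
  have hScard : ∀ x ∈ T, (qb : ℝ) * ∏ a ∈ range r, (qa a : ℝ) ≤ ((S x.1 x.2).card : ℝ) := by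
    intro x hx
    rw [hS, Finset.card_product, Fintype.card_piFinset, Nat.cast_mul, Nat.cast_prod,
      Finset.prod_range fun a => (qa a : ℝ)]
    refine mul_le_mul (by exact_mod_cast hqb x hx) ?_ (Finset.prod_nonneg fun _ _ => by positivity)
      (by positivity)
    refine Finset.prod_le_prod (fun _ _ => by positivity) fun a _ => ?_
    exact_mod_cast hqa x hx a a.2
  have h1 : (T.card : ℝ) * (qb * ∏ a ∈ range r, (qa a : ℝ)) ≤
      ∑ x ∈ T, ((S x.1 x.2).card : ℝ) := by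
    rw [← nsmul_eq_mul]
    exact Finset.card_nsmul_le_sum _ _ _ hScard
  -- all pairs
  have hTsub : T ⊆ ((univ : Finset Ω) ×ˢ Y).filter fun x => x.2 ∈ Zs x.1 := by
    intro x hx
    rw [Finset.mem_filter, Finset.mem_product]
    exact ⟨⟨Finset.mem_univ _, hY x hx⟩, (hT x hx).2⟩
  have h2 : ∑ x ∈ T, ((S x.1 x.2).card : ℝ) ≤
      ∑ x ∈ ((univ : Finset Ω) ×ˢ Y).filter (fun x => x.2 ∈ Zs x.1), ((S x.1 x.2).card : ℝ) :=
    Finset.sum_le_sum_of_subset_of_nonneg hTsub fun _ _ _ => by positivity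
  have h3 : ∑ x ∈ ((univ : Finset Ω) ×ˢ Y).filter (fun x => x.2 ∈ Zs x.1), ((S x.1 x.2).card : ℝ) =
      ∑ w ∈ Y, ∑ q ∈ P w,
        (((univ : Finset Ω).filter fun o => w ∈ Zs o ∧ Bp o w q.1 ∧ ∀ a, q.2 a ∈ Zs o).card : ℝ) := by
    rw [Finset.sum_filter, Finset.sum_product, Finset.sum_comm]
    refine Finset.sum_congr rfl fun w _ => ?_
    have e1 : ∀ o : Ω, (if w ∈ Zs o then ((S o w).card : ℝ) else 0) =
        ∑ q ∈ P w, if (w ∈ Zs o ∧ Bp o w q.1 ∧ ∀ a, q.2 a ∈ Zs o) then (1 : ℝ) else 0 := by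
      intro o
      rw [← Finset.sum_filter, Finset.sum_const, nsmul_eq_mul, mul_one]
      split_ifs with hw
      · congr 2
        ext q
        simp only [S, Finset.mem_filter]
        constructor
        · rintro ⟨h4, h5⟩
          exact ⟨h4, hw, h5⟩
        · rintro ⟨h4, _, h5⟩
          exact ⟨h4, h5⟩
      · rw [eq_comm, Nat.cast_eq_zero, Finset.card_eq_zero, Finset.filter_eq_empty_iff]
        rintro q - ⟨h4, _⟩
        exact hw h4
    rw [Finset.sum_congr rfl fun o _ => e1 o, Finset.sum_comm]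
    refine Finset.sum_congr rfl fun q _ => ?_
    rw [← Finset.sum_filter, Finset.sum_const, nsmul_eq_mul, mul_one]
  have h4 : ∑ w ∈ Y, ∑ q ∈ P w,
        (((univ : Finset Ω).filter fun o => w ∈ Zs o ∧ Bp o w q.1 ∧ ∀ a, q.2 a ∈ Zs o).card : ℝ) ≤
      ∑ _w ∈ Y, (nb * ∏ a ∈ range r, (na a : ℝ)) * Mx := by
    refine Finset.sum_le_sum fun w hw => ?_
    have e1 : ∑ q ∈ P w,
        (((univ : Finset Ω).filter fun o => w ∈ Zs o ∧ Bp o w q.1 ∧ ∀ a, q.2 a ∈ Zs o).card : ℝ) ≤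
        ∑ _q ∈ P w, Mx := by
      refine Finset.sum_le_sum fun q hq => ?_
      have h5 := (hPmem w q).1 hq
      exact hM w hw q.1 h5.1 q.2 h5.2
    refine e1.trans ?_
    rw [Finset.sum_const, nsmul_eq_mul]
    refine mul_le_mul_of_nonneg_right ?_ hMx
    have e2 : (P w).card = (YB w).card * ∏ a : Fin r, (Ya a w).card := by
      show (YB w ×ˢ Fintype.piFinset fun a : Fin r => Ya a w).card = _
      rw [Finset.card_product, Fintype.card_piFinset]
    rw [e2, Nat.cast_mul, Nat.cast_prod, Finset.prod_range fun a => (na a : ℝ)]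
    refine mul_le_mul (by exact_mod_cast hnb w hw) ?_
      (Finset.prod_nonneg fun _ _ => by positivity) (by positivity)
    refine Finset.prod_le_prod (fun _ _ => by positivity) fun a _ => ?_
    exact_mod_cast hna w hw a a.2
  refine h1.trans (h2.trans (h3.le.trans (h4.trans (le_of_eq ?_))))
  rw [Finset.sum_const, nsmul_eq_mul]
  ring

end Pool.Agent.Lib.MP_e426f4_ag.DL
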