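import Pool.Agent.Lib.MP_e426f4_ag.DL.Defs

/-!
# Reg: half of the elements are regular

Let `N = 2 #F 2^#F`.  For `K ⊆ F`, `c ∈ F` let `Irr = {w ∈ Z : N p |cell (insert c K) w| < |cell K w|}`.  `Irr` is a union of
cells of `insert c K`.  Each cell of `K` contains at most `p` cells of `insert c K` (values of `ka c`), so
`N p |Irr| = ∑_{Q ⊆ Irr} N p |Q| ≤ ∑_Q |cell K| ≤ p ∑_{cells κ of K} |κ| = p |Z|`, `N |Irr| ≤ |Z|` if `p ≥ 1` (`p = 0` only for `Z = ∅` or
`F = ∅`).  Sum over the `2^#F #F` pairs `(K, c)`: at most `|Z| / 2` elements are irregular.  `Z' = Z \ ⋃ Irr`.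
(For the count use e.g. `card_eq_sum_card_image` with the map `w ↦ (fun c : K => ka c w)` or `w ↦ cell K w`:
`w ∈ Z`, `w' ∈ cell K w` gives `cell K w' = cell K w`.)
-/

set_option autoImplicit false

namespace Pool.Agent.Lib.MP_e426f4_ag.DL

open Finset

private theorem reg_mem_cell {α C : Type} (ka : C → α → ℕ) (Z : Finset α) (K : Finset C)
    (w z : α) : z ∈ cell ka Z K w ↔ z ∈ Z ∧ ∀ c ∈ K, ka c z = ka c w := by
  unfold cell
  rw [Finset.mem_filter]

/-- the number of cells of `insert c K` in a cell of `K` -/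
private theorem reg_inner {α C : Type} [DecidableEq α] [DecidableEq C] (ka : C → α → ℕ)
    (Z : Finset α) (K : Finset C) (c : C) (p : ℕ) (hp : (Z.image (ka c)).card ≤ p) (z : α) :
    ∑ w ∈ cell ka Z K z, (1 : ℚ) / (cell ka Z (insert c K) w).card ≤ p := by
  have hmaps : ∀ w ∈ cell ka Z K z, ka c w ∈ Z.image (ka c) := by
    intro w hw
    rw [reg_mem_cell] at hw
    exact Finset.mem_image_of_mem _ hw.1
  rw [← Finset.sum_fiberwise_of_maps_to hmaps]
  have h1 : ∀ v ∈ Z.image (ka c), ∑ w ∈ (cell ka Z K z).filter (fun w => ka c w = v),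
      (1 : ℚ) / (cell ka Z (insert c K) w).card ≤ 1 := by
    intro v _
    have h2 : ∀ w ∈ (cell ka Z K z).filter (fun w => ka c w = v),
        cell ka Z (insert c K) w = (cell ka Z K z).filter (fun w => ka c w = v) := by
      intro w hw
      rw [Finset.mem_filter, reg_mem_cell] at hw
      ext y
      rw [Finset.mem_filter, reg_mem_cell, reg_mem_cell]
      constructor
      · rintro ⟨h3, h4⟩
        refine ⟨⟨h3, fun c' hc' => ?_⟩, ?_⟩
        · rw [h4 c' (Finset.mem_insert_of_mem hc'), hw.1.2 c' hc']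
        · rw [h4 c (Finset.mem_insert_self c K), hw.2]
      · rintro ⟨⟨h3, h4⟩, h5⟩
        refine ⟨h3, fun c' hc' => ?_⟩
        rcases Finset.mem_insert.mp hc' with rfl | hc'
        · rw [h5, hw.2]
        · rw [h4 c' hc', hw.1.2 c' hc']
    set S := (cell ka Z K z).filter (fun w => ka c w = v) with hS
    have h3 : ∑ w ∈ S, (1 : ℚ) / (cell ka Z (insert c K) w).card = ∑ _w ∈ S, (1 : ℚ) / S.card :=
      Finset.sum_congr rfl fun w hw => by rw [h2 w hw]
    rw [h3, Finset.sum_const, nsmul_eq_mul]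
    rcases Nat.eq_zero_or_pos S.card with h4 | h4
    · rw [h4]
      norm_num
    · have : (0 : ℚ) < S.card := by exact_mod_cast h4
      rw [mul_one_div, div_self this.ne']
  refine (Finset.sum_le_sum h1).trans ?_
  rw [Finset.sum_const, nsmul_eq_mul, mul_one]
  exact_mod_cast hp

private theorem reg_total {α C : Type} [DecidableEq α] [DecidableEq C] (ka : C → α → ℕ)
    (Z : Finset α) (K : Finset C) (c : C) (p : ℕ) (hp : (Z.image (ka c)).card ≤ p) :
    ∑ w ∈ Z, ((cell ka Z K w).card : ℚ) / (cell ka Z (insert c K) w).card ≤ p * Z.card := by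
  have h1 : ∑ w ∈ Z, ((cell ka Z K w).card : ℚ) / (cell ka Z (insert c K) w).card =
      ∑ w ∈ Z, ∑ _z ∈ cell ka Z K w, (1 : ℚ) / (cell ka Z (insert c K) w).card := by
    refine Finset.sum_congr rfl fun w _ => ?_
    rw [Finset.sum_const, nsmul_eq_mul, mul_one_div]
  have h2 : ∑ w ∈ Z, ∑ _z ∈ cell ka Z K w, (1 : ℚ) / (cell ka Z (insert c K) w).card =
      ∑ z ∈ Z, ∑ w ∈ cell ka Z K z, (1 : ℚ) / (cell ka Z (insert c K) w).card := by
    refine Finset.sum_comm' fun w z => ?_
    rw [reg_mem_cell, reg_mem_cell]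
    constructor
    · rintro ⟨h3, h4, h5⟩
      exact ⟨⟨h3, fun c' hc' => (h5 c' hc').symm⟩, h4⟩
    · rintro ⟨⟨h3, h5⟩, h4⟩
      exact ⟨h3, h4, fun c' hc' => (h5 c' hc').symm⟩
  rw [h1, h2]
  refine (Finset.sum_le_sum fun z _ => reg_inner ka Z K c p hp z).trans ?_
  rw [Finset.sum_const, nsmul_eq_mul, mul_comm]

/-- the irregular elements for one pair `(K, c)` -/
private theorem reg_irr {α C : Type} [DecidableEq α] [DecidableEq C] (ka : C → α → ℕ)
    (Z : Finset α) (K : Finset C) (c : C) (p N : ℕ) (hp0 : 0 < p)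
    (hp : (Z.image (ka c)).card ≤ p) :
    N * (Z.filter fun w => N * p * (cell ka Z (insert c K) w).card <
      (cell ka Z K w).card).card ≤ Z.card := by
  set I := Z.filter fun w => N * p * (cell ka Z (insert c K) w).card <
      (cell ka Z K w).card with hI
  have h1 : ∀ w ∈ I, ((N * p : ℕ) : ℚ) ≤
      ((cell ka Z K w).card : ℚ) / (cell ka Z (insert c K) w).card := by
    intro w hw
    rw [hI, Finset.mem_filter] at hw
    have h2 : 0 < (cell ka Z (insert c K) w).card := by
      rw [Finset.card_pos]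
      exact ⟨w, (reg_mem_cell ka Z _ w w).mpr ⟨hw.1, fun _ _ => rfl⟩⟩
    have h3 : (0 : ℚ) < (cell ka Z (insert c K) w).card := by exact_mod_cast h2
    rw [le_div_iff₀ h3]
    exact_mod_cast hw.2.le
  have h2 : (I.card : ℚ) * ((N * p : ℕ) : ℚ) ≤ p * Z.card := by
    calc (I.card : ℚ) * ((N * p : ℕ) : ℚ) = ∑ _w ∈ I, ((N * p : ℕ) : ℚ) := by
          rw [Finset.sum_const, nsmul_eq_mul]
      _ ≤ ∑ w ∈ I, ((cell ka Z K w).card : ℚ) / (cell ka Z (insert c K) w).card :=
          Finset.sum_le_sum h1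
      _ ≤ ∑ w ∈ Z, ((cell ka Z K w).card : ℚ) / (cell ka Z (insert c K) w).card :=
          Finset.sum_le_sum_of_subset_of_nonneg (Finset.filter_subset _ _)
            fun w _ _ => by positivity
      _ ≤ p * Z.card := reg_total ka Z K c p hp
  have h3 : I.card * (N * p) ≤ p * Z.card := by exact_mod_cast h2
  have h4 : p * (N * I.card) ≤ p * Z.card := by
    calc p * (N * I.card) = I.card * (N * p) := by ring
      _ ≤ p * Z.card := h3
  exact Nat.le_of_mul_le_mul_left h4 hp0

theorem reg {α C : Type} [DecidableEq α] [DecidableEq C] (ka : C → α → ℕ) (Z : Finset α)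
    (F : Finset C) (p : ℕ) (hp : ∀ c ∈ F, (Z.image (ka c)).card ≤ p) :
    ∃ Z' ⊆ Z, Z.card ≤ 2 * Z'.card ∧ ∀ w ∈ Z', ∀ K ⊆ F, ∀ c ∈ F,
      (cell ka Z K w).card ≤ 2 * F.card * 2 ^ F.card * p * (cell ka Z (insert c K) w).card := by
  rcases F.eq_empty_or_nonempty with hF | hF
  · refine ⟨Z, Finset.Subset.refl _, by omega, fun w _ K _ c hc => ?_⟩
    rw [hF] at hc
    exact absurd hc (Finset.notMem_empty c)
  rcases Nat.eq_zero_or_pos p with hp0 | hp0
  · obtain ⟨c, hc⟩ := hF
    have h1 := hp c hc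
    rw [hp0, Nat.le_zero, Finset.card_eq_zero, Finset.image_eq_empty] at h1
    refine ⟨Z, Finset.Subset.refl _, by omega, fun w hw => ?_⟩
    rw [h1] at hw
    exact absurd hw (Finset.notMem_empty w)
  set N := 2 * F.card * 2 ^ F.card with hN
  set U := (F.powerset ×ˢ F).biUnion fun Kc => Z.filter fun w =>
    N * p * (cell ka Z (insert Kc.2 Kc.1) w).card < (cell ka Z Kc.1 w).card with hU
  have hUZ : U ⊆ Z := by
    rw [hU, Finset.biUnion_subset]
    intro Kc _
    exact Finset.filter_subset _ _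
  have hcard : N * U.card ≤ (2 ^ F.card * F.card) * Z.card := by
    calc N * U.card ≤ N * ∑ Kc ∈ F.powerset ×ˢ F, (Z.filter fun w =>
          N * p * (cell ka Z (insert Kc.2 Kc.1) w).card < (cell ka Z Kc.1 w).card).card :=
          Nat.mul_le_mul_left _ Finset.card_biUnion_le
      _ = ∑ Kc ∈ F.powerset ×ˢ F, N * (Z.filter fun w =>
          N * p * (cell ka Z (insert Kc.2 Kc.1) w).card < (cell ka Z Kc.1 w).card).card := by
          rw [Finset.mul_sum]
      _ ≤ ∑ _Kc ∈ F.powerset ×ˢ F, Z.card := by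
          refine Finset.sum_le_sum fun Kc hKc => ?_
          rw [Finset.mem_product] at hKc
          exact reg_irr ka Z Kc.1 Kc.2 p N hp0 (hp Kc.2 hKc.2)
      _ = (2 ^ F.card * F.card) * Z.card := by
          rw [Finset.sum_const, smul_eq_mul, Finset.card_product, Finset.card_powerset]
  have hFpos : 0 < 2 ^ F.card * F.card :=
    Nat.mul_pos (pow_pos (by norm_num) _) (Finset.card_pos.mpr hF)
  have hU2 : 2 * U.card ≤ Z.card := by
    have h1 : (2 ^ F.card * F.card) * (2 * U.card) ≤ (2 ^ F.card * F.card) * Z.card := by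
      calc (2 ^ F.card * F.card) * (2 * U.card) = N * U.card := by
            rw [hN]
            ring
        _ ≤ _ := hcard
    exact Nat.le_of_mul_le_mul_left h1 hFpos
  refine ⟨Z \ U, Finset.sdiff_subset, ?_, fun w hw K hK c hc => ?_⟩
  · rw [Finset.card_sdiff_of_subset hUZ]
    omega
  · rw [Finset.mem_sdiff] at hw
    by_contra hcon
    push Not at hcon
    apply hw.2
    rw [hU, Finset.mem_biUnion]
    exact ⟨(K, c), Finset.mem_product.mpr ⟨Finset.mem_powerset.mpr hK, hc⟩,
      Finset.mem_filter.mpr ⟨hw.1, hcon⟩⟩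

end Pool.Agent.Lib.MP_e426f4_ag.DL
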