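import Pool.Agent.Lib.MP_e426f4_ag.DL.Defs

/-!
# Sel1: selection of the levels, `#A ≤ j` (pure arithmetic)

`δ_i = dlt n j k i = n - k_i - (j - i) ≥ 1` (as `k_i + (j - i) ≤ k_j < n`), non-increasing in `i`,
`k_b - k_a = (b - a) + (δ_a - δ_b)` for `a ≤ b ≤ j`.  Put `g(δ) = min (d l) ((d - 1) δ)`, `m_i = k_(i+1) - k_i` for `i < j`, `m_j = 0`,
`t = j - i`, `S_i = k_j - k_i`.  By strong induction on `t = j - i`, `i ≤ j`, the following holds for the levels
`i = lev 0 < lev 1 < ... < lev r = j`, with `gain = ∑_{a<r} d min(l, k_(lev (a+1)) - k_(lev a)) + 2 d l + g(δ_j)`,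
`cost = ∑_{a<r} δ_(lev a) + 2 δ_j`:
(1) `l gain + (t + 3 l) δ_i ≥ l d (t + 2 l) + l g(δ_i) + min(m_i, l) δ_i + l cost`,
(2) `l r + min(m_i, l) ≤ 2 S_i + l`.
In the induction the new `lev'` is `lev' 0 = i`, `lev' (a+1) = lev a` (`sum_range_succ'`).  Write `δ = δ_i`; the difference of the two sides of
(1) is `Δ`.
* `i = j`: `r = 0`, clear.
* `S_i ≤ l`: next level `j` (`r = 1`).  With `x = δ - δ_j`, `S_i = t + x`, `m_i ≤ S_i`:
  `Δ ≥ l [g(δ-x) - g(δ)] + x (l (d+2) - δ)`, and `x ≤ l`, `δ ≤ (d+2) l / 2`.  If `(d-1)(δ-x) ≥ d l` the bracket is `0`.  If `(d-1) δ ≤ d l` it is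
  `-(d-1) x` and `δ ≤ 2 l`, `3 l - δ ≥ 0`.  Otherwise it is `(d-1)(δ-x) - d l`, and the sum is `x (3 l - δ) + l ((d-1) δ - d l)`, clear if
  `δ ≤ 3 l`, and `≥ l (3 l - δ) + l ((d-1) δ - d l) ≥ 0` if `δ > 3 l`.
* `S_i > l`, `m_i ≤ l`: let `i'` be the largest index with `k_i' - k_i ≤ l`; `i < i' < j`.  Next level `i'`.  `a = i' - i`, `x = δ - δ_i'`,
  `a + x = k_i' - k_i ≤ l`, `m_i' ≥ l - (a + x) + 1`, `m_i ≤ 1 + x`:
  `Δ ≥ x (l (d+2) - 2 δ) + l [g(δ-x) - g(δ)]`.  `≥ 0` as before (`2 δ ≤ (d+2) l`; if `(d-1) δ ≤ d l` then `3 δ ≤ 4 l`, `3 l - 2 δ ≥ 0`; in the mixed case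
  the sum is `x (3 l - 2 δ) + l ((d-1) δ - d l)`, `≥ l (d-3) (δ - l) ≥ 0` if `3 l < 2 δ`).  (2): `l - min(m_i', l) ≤ (a + x) - 1`,
  `min(m_i, l) ≤ a + x`.
* `m_i > l`: next level `i + 1`, `x = m_i - 1 ≥ l`, `y = δ - x = δ_(i+1) ≥ 1`:
  `Δ ≥ - l d + l g(y) + δ + (t-1) x + 3 l x - 2 l (x + y) ≥ (l x - l d) + l (g(y) - 2 y)`, `l x ≥ l² ≥ l d`, `2 y ≤ d l` as `2 δ ≤ (d+2) l`, `x ≥ l`,
  and `(d-1) y ≥ 2 y`.
Finally `i = 0`: forget `min(m_0, l) δ_0 ≥ 0`; `S_0 ≤ n`.  (Work in `ℤ`; checked numerically.)
-/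

set_option autoImplicit false

namespace Pool.Agent.Lib.MP_e426f4_ag.DL

open Finset

/-- the function `g` -/
private def gg (d l x : ℤ) : ℤ := min (d * l) ((d - 1) * x)

private theorem gg_le (d l x : ℤ) : gg d l x ≤ d * l := min_le_left _ _

/-- the bracket -/
private theorem gg_br (d l x e : ℤ) (hd : 4 ≤ d) (hdl : d ≤ l) (hx : 0 ≤ x) (hxl : x ≤ l)
    (h2 : 2 * e ≤ (d + 2) * l) :
    0 ≤ x * (l * (d + 2) - 2 * e) + l * (gg d l (e - x) - gg d l e) := by
  unfold gg
  have hl : 0 < l := by linarith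
  have h0 : 0 ≤ x * (l * (d + 2) - 2 * e) := mul_nonneg hx (by linarith)
  rcases le_total (d * l) ((d - 1) * (e - x)) with h1 | h1
  · have h3 : d * l ≤ (d - 1) * e := by nlinarith
    rw [min_eq_left h1, min_eq_left h3, sub_self, mul_zero, add_zero]
    exact h0
  · rcases le_total ((d - 1) * e) (d * l) with h3 | h3
    · rw [min_eq_right h1, min_eq_right h3]
      have h4 : 3 * e ≤ 4 * l := by
        by_contra h
        push Not at h
        have h5 : (d - 1) * (4 * l) < (d - 1) * (3 * e) := mul_lt_mul_of_pos_left h (by linarith)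
        nlinarith
      have h6 : x * (l * (d + 2) - 2 * e) + l * ((d - 1) * (e - x) - (d - 1) * e) =
          x * (3 * l - 2 * e) := by ring
      rw [h6]
      exact mul_nonneg hx (by linarith)
    · rw [min_eq_right h1, min_eq_left h3]
      have h6 : x * (l * (d + 2) - 2 * e) + l * ((d - 1) * (e - x) - d * l) =
          x * (3 * l - 2 * e) + l * ((d - 1) * e - d * l) := by ring
      rw [h6]
      rcases le_total (2 * e) (3 * l) with h5 | h5
      · exact add_nonneg (mul_nonneg hx (by linarith)) (mul_nonneg hl.le (by linarith))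
      · have h7 : 0 ≤ (l - x) * (2 * e - 3 * l) := mul_nonneg (by linarith) (by linarith)
        have h8 : 0 ≤ l * ((d - 3) * (e - l)) :=
          mul_nonneg hl.le (mul_nonneg (by linarith) (by linarith))
        nlinarith

/-- the last step: all of the rest fits -/
private theorem step1 (d l t m e x gj : ℤ) (hd : 4 ≤ d) (hdl : d ≤ l) (hx : 0 ≤ x) (hxl : x ≤ l)
    (he : 0 ≤ e) (h2 : 2 * e ≤ (d + 2) * l) (hm : m ≤ t + x) (hg : gg d l (e - x) = gj) :
    l * (d * (t + 2 * l)) + l * gg d l e + m * e + l * (e + 2 * (e - x)) ≤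
      l * (d * (t + x) + 2 * (d * l) + gj) + (t + 3 * l) * e := by
  have h3 := gg_br d l x e hd hdl hx hxl h2
  rw [hg] at h3
  have h4 : 0 ≤ (t + x - m) * e := mul_nonneg (by linarith) he
  have h5 : 0 ≤ x * e := mul_nonneg hx he
  nlinarith

/-- a step with a small first difference -/
private theorem step2 (d l t a m m' e x G C gj dj : ℤ) (hd : 4 ≤ d) (hdl : d ≤ l) (ha : 1 ≤ a) (hx : 0 ≤ x)
    (hxl : a + x ≤ l) (ht : 1 ≤ t) (he : x ≤ e) (h2 : 2 * e ≤ (d + 2) * l) (hm : m ≤ 1 + x)
    (hm' : l - (a + x) + 1 ≤ m')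
    (ih : l * (d * (t - a + 2 * l)) + l * gg d l (e - x) + m' * (e - x) + l * (C + 2 * dj) ≤
      l * (G + 2 * (d * l) + gj) + (t - a + 3 * l) * (e - x)) :
    l * (d * (t + 2 * l)) + l * gg d l e + m * e + l * (C + e + 2 * dj) ≤
      l * (G + d * (a + x) + 2 * (d * l) + gj) + (t + 3 * l) * e := by
  have h3 := gg_br d l x e hd hdl hx (by linarith) h2
  have h4 : 0 ≤ (1 + x - m) * e := mul_nonneg (by linarith) (by linarith)
  have h5 : 0 ≤ (m' - (l - (a + x) + 1)) * (e - x) := mul_nonneg (by linarith) (by linarith)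
  have h6 : 0 ≤ x * (x + t - 1) := mul_nonneg hx (by linarith)
  nlinarith

/-- a step with a large first difference -/
private theorem step3 (d l t m' e x G C gj dj : ℤ) (hd : 4 ≤ d) (hdl : d ≤ l) (hxl : l ≤ x)
    (ht : 1 ≤ t) (he : 1 ≤ e - x) (h2 : 2 * e ≤ (d + 2) * l) (hm' : 0 ≤ m')
    (ih : l * (d * (t - 1 + 2 * l)) + l * gg d l (e - x) + m' * (e - x) + l * (C + 2 * dj) ≤
      l * (G + 2 * (d * l) + gj) + (t - 1 + 3 * l) * (e - x)) :
    l * (d * (t + 2 * l)) + l * gg d l e + l * e + l * (C + e + 2 * dj) ≤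
      l * (G + d * l + 2 * (d * l) + gj) + (t + 3 * l) * e := by
  have hl : 0 < l := by linarith
  have h3 : 2 * (e - x) ≤ gg d l (e - x) := by
    unfold gg
    refine le_min (by nlinarith) ?_
    exact mul_le_mul_of_nonneg_right (by linarith) (by linarith)
  have h4 : l * (2 * (e - x)) ≤ l * gg d l (e - x) := mul_le_mul_of_nonneg_left h3 hl.le
  have h5 : l * gg d l e ≤ l * (d * l) := mul_le_mul_of_nonneg_left (gg_le d l e) hl.le
  have h6 : 0 ≤ m' * (e - x) := mul_nonneg hm' (by linarith)
  have h7 : l * d ≤ l * x := mul_le_mul_of_nonneg_left (by linarith) hl.le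
  have h8 : 0 ≤ t * x := mul_nonneg (by linarith) (by linarith)
  nlinarith

private theorem aux (d l : ℤ) (n j : ℕ) (k : ℕ → ℕ) (hd : 4 ≤ d) (hdl : d ≤ l)
    (hk : ∀ i, i < j → k i < k (i + 1)) (hkn : k j < n) (hn : 2 * (n : ℤ) ≤ (d + 1) * l)
    (D : ℕ → ℤ) (hD : ∀ i, D i = (n : ℤ) - k i - ((j : ℤ) - i))
    (m : ℕ → ℤ) (hm : ∀ i, m i = if i < j then (k (i + 1) : ℤ) - k i else 0)
    (hmono : ∀ i i', i ≤ i' → i' ≤ j → k i + (i' - i) ≤ k i') :
    ∀ t i : ℕ, i + t = j → ∃ (r : ℕ) (lev : ℕ → ℕ), lev 0 = i ∧ lev r = j ∧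
      (∀ a, a < r → lev a < lev (a + 1)) ∧
      l * r + min (m i) l ≤ 2 * ((k j : ℤ) - k i) + l ∧
      l * (d * (t + 2 * l)) + l * gg d l (D i) + min (m i) l * D i +
        l * ((∑ a ∈ range r, D (lev a)) + 2 * D j) ≤
      l * ((∑ a ∈ range r, d * min l ((k (lev (a + 1)) : ℤ) - k (lev a))) + 2 * (d * l) +
        gg d l (D j)) + (t + 3 * l) * D i := by
  have hl : 0 < l := by linarith
  -- properties of `D`
  have hmz : ∀ i i' : ℕ, i ≤ i' → i' ≤ j → (k i : ℤ) + ((i' : ℤ) - i) ≤ k i' := by
    intro i i' h1 h2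
    have := hmono i i' h1 h2
    omega
  have hkn' : (k j : ℤ) + 1 ≤ n := by exact_mod_cast hkn
  have hD1 : ∀ i, i ≤ j → 1 ≤ D i := by
    intro i hi
    have := hmz i j hi le_rfl
    rw [hD]
    linarith
  have hD2 : ∀ i, i ≤ j → 2 * D i ≤ (d + 2) * l := by
    intro i hi
    rw [hD]
    have h1 : (0 : ℤ) ≤ k i := Int.natCast_nonneg _
    have h2 : (i : ℤ) ≤ j := by exact_mod_cast hi
    nlinarith
  have hDm : ∀ i i' : ℕ, i ≤ i' → i' ≤ j → D i' ≤ D i := by
    intro i i' h1 h2
    have := hmz i i' h1 h2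
    rw [hD, hD]
    linarith
  have hDk : ∀ i i' : ℕ, (k i' : ℤ) - k i = ((i' : ℤ) - i) + (D i - D i') := by
    intro i i'
    rw [hD, hD]
    ring
  intro t
  induction t using Nat.strong_induction_on with
  | _ t ih =>
    intro i hit
    have hi : i ≤ j := by omega
    have hitz : (i : ℤ) + t = j := by exact_mod_cast hit
    have e1 := hD1 i hi
    have e2 := hD2 i hi
    -- the new sequence of levels
    have hnew : ∀ (r : ℕ) (lev : ℕ → ℕ) (i' : ℕ), i < i' → lev 0 = i' → lev r = j →
        (∀ a, a < r → lev a < lev (a + 1)) → ∃ lev' : ℕ → ℕ, lev' 0 = i ∧ lev' (r + 1) = j ∧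
        (∀ a, a < r + 1 → lev' a < lev' (a + 1)) ∧
        (∑ a ∈ range (r + 1), D (lev' a)) = (∑ a ∈ range r, D (lev a)) + D i ∧
        (∑ a ∈ range (r + 1), d * min l ((k (lev' (a + 1)) : ℤ) - k (lev' a))) =
          (∑ a ∈ range r, d * min l ((k (lev (a + 1)) : ℤ) - k (lev a))) +
            d * min l ((k i' : ℤ) - k i) := by
      intro r lev i' hii' h0 hr hlt
      refine ⟨fun a => Nat.casesOn a i lev, rfl, hr, ?_, ?_, ?_⟩
      · intro a ha
        cases a with
        | zero =>
          show i < lev 0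
          rw [h0]
          exact hii'
        | succ a => exact hlt a (by omega)
      · rw [Finset.sum_range_succ']
        rfl
      · rw [Finset.sum_range_succ']
        show _ + d * min l ((k (lev 0) : ℤ) - k i) = _
        rw [h0]
    rcases Nat.eq_zero_or_pos t with ht | ht
    · -- `i = j`
      subst ht
      have hij : i = j := by omega
      subst hij
      refine ⟨0, fun _ => i, rfl, rfl, fun a ha => absurd ha (by omega), ?_, ?_⟩
      · rw [hm, if_neg (lt_irrefl _), min_eq_left hl.le]
        push_cast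
        linarith
      · rw [hm, if_neg (lt_irrefl _), min_eq_left hl.le, Finset.range_zero, Finset.sum_empty,
          Finset.sum_empty]
        push_cast
        nlinarith
    · have hlt : i < j := by omega
      have ht1 : (1 : ℤ) ≤ t := by exact_mod_cast ht
      have hmi : m i = (k (i + 1) : ℤ) - k i := by rw [hm, if_pos hlt]
      have hmx : m i = 1 + (D i - D (i + 1)) := by
        rw [hmi, hDk]
        push_cast
        ring
      rcases le_or_gt ((k j : ℤ) - k i) l with hS | hS
      · -- the rest fits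
        obtain ⟨lev', h0, h1, h2, h3, h4⟩ := hnew 0 (fun _ => j) j hlt rfl rfl
          (fun a ha => absurd ha (by omega))
        have hx : 0 ≤ D i - D j := sub_nonneg.mpr (hDm i j hi le_rfl)
        have hS' := hDk i j
        have hmS : m i ≤ (t : ℤ) + (D i - D j) := by
          have h6 := hDm (i + 1) j hlt le_rfl
          linarith
        refine ⟨1, lev', h0, h1, h2, ?_, ?_⟩
        · have h6 : min (m i) l ≤ m i := min_le_left _ _
          push_cast
          linarith
        · rw [zero_add] at h3 h4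
          rw [h3, h4, Finset.range_zero, Finset.sum_empty, Finset.sum_empty, zero_add, zero_add,
            min_eq_right hS]
          have h7 := step1 d l t (min (m i) l) (D i) (D i - D j) (gg d l (D j)) hd hdl hx
            (by linarith) (by linarith) e2 ((min_le_left _ _).trans hmS)
            (by rw [sub_sub_cancel])
          rw [sub_sub_cancel] at h7
          have h8 : (k j : ℤ) - k i = t + (D i - D j) := by linarith
          rw [h8]
          exact h7
      · rcases le_or_gt (m i) l with hmle | hmgt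
        · -- the first difference is small
          set i' := Nat.findGreatest (fun q => k q ≤ k i + l.toNat) j with hi'
          have hlz : (l.toNat : ℤ) = l := Int.toNat_of_nonneg hl.le
          have hge : i + 1 ≤ i' := by
            refine Nat.le_findGreatest (by omega) ?_
            have : (k (i + 1) : ℤ) ≤ k i + l.toNat := by
              rw [hlz]
              linarith
            exact_mod_cast this
          have hi'j : i' ≤ j := Nat.findGreatest_le j
          have hPi' : k i' ≤ k i + l.toNat := by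
            have : (fun q => k q ≤ k i + l.toNat) i' :=
              Nat.findGreatest_spec (P := fun q => k q ≤ k i + l.toNat) (m := i) hi (by simp)
            exact this
          have hPi'z : (k i' : ℤ) - k i ≤ l := by
            have : (k i' : ℤ) ≤ k i + l.toNat := by exact_mod_cast hPi'
            rw [hlz] at this
            linarith
          have hne : i' ≠ j := by
            intro h
            rw [h] at hPi'z
            linarith
          have hi'lt : i' < j := lt_of_le_of_ne hi'j hne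
          have hnP : l < (k (i' + 1) : ℤ) - k i := by
            have h6 := Nat.findGreatest_is_greatest (P := fun q => k q ≤ k i + l.toNat)
              (n := j) (k := i' + 1) (by omega) (by omega)
            have h7 : (k i : ℤ) + l.toNat < k (i' + 1) := by exact_mod_cast not_le.mp h6
            rw [hlz] at h7
            linarith
          have hmi' : m i' = (k (i' + 1) : ℤ) - k i' := by rw [hm, if_pos hi'lt]
          obtain ⟨b, hb⟩ : ∃ b : ℕ, i' + b = j := ⟨j - i', by omega⟩
          obtain ⟨r, lev, l0, l1, l2, l3, l4⟩ := ih b (by omega) i' hb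
          obtain ⟨lev', h0, h1, h2, h3, h4⟩ := hnew r lev i' (by omega) l0 l1 l2
          have hbz : (i' : ℤ) + b = j := by exact_mod_cast hb
          have hii : (i : ℤ) + 1 ≤ i' := by exact_mod_cast hge
          have hax := hDk i i'
          have hx : 0 ≤ D i - D i' := sub_nonneg.mpr (hDm i i' (by omega) hi'j)
          have hDi' := hD1 i' hi'j
          have hm1 : min (m i) l = m i := min_eq_left hmle
          have hm1x : m i ≤ 1 + (D i - D i') := by
            have := hDm (i + 1) i' hge hi'j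
            linarith
          have hm2 : l - ((k i' : ℤ) - k i) + 1 ≤ min (m i') l := by
            refine le_min ?_ ?_
            · linarith
            · linarith
          refine ⟨r + 1, lev', h0, h1, h2, ?_, ?_⟩
          · rw [hm1]
            push_cast
            linarith
          · rw [h3, h4, min_eq_right hPi'z]
            have hb' : (b : ℤ) = t - (i' - i) := by linarith
            rw [hb'] at l4
            have h7 := step2 d l t (i' - i) (min (m i) l) (min (m i') l) (D i) (D i - D i')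
              (∑ a ∈ range r, d * min l ((k (lev (a + 1)) : ℤ) - k (lev a)))
              (∑ a ∈ range r, D (lev a)) (gg d l (D j)) (D j) hd hdl (by linarith) hx
              (by linarith) ht1 (by linarith) e2 (by rw [hm1]; exact hm1x) (by rw [← hax]; exact hm2)
              (by rw [sub_sub_cancel]; exact l4)
            rw [hax]
            exact h7
        · -- the first difference is large
          obtain ⟨b, hb⟩ : ∃ b : ℕ, (i + 1) + b = j := ⟨j - (i + 1), by omega⟩
          obtain ⟨r, lev, l0, l1, l2, l3, l4⟩ := ih b (by omega) (i + 1) hb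
          obtain ⟨lev', h0, h1, h2, h3, h4⟩ := hnew r lev (i + 1) (by omega) l0 l1 l2
          have hbz : (i : ℤ) + 1 + b = j := by exact_mod_cast hb
          have hDi' := hD1 (i + 1) hlt
          have hm1 : min (m i) l = l := min_eq_right hmgt.le
          have hm0 : 0 ≤ min (m (i + 1)) l := by
            refine le_min ?_ hl.le
            rw [hm]
            split_ifs with h
            · have := hk (i + 1) h
              have h9 : (k (i + 1) : ℤ) < k (i + 1 + 1) := by exact_mod_cast this
              linarith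
            · exact le_rfl
          refine ⟨r + 1, lev', h0, h1, h2, ?_, ?_⟩
          · rw [hm1]
            push_cast
            linarith
          · have hml : l ≤ (k (i + 1) : ℤ) - k i := by linarith
            rw [h3, h4, min_eq_left hml, hm1]
            have hb' : (b : ℤ) = t - 1 := by linarith
            rw [hb'] at l4
            have h7 := step3 d l t (min (m (i + 1)) l) (D i) (D i - D (i + 1))
              (∑ a ∈ range r, d * min l ((k (lev (a + 1)) : ℤ) - k (lev a)))
              (∑ a ∈ range r, D (lev a)) (gg d l (D j)) (D j) hd hdl (by linarith)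
              ht1 (by rw [sub_sub_cancel]; exact hDi') e2 hm0
              (by rw [sub_sub_cancel]; exact l4)
            exact h7

theorem sel1 (d l n j : ℕ) (k : ℕ → ℕ) (hd : 4 ≤ d) (hdl : d ≤ l) (hk : ∀ i, i < j → k i < k (i + 1))
    (hkn : k j < n) (hn : 2 * n ≤ (d + 1) * l) :
    ∃ (r : ℕ) (lev : ℕ → ℕ), lev r = j ∧ (∀ a, a < r → lev a < lev (a + 1)) ∧ l * r ≤ 2 * n + l ∧
      l * (d * (j + 2 * l)) + l * min (d * l) ((d - 1) * dlt n j k 0) +
        l * ((∑ a ∈ range r, dlt n j k (lev a)) + 2 * dlt n j k j) ≤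
      l * ((∑ a ∈ range r, d * min l (k (lev (a + 1)) - k (lev a))) + 2 * (d * l) +
        min (d * l) ((d - 1) * dlt n j k j)) + (j + 3 * l) * dlt n j k 0 := by
  have hmono : ∀ i i', i ≤ i' → i' ≤ j → k i + (i' - i) ≤ k i' := by
    intro i i' h
    induction i', h using Nat.le_induction with
    | base =>
      intro _
      omega
    | succ i' h1 ih =>
      intro h2
      have h3 := ih (by omega)
      have h4 := hk i' (by omega)
      omega
  obtain ⟨r, lev, l0, l1, l2, l3, l4⟩ := aux (d : ℤ) (l : ℤ) n j k (by exact_mod_cast hd)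
    (by exact_mod_cast hdl) hk hkn (by exact_mod_cast hn)
    (fun i => (n : ℤ) - k i - ((j : ℤ) - i)) (fun _ => rfl)
    (fun i => if i < j then (k (i + 1) : ℤ) - k i else 0) (fun _ => rfl) hmono j 0 (zero_add _)
  -- levels are at most `j`
  have hlev : ∀ b, b ≤ r → lev (r - b) ≤ j := by
    intro b
    induction b with
    | zero => intro _; rw [Nat.sub_zero, l1]
    | succ b ih =>
      intro hb
      have h1 := ih (by omega)
      have h2 := l2 (r - (b + 1)) (by omega)
      rw [show r - (b + 1) + 1 = r - b by omega] at h2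
      omega
  have hlev' : ∀ a, a ≤ r → lev a ≤ j := by
    intro a ha
    have := hlev (r - a) (by omega)
    rwa [show r - (r - a) = a by omega] at this
  have hdlt : ∀ i, i ≤ j → ((dlt n j k i : ℕ) : ℤ) = (n : ℤ) - k i - ((j : ℤ) - i) := by
    intro i hi
    have h1 := hmono i j hi le_rfl
    unfold dlt
    omega
  have hgg : ∀ i, i ≤ j → ((min (d * l) ((d - 1) * dlt n j k i) : ℕ) : ℤ) =
      gg d l ((n : ℤ) - k i - ((j : ℤ) - i)) := by
    intro i hi
    unfold gg
    rw [Nat.cast_min, ← hdlt i hi]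
    push_cast [Nat.cast_sub (show 1 ≤ d by omega)]
    rfl
  refine ⟨r, lev, l1, l2, ?_, ?_⟩
  · have h1 : (0 : ℤ) ≤ min (if 0 < j then (k (0 + 1) : ℤ) - k 0 else 0) l := by
      refine le_min ?_ (Int.natCast_nonneg _)
      split_ifs with h
      · have := hk 0 h
        have h9 : (k 0 : ℤ) < k (0 + 1) := by exact_mod_cast this
        linarith
      · exact le_rfl
    have h2 : (k j : ℤ) < n := by exact_mod_cast hkn
    have h3 : (0 : ℤ) ≤ k 0 := Int.natCast_nonneg _
    have h4 : (l : ℤ) * r ≤ 2 * n + l := by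
      linarith
    exact_mod_cast h4
  · have h1 : (0 : ℤ) ≤ min (if 0 < j then (k (0 + 1) : ℤ) - k 0 else 0) l *
        ((n : ℤ) - k 0 - ((j : ℤ) - (0 : ℕ))) := by
      refine mul_nonneg (le_min ?_ (Int.natCast_nonneg _)) ?_
      · split_ifs with h
        · have := hk 0 h
          have h9 : (k 0 : ℤ) < k (0 + 1) := by exact_mod_cast this
          linarith
        · exact le_rfl
      · rw [← hdlt 0 (Nat.zero_le _)]
        exact Int.natCast_nonneg _
    have h2 : (((∑ a ∈ range r, dlt n j k (lev a) : ℕ)) : ℤ) =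
        ∑ a ∈ range r, ((n : ℤ) - k (lev a) - ((j : ℤ) - lev a)) := by
      rw [Nat.cast_sum]
      exact Finset.sum_congr rfl fun a ha => hdlt _ (hlev' a (Finset.mem_range.mp ha).le)
    have h3 : (((∑ a ∈ range r, d * min l (k (lev (a + 1)) - k (lev a)) : ℕ)) : ℤ) =
        ∑ a ∈ range r, (d : ℤ) * min (l : ℤ) ((k (lev (a + 1)) : ℤ) - k (lev a)) := by
      rw [Nat.cast_sum]
      refine Finset.sum_congr rfl fun a ha => ?_
      have h4 := l2 a (Finset.mem_range.mp ha)
      have h5 := hmono (lev a) (lev (a + 1)) h4.le (hlev' _ (Finset.mem_range.mp ha))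
      rw [Nat.cast_mul, Nat.cast_min, Nat.cast_sub (by omega)]
    zify
    have e1 := hgg 0 (Nat.zero_le _)
    have e2 := hgg j le_rfl
    have e3 := hdlt 0 (Nat.zero_le _)
    have e4 := hdlt j le_rfl
    zify at e1 e2 h2 h3
    rw [e1, e2, h2, h3, e3, e4]
    push_cast at l4 h1 ⊢
    linarith

end Pool.Agent.Lib.MP_e426f4_ag.DL
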